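import Mathlib

/-!
# Read-once programs of bounded width and edges of the hypercube: definitions and specifications

A word `u : Fin n → Option Bool` is a face of `Q_n` (`none` = star).  `M` is a finite monoid, the
letter with bit `b` at position `q` has value `α q b`, the star at position `q` has value `κ q`.
-/

namespace Pool.Agent.Lib.MP_53850c_co.BW

open Finset

/-! ### Programs -/

/-- A read-once program of width `w` for words of length `n` over `{0, 1, *}`; the transitions may be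
different at each coordinate. -/
structure Prog (n w : ℕ) where
  start : Fin w
  step : Fin n → Option Bool → Fin w → Fin w
  acc : Fin w → Bool

variable {n w : ℕ}

/-- the state after reading the word `u` -/
def Prog.run (P : Prog n w) (u : Fin n → Option Bool) : Fin w :=
  (List.finRange n).foldl (fun q i => P.step i (u i) q) P.start

def Prog.Accepts (P : Prog n w) (u : Fin n → Option Bool) : Prop := P.acc (P.run u) = true

instance (P : Prog n w) (u : Fin n → Option Bool) : Decidable (P.Accepts u) :=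
  inferInstanceAs (Decidable (_ = _))

/-- the dimension of the face `u` -/
def dim (u : Fin n → Option Bool) : ℕ := (univ.filter fun i => u i = none).card

/-- the face `u` lies in the face `s` -/
def Sub (u s : Fin n → Option Bool) : Prop := ∀ i, s i ≠ none → u i = s i

/-- each `d`-face contains an accepted edge -/
def Prog.Covers (P : Prog n w) (d : ℕ) : Prop :=
  ∀ s : Fin n → Option Bool, dim s = d → ∃ u, dim u = 1 ∧ Sub u s ∧ P.Accepts u

/-- the number of accepted edges -/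
def Prog.size (P : Prog n w) : ℕ := (univ.filter fun u => dim u = 1 ∧ P.Accepts u).card

/-- the number of accepted edges of direction `q` -/
def Prog.sizeAt (P : Prog n w) (q : Fin n) : ℕ :=
  (univ.filter fun u => dim u = 1 ∧ u q = none ∧ P.Accepts u).card

/-- `B d = ⌊(d+1)²/4⌋` -/
def B (d : ℕ) : ℕ := (d + 1) ^ 2 / 4

/-! ### Values -/

section values

variable {M : Type} [Monoid M]

/-- value of `g 0, a 0, g 1, a 1, ..., a (j-1), g j` -/
def pre (g a : ℕ → M) : ℕ → M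
  | 0 => g 0
  | j + 1 => pre g a j * a j * g (j + 1)

/-- value of `g j, a j, g (j+1), ..., a (j+k-1), g (j+k)` -/
def suf (g a : ℕ → M) : ℕ → ℕ → M
  | j, 0 => g j
  | j, k + 1 => g j * a j * suf g a (j + 1) k

/-- value of the word `x` written at the positions `i, i+1, ...` -/
def val (α : ℕ → Bool → M) : ℕ → List Bool → M
  | _, [] => 1
  | i, b :: t => α i b * val α (i + 1) t

/-- the values of the words at the positions `i, ..., i + l - 1` -/
def Seg (α : ℕ → Bool → M) (i l : ℕ) : Set M := {v | ∃ x : List Bool, x.length = l ∧ val α i x = v}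

/-- the average of `f` over the values of the words at the positions `i, ..., i + l - 1` -/
noncomputable def E (α : ℕ → Bool → M) : ℕ → ℕ → (M → ℝ) → ℝ
  | _, 0, f => f 1
  | i, l + 1, f =>
    (E α (i + 1) l (fun v => f (α i false * v)) + E α (i + 1) l (fun v => f (α i true * v))) / 2

open Classical in
/-- the proportion of the words at the positions `i, ..., i + l - 1` with value `v` -/
noncomputable def tau (α : ℕ → Bool → M) (i l : ℕ) (v : M) : ℝ :=
  E α i l (fun u => if u = v then 1 else 0)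

/-- Covering at the level of values: for stars at positions `q 0 < ... < q (d-1) < n` and gap values
`z 0, ..., z d`, some star `j` and some bits are accepted. -/
def Cov (α : ℕ → Bool → M) (κ : ℕ → M) (ψ : M → Prop) (d n : ℕ) : Prop :=
  ∀ q : ℕ → ℕ, (∀ i, i + 1 < d → q i < q (i + 1)) → q (d - 1) < n →
    ∀ z : ℕ → M, z 0 ∈ Seg α 0 (q 0) →
      (∀ i, i + 1 < d → z (i + 1) ∈ Seg α (q i + 1) (q (i + 1) - q i - 1)) →
      z d ∈ Seg α (q (d - 1) + 1) (n - q (d - 1) - 1) →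
      ∃ j < d, ∃ b : ℕ → Bool,
        ψ (pre z (fun i => α (q i) (b i)) j * κ (q j) *
          suf z (fun i => α (q i) (b i)) (j + 1) (d - 1 - j))

open Classical in
/-- the proportion of accepted edges among those of direction `q` -/
noncomputable def dens (α : ℕ → Bool → M) (κ : ℕ → M) (ψ : M → Prop) (n q : ℕ) : ℝ :=
  E α 0 q (fun X => E α (q + 1) (n - q - 1) (fun Y => if ψ (X * κ q * Y) then 1 else 0))

open Classical in
/-- Homogeneous positions `h 0 < ... < h (m-1)`: equal letters, and a common set `V` of values, each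
of proportion at least `δ` in each gap, all other values together at most `ρ`. -/
structure Hom [Fintype M] (α : ℕ → Bool → M) (κ : ℕ → M) (h : ℕ → ℕ) (m : ℕ) (A : Bool → M) (C : M)
    (V : Set M) (δ ρ : ℝ) : Prop where
  mono : ∀ s t, s < t → t < m → h s < h t
  letter : ∀ s < m, α (h s) = A
  star : ∀ s < m, κ (h s) = C
  ne : V.Nonempty
  closed : ∀ u ∈ V, ∀ v ∈ V, ∀ c, u * A c * v ∈ V
  low : ∀ s t, s < t → t < m → ∀ v ∈ V, δ ≤ tau α (h s + 1) (h t - h s - 1) v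
  tail : ∀ s t, s < t → t < m →
    ∑ v ∈ univ.filter (fun v => v ∉ V), tau α (h s + 1) (h t - h s - 1) v ≤ ρ

end values

/-! ### Specifications -/

/-- RAMSEY (helper85). -/
def SpecRamsey : Prop := ∀ (K : Type) [Finite K] (m : ℕ), ∃ N : ℕ, ∀ (c : ℕ → ℕ → K) (S : Finset ℕ),
  N ≤ S.card → ∃ (h : ℕ → ℕ) (k : K), (∀ s < m, h s ∈ S) ∧ (∀ s t, s < t → t < m → h s < h t) ∧
    ∀ s t, s < t → t < m → c (h s) (h t) = k

/-- THRESHOLDS (helper85), from RAMSEY. -/
def SpecThr : Prop := ∀ (M : Type) [Monoid M] [Fintype M] (ε : ℝ), 0 < ε → ε ≤ 1 →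
  ∃ δ₀ : ℝ, 0 < δ₀ ∧ ∀ m : ℕ, ∃ N : ℕ, ∀ (α : ℕ → Bool → M) (κ : ℕ → M) (S : Finset ℕ),
    N ≤ S.card → ∃ (h : ℕ → ℕ) (A : Bool → M) (C : M) (V : Set M) (δ : ℝ), δ₀ ≤ δ ∧
      (∀ s < m, h s ∈ S) ∧ Hom α κ h m A C V δ (ε * δ)

/-- GROUP + FIBRE (helper39). -/
def SpecFibre : Prop := ∀ (M : Type) [Monoid M] [Finite M] (A : Bool → M) (V : Set M), V.Nonempty →
  (∀ u ∈ V, ∀ v ∈ V, ∀ c, u * A c * v ∈ V) →
  ∃ G : Set M, G.Nonempty ∧ G ⊆ V ∧ ∀ (F : M → M → Prop) (d : ℕ) (U W P Q : M), 1 ≤ d →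
    (∃ c, ∃ v ∈ V, P = A c * v) → (∃ v ∈ V, ∃ c, Q = v * A c) →
    (∀ k z : ℕ → M, (∀ i, k i ∈ G) → z 0 = U * k 0 * P → (∀ i, i + 1 < d → z (i + 1) = Q * k (i + 1) * P) →
      z d = Q * k d * W → ∃ j < d, ∃ b : ℕ → Bool,
        F (pre z (fun i => A (b i)) j) (suf z (fun i => A (b i)) (j + 1) (d - 1 - j))) →
    G.ncard ^ 2 ≤ B d * {p : M × M | p.1 ∈ G ∧ p.2 ∈ G ∧ F (U * p.1 * P) (Q * p.2 * W)}.ncard

open Classical in
/-- LEFT (helper5). `λ` = `lam`; the weight is `(1 - ρ) * η / (η + ρ) * (1 - (1 - η)^(a-1))` or any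
explicit weight which is as close to 1 as we like when `ρ ≤ ε δ` and `a` is large: -/
def SpecLeft : Prop := ∀ (ε δ₀ : ℝ), 0 < ε → ε ≤ 1 → 0 < δ₀ → ∃ a₀ : ℕ, ∀ (M : Type) [Monoid M]
  [Fintype M] (α : ℕ → Bool → M) (κ : ℕ → M) (h : ℕ → ℕ) (m : ℕ) (A : Bool → M) (C : M) (V : Set M)
  (δ : ℝ) (G : Set M) (f : M → ℝ) (lam : ℝ) (a : ℕ), δ₀ ≤ δ → Hom α κ h m A C V δ (ε * δ) →
  G.Nonempty → G ⊆ V → (∀ v, 0 ≤ f v) → 0 ≤ lam → a₀ ≤ a → a < m →
  (∀ t, t + 1 < a → ∀ U ∈ Seg α 0 (h t + 1), ∀ c, ∀ v ∈ V,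
    (G.ncard : ℝ) * lam ≤ ∑ g ∈ univ.filter (fun g => g ∈ G), f (U * g * (A c * v))) →
  (1 - 3 * ε) * lam ≤ E α 0 (h a) f

open Classical in
/-- RIGHT (helper5). The mirror image: suffix after `h a`, blocks in gaps `(h b, h (b+1))` with
`a + d ≤ b`. -/
def SpecRight : Prop := ∀ (ε δ₀ : ℝ) (d : ℕ), 0 < ε → ε ≤ 1 → 0 < δ₀ → ∃ a₀ : ℕ, ∀ (M : Type)
  [Monoid M] [Fintype M] (α : ℕ → Bool → M) (κ : ℕ → M) (h : ℕ → ℕ) (m : ℕ) (A : Bool → M) (C : M)
  (V : Set M) (δ : ℝ) (G : Set M) (f : M → ℝ) (lam : ℝ) (a n : ℕ), δ₀ ≤ δ →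
  Hom α κ h m A C V δ (ε * δ) → (∀ s < m, h s < n) →
  G.Nonempty → G ⊆ V → (∀ v, 0 ≤ f v) → 0 ≤ lam → a + a₀ ≤ m →
  (∀ b, a + d ≤ b → b + 1 < m → ∀ W ∈ Seg α (h (b + 1)) (n - h (b + 1)), ∀ c, ∀ v ∈ V,
    (G.ncard : ℝ) * lam ≤ ∑ g ∈ univ.filter (fun g => g ∈ G), f (v * A c * g * W)) →
  (1 - 3 * ε) * lam ≤ E α (h a + 1) (n - h a - 1) f

/-- TOP (helper5), from THRESHOLDS, FIBRE, LEFT, RIGHT: all but a bounded number of directions have
density at least `1 / B d - ε`. -/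
def SpecTop : Prop := ∀ (M : Type) [Monoid M] [Finite M] (d : ℕ) (ε : ℝ), 1 ≤ d → 0 < ε →
  ∃ N : ℕ, ∀ (α : ℕ → Bool → M) (κ : ℕ → M) (ψ : M → Prop) (n : ℕ), Cov α κ ψ d n →
    ∀ S : Finset ℕ, (∀ q ∈ S, q < n ∧ dens α κ ψ n q < 1 / (B d : ℝ) - ε) → S.card < N

/-- PROGRAMS (helper61): the monoid, the letters and the acceptance predicate of a program. `M w` is
the monoid of all maps `Fin w → Fin w` with the product in reading order. -/
def SpecProg : Prop := ∀ w : ℕ, ∃ (M : Type) (_ : Monoid M) (_ : Finite M), ∀ (n : ℕ) (P : Prog n w),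
  ∃ (α : ℕ → Bool → M) (κ : ℕ → M) (ψ : M → Prop),
    (∀ d, 1 ≤ d → P.Covers d → Cov α κ ψ d n) ∧
    ∀ q : Fin n, (P.sizeAt q : ℝ) = dens α κ ψ n q * 2 ^ (n - 1)

/-- AKS (helper83). -/
def SpecAKS : Prop := ∀ (d n : ℕ), 1 ≤ d → ∃ P : Prog n (d + 2), P.Covers d ∧
  B d * P.size ≤ n * 2 ^ (n - 1)

end Pool.Agent.Lib.MP_53850c_co.BW
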