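import Pool.Agent.Lib.MP_53850c_co.BW.Defs

section
/-!
# The Alon–Krech–Szabó sets are accepted by read-once programs of width `d + 2`
-/
namespace Pool.Agent.Lib.MP_53850c_co.BW.AKS

open Finset

variable {n : ℕ}

/-! ### Counting edges -/

/-- the edges of direction `q` -/
lemma card_edges_at (q : Fin n) :
    (univ.filter fun u : Fin n → Option Bool => dim u = 1 ∧ u q = none).card = 2 ^ (n - 1) := by
  classical
  have h1 : (univ.filter fun u : Fin n → Option Bool => dim u = 1 ∧ u q = none)
      = Fintype.piFinset (fun i => if i = q then ({none} : Finset (Option Bool))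
          else {some true, some false}) := by
    ext u
    rw [mem_filter, Fintype.mem_piFinset]
    constructor
    · rintro ⟨-, hd, hq⟩ i
      rw [dim, card_eq_one] at hd
      obtain ⟨j, hj⟩ := hd
      have hqj : q = j := by
        have : q ∈ univ.filter fun i => u i = none := by simp [hq]
        rw [hj, mem_singleton] at this
        exact this
      subst hqj
      by_cases hi : i = q
      · subst hi
        simp [hq]
      · have hne : u i ≠ none := by
          intro hn
          have : i ∈ univ.filter fun i => u i = none := by simp [hn]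
          rw [hj, mem_singleton] at this
          exact hi this
        rw [if_neg hi]
        rcases hu : u i with _ | b
        · exact absurd hu hne
        · cases b <;> simp
    · intro h
      have hq : u q = none := by simpa using h q
      refine ⟨mem_univ _, ?_, hq⟩
      rw [dim, card_eq_one]
      refine ⟨q, ?_⟩
      ext i
      rw [mem_filter, mem_singleton]
      constructor
      · rintro ⟨-, hi⟩
        by_contra hne
        have := h i
        rw [if_neg hne, hi] at this
        simp at this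
      · rintro rfl
        exact ⟨mem_univ _, hq⟩
  rw [h1, Fintype.card_piFinset]
  have h2 : ∀ i : Fin n, (if i = q then ({none} : Finset (Option Bool))
      else {some true, some false}).card = if i = q then 1 else 2 := by
    intro i
    split_ifs <;> simp
  rw [prod_congr rfl (fun i _ => h2 i), prod_ite, prod_const_one, prod_const, one_mul]
  congr 1
  rw [filter_not, filter_eq', if_pos (mem_univ _), card_sdiff_of_subset (subset_univ _),
    card_univ, Fintype.card_fin, card_singleton]

/-- the number of edges -/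
lemma card_edges : (univ.filter fun u : Fin n → Option Bool => dim u = 1).card = n * 2 ^ (n - 1) := by
  classical
  have h1 : (univ.filter fun u : Fin n → Option Bool => dim u = 1)
      = univ.biUnion (fun q : Fin n =>
        univ.filter fun u : Fin n → Option Bool => dim u = 1 ∧ u q = none) := by
    ext u
    simp only [mem_filter, mem_univ, true_and, mem_biUnion]
    constructor
    · intro h
      have h' := h
      rw [dim, card_eq_one] at h'
      obtain ⟨q, hq⟩ := h'
      refine ⟨q, h, ?_⟩
      have : q ∈ univ.filter fun i => u i = none := by rw [hq]; exact mem_singleton_self _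
      exact (mem_filter.mp this).2
    · rintro ⟨q, h, -⟩
      exact h
  rw [h1, card_biUnion]
  · rw [sum_congr rfl (fun q _ => card_edges_at q), sum_const, card_univ, Fintype.card_fin,
      smul_eq_mul]
  · intro q _ q' _ hne
    rw [Function.onFun, Finset.disjoint_left]
    intro u hu hu'
    rw [mem_filter] at hu hu'
    have h := hu.2.1
    rw [dim, card_eq_one] at h
    obtain ⟨j, hj⟩ := h
    have e1 : q ∈ univ.filter fun i => u i = none := by simp [hu.2.2]
    have e2 : q' ∈ univ.filter fun i => u i = none := by simp [hu'.2.2]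
    rw [hj, mem_singleton] at e1 e2
    exact hne (e1.trans e2.symm)

/-! ### The program -/

/-- states: before the star, after the star, rejected -/
inductive St (p q : ℕ) where
  | bef : ZMod p → St p q
  | aft : ZMod q → St p q
  | rej : St p q

variable {p q : ℕ}

/-- `St p q` is a sum -/
def St.equiv (p q : ℕ) : St p q ≃ (ZMod p ⊕ ZMod q) ⊕ Unit where
  toFun
    | .bef x => .inl (.inl x)
    | .aft y => .inl (.inr y)
    | .rej => .inr ()
  invFun
    | .inl (.inl x) => .bef x
    | .inl (.inr y) => .aft y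
    | .inr () => .rej
  left_inv := by rintro (_ | _ | _) <;> rfl
  right_inv := by rintro ((_ | _) | _) <;> rfl

/-- one step -/
def stp (a : ZMod p) : Option Bool → St p q → St p q
  | some b, .bef x => .bef (x + if b then 1 else 0)
  | some b, .aft y => .aft (y + if b then 1 else 0)
  | none, .bef x => if x = a then .aft 0 else .rej
  | _, _ => .rej

/-- acceptance -/
def ac (b : ZMod q) : St p q → Bool
  | .aft y => y = b
  | _ => false

/-- the numbering of the states -/
noncomputable def num (p q : ℕ) [NeZero p] [NeZero q] (w : ℕ) (h : w = p + q + 1) :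
    St p q ≃ Fin w :=
  (St.equiv p q).trans (Fintype.equivFinOfCardEq (by
    rw [Fintype.card_sum, Fintype.card_sum, ZMod.card, ZMod.card, Fintype.card_unit, h]))

/-- the program -/
noncomputable def prog (p q : ℕ) [NeZero p] [NeZero q] (w : ℕ) (h : w = p + q + 1) (n : ℕ)
    (a : ZMod p) (b : ZMod q) : Prog n w where
  start := num p q w h (.bef 0)
  step _ o s := num p q w h (stp a o ((num p q w h).symm s))
  acc s := ac b ((num p q w h).symm s)

lemma foldl_num [NeZero p] [NeZero q] {w : ℕ} (h : w = p + q + 1) (a : ZMod p)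
    (u : Fin n → Option Bool) (L : List (Fin n)) (s : St p q) :
    L.foldl (fun t i => num p q w h (stp a (u i) ((num p q w h).symm t))) (num p q w h s)
      = num p q w h (L.foldl (fun t i => stp a (u i) t) s) := by
  induction L generalizing s with
  | nil => rfl
  | cons i L ih =>
    rw [List.foldl_cons, List.foldl_cons, Equiv.symm_apply_apply, ih]

lemma accepts_iff [NeZero p] [NeZero q] {w : ℕ} (h : w = p + q + 1) (a : ZMod p) (b : ZMod q)
    (u : Fin n → Option Bool) :
    (prog p q w h n a b).Accepts u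
      ↔ ac b ((List.finRange n).foldl (fun t i => stp a (u i) t) (.bef (q := q) (0 : ZMod p)))
          = true := by
  rw [Prog.Accepts, Prog.run]
  simp only [prog]
  rw [foldl_num, Equiv.symm_apply_apply]

lemma foldl_bef (a : ZMod p) (u : Fin n → Option Bool) (L : List (Fin n))
    (hL : ∀ i ∈ L, u i ≠ none) (x : ZMod p) :
    L.foldl (fun t i => stp a (u i) t) (.bef (q := q) x)
      = .bef (x + ((L.countP fun i => u i = some true : ℕ) : ZMod p)) := by
  induction L generalizing x with
  | nil => simp
  | cons i L ih =>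
    rw [List.foldl_cons, List.countP_cons]
    rcases hu : u i with _ | b
    · exact absurd hu (hL i (List.mem_cons_self))
    · rw [stp, ih (fun j hj => hL j (List.mem_cons_of_mem _ hj))]
      congr 1
      cases b
      · simp
      · simp
        ring

lemma foldl_aft (a : ZMod p) (u : Fin n → Option Bool) (L : List (Fin n))
    (hL : ∀ i ∈ L, u i ≠ none) (y : ZMod q) :
    L.foldl (fun t i => stp a (u i) t) (.aft (p := p) y)
      = .aft (y + ((L.countP fun i => u i = some true : ℕ) : ZMod q)) := by
  induction L generalizing y with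
  | nil => simp
  | cons i L ih =>
    rw [List.foldl_cons, List.countP_cons]
    rcases hu : u i with _ | b
    · exact absurd hu (hL i (List.mem_cons_self))
    · rw [stp, ih (fun j hj => hL j (List.mem_cons_of_mem _ hj))]
      congr 1
      cases b
      · simp
      · simp
        ring

lemma foldl_rej (a : ZMod p) (u : Fin n → Option Bool) (L : List (Fin n)) :
    L.foldl (fun t i => stp a (u i) t) (.rej (p := p) (q := q)) = .rej := by
  induction L with
  | nil => rfl
  | cons i L ih =>
    rw [List.foldl_cons]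
    rcases hu : u i with _ | b
    · exact ih
    · exact ih

/-- number of ones on the left of `j` -/
def lft (u : Fin n → Option Bool) (j : Fin n) : ℕ :=
  (univ.filter fun i => i < j ∧ u i = some true).card

/-- number of ones on the right of `j` -/
def rgt (u : Fin n → Option Bool) (j : Fin n) : ℕ :=
  (univ.filter fun i => j < i ∧ u i = some true).card

lemma split_finRange (j : Fin n) : ∃ L R : List (Fin n), List.finRange n = L ++ j :: R ∧
    (∀ i, i ∈ L ↔ i < j) ∧ (∀ i, i ∈ R ↔ j < i) ∧ L.Nodup ∧ R.Nodup := by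
  obtain ⟨L, R, h⟩ := List.append_of_mem (List.mem_finRange j)
  have hs : (L ++ j :: R).Pairwise (· < ·) := by
    rw [← h]
    exact List.pairwise_lt_finRange n
  rw [List.pairwise_append, List.pairwise_cons] at hs
  obtain ⟨hL, ⟨hjR, hR⟩, hLR⟩ := hs
  have h1 : ∀ i ∈ L, i < j := fun i hi => hLR i hi j List.mem_cons_self
  have hmem : ∀ i, i ∈ L ∨ i = j ∨ i ∈ R := by
    intro i
    have := List.mem_finRange i
    rw [h, List.mem_append, List.mem_cons] at this
    exact this
  refine ⟨L, R, h, ?_, ?_, hL.imp (fun {a b} hab => ne_of_lt hab),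
    hR.imp (fun {a b} hab => ne_of_lt hab)⟩
  · intro i
    refine ⟨h1 i, fun hi => ?_⟩
    rcases hmem i with h2 | h2 | h2
    · exact h2
    · exact absurd hi (by rw [h2]; exact lt_irrefl _)
    · exact absurd (hjR i h2) (lt_asymm hi)
  · intro i
    refine ⟨hjR i, fun hi => ?_⟩
    rcases hmem i with h2 | h2 | h2
    · exact absurd (h1 i h2) (lt_asymm hi)
    · exact absurd hi (by rw [h2]; exact lt_irrefl _)
    · exact h2

lemma countP_eq_card {L : List (Fin n)} (hL : L.Nodup) (P Q : Fin n → Prop) [DecidablePred P]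
    [DecidablePred Q] (h : ∀ i, i ∈ L ↔ Q i) :
    L.countP (fun i => P i) = (univ.filter fun i => Q i ∧ P i).card := by
  classical
  have : (univ.filter fun i => Q i ∧ P i) = (L.filter (fun i => P i)).toFinset := by
    ext i
    simp [h i]
  rw [this, List.toFinset_card_of_nodup (hL.filter _), List.countP_eq_length_filter]

/-- the value of the run on an edge -/
lemma run_edge (a : ZMod p) {u : Fin n → Option Bool} {j : Fin n} (hj : u j = none)
    (hu : ∀ i, i ≠ j → u i ≠ none) :
    (List.finRange n).foldl (fun t i => stp a (u i) t) (.bef (q := q) (0 : ZMod p))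
      = if ((lft u j : ℕ) : ZMod p) = a then .aft ((rgt u j : ℕ) : ZMod q) else .rej := by
  obtain ⟨L, R, h, hL, hR, nL, nR⟩ := split_finRange j
  rw [h, List.foldl_append, List.foldl_cons,
    foldl_bef a u L (fun i hi => hu i (ne_of_lt ((hL i).mp hi))), hj, stp, zero_add,
    countP_eq_card nL (fun i => u i = some true) (fun i => i < j) hL]
  change (R.foldl (fun t i => stp a (u i) t)
    (if ((lft u j : ℕ) : ZMod p) = a then .aft 0 else .rej)) = _
  by_cases hc : ((lft u j : ℕ) : ZMod p) = a
  · rw [if_pos hc, if_pos hc, foldl_aft a u R (fun i hi => hu i (ne_of_gt ((hR i).mp hi))),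
      zero_add, countP_eq_card nR (fun i => u i = some true) (fun i => j < i) hR]
    rfl
  · rw [if_neg hc, if_neg hc, foldl_rej]

/-- acceptance of an edge -/
lemma accepts_edge [NeZero p] [NeZero q] {w : ℕ} (h : w = p + q + 1) (a : ZMod p) (b : ZMod q)
    {u : Fin n → Option Bool} {j : Fin n} (hj : u j = none) (hu : ∀ i, i ≠ j → u i ≠ none) :
    (prog p q w h n a b).Accepts u
      ↔ ((lft u j : ℕ) : ZMod p) = a ∧ ((rgt u j : ℕ) : ZMod q) = b := by
  rw [accepts_iff, run_edge a hj hu]
  by_cases hc : ((lft u j : ℕ) : ZMod p) = a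
  · rw [if_pos hc]
    simp [ac, hc]
  · rw [if_neg hc]
    simp [ac, hc]

/-! ### Covering -/

/-- the `k`-th star -/
lemma exists_star (s : Fin n → Option Bool) (k : ℕ) (hk : k < dim s) :
    ∃ j, s j = none ∧ (univ.filter fun i => i < j ∧ s i = none).card = k := by
  classical
  set S : Finset (Fin n) := univ.filter fun i => s i = none with hS
  have hcard : S.card = dim s := rfl
  set e := S.orderEmbOfFin hcard with he
  refine ⟨e ⟨k, hk⟩, ?_, ?_⟩
  · exact (mem_filter.mp (S.orderEmbOfFin_mem hcard ⟨k, hk⟩)).2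
  · have h1 : (univ.filter fun i => i < e ⟨k, hk⟩ ∧ s i = none)
        = (univ.filter fun i : Fin (dim s) => i < ⟨k, hk⟩).map e.toEmbedding := by
      ext i
      simp only [mem_filter, mem_univ, true_and, mem_map, RelEmbedding.coe_toEmbedding]
      constructor
      · rintro ⟨hlt, hi⟩
        have hiS : i ∈ Set.range e := by
          rw [he, Finset.range_orderEmbOfFin]
          simp [hS, hi]
        obtain ⟨t, rfl⟩ := hiS
        exact ⟨t, e.lt_iff_lt.mp hlt, rfl⟩
      · rintro ⟨t, ht, rfl⟩
        exact ⟨e.lt_iff_lt.mpr ht, (mem_filter.mp (S.orderEmbOfFin_mem hcard t)).2⟩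
    rw [h1, card_map]
    have h2 : (univ.filter fun i : Fin (dim s) => i < ⟨k, hk⟩)
        = Finset.Iio (⟨k, hk⟩ : Fin (dim s)) := by
      ext i
      simp
    rw [h2, Fin.card_Iio]

/-- Residues can be adjusted by a number of new ones smaller than the modulus. -/
lemma exists_adjust (p : ℕ) [NeZero p] (L : ℕ) (a : ZMod p) (T : Finset (Fin n))
    (hT : p ≤ T.card + 1) : ∃ A ⊆ T, ((L + A.card : ℕ) : ZMod p) = a := by
  have hp : 0 < p := Nat.pos_of_ne_zero (NeZero.ne p)
  have hval : (a - (L : ZMod p)).val ≤ T.card := by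
    have := ZMod.val_lt (a - (L : ZMod p))
    omega
  obtain ⟨A, hA, hAc⟩ := Finset.exists_subset_card_eq hval
  refine ⟨A, hA, ?_⟩
  rw [hAc]
  push_cast
  rw [ZMod.natCast_zmod_val]
  ring

/-- Each `d`-face contains an edge of each residue class. -/
lemma exists_edge (p q : ℕ) [NeZero p] [NeZero q] (s : Fin n → Option Bool)
    (hs : dim s + 1 = p + q) (a : ZMod p) (b : ZMod q) :
    ∃ (u : Fin n → Option Bool) (j : Fin n), u j = none ∧ (∀ i, i ≠ j → u i ≠ none) ∧ Sub u s ∧
      ((lft u j : ℕ) : ZMod p) = a ∧ ((rgt u j : ℕ) : ZMod q) = b := by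
  classical
  have hp : 0 < p := Nat.pos_of_ne_zero (NeZero.ne p)
  have hq : 0 < q := Nat.pos_of_ne_zero (NeZero.ne q)
  obtain ⟨j, hj, hjc⟩ := exists_star s (p - 1) (by omega)
  set T₁ : Finset (Fin n) := univ.filter fun i => i < j ∧ s i = none with hT₁
  set T₂ : Finset (Fin n) := univ.filter fun i => j < i ∧ s i = none with hT₂
  have hT₂c : T₂.card = q - 1 := by
    have h1 : (univ.filter fun i => s i = none) = insert j (T₁ ∪ T₂) := by
      ext i
      simp only [mem_filter, mem_univ, true_and, mem_insert, mem_union, hT₁, hT₂]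
      constructor
      · intro hi
        rcases lt_trichotomy i j with h | h | h
        · exact Or.inr (Or.inl ⟨h, hi⟩)
        · exact Or.inl h
        · exact Or.inr (Or.inr ⟨h, hi⟩)
      · rintro (rfl | ⟨-, h⟩ | ⟨-, h⟩)
        · exact hj
        · exact h
        · exact h
    have h2 : dim s = (T₁ ∪ T₂).card + 1 := by
      rw [dim, h1, card_insert_of_notMem]
      simp [hT₁, hT₂]
    have h3 : (T₁ ∪ T₂).card = T₁.card + T₂.card := by
      apply card_union_of_disjoint
      rw [Finset.disjoint_left]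
      intro i h h'
      rw [hT₁, mem_filter] at h
      rw [hT₂, mem_filter] at h'
      exact absurd h'.2.1 (lt_asymm h.2.1)
    omega
  obtain ⟨A₁, hA₁, e₁⟩ := exists_adjust p (lft s j) a T₁ (by omega)
  obtain ⟨A₂, hA₂, e₂⟩ := exists_adjust q (rgt s j) b T₂ (by omega)
  set u : Fin n → Option Bool := fun i =>
    if i = j then none else if s i = none then some (decide (i ∈ A₁ ∪ A₂)) else s i with hu
  have hA₁' : ∀ i ∈ A₁, i < j ∧ s i = none := fun i hi => by
    have := hA₁ hi
    rw [hT₁, mem_filter] at this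
    exact this.2
  have hA₂' : ∀ i ∈ A₂, j < i ∧ s i = none := fun i hi => by
    have := hA₂ hi
    rw [hT₂, mem_filter] at this
    exact this.2
  have hut : ∀ i, u i = some true ↔ s i = some true ∨ i ∈ A₁ ∪ A₂ := by
    intro i
    simp only [hu]
    by_cases h1 : i = j
    · subst h1
      rw [if_pos rfl]
      simp only [reduceCtorEq, false_iff, not_or, hj, not_false_eq_true, true_and, mem_union]
      exact ⟨fun h => lt_irrefl _ (hA₁' _ h).1, fun h => lt_irrefl _ (hA₂' _ h).1⟩
    · rw [if_neg h1]
      by_cases h2 : s i = none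
      · rw [if_pos h2]
        simp [h2]
      · rw [if_neg h2]
        constructor
        · exact Or.inl
        · rintro (h | h)
          · exact h
          · rw [mem_union] at h
            rcases h with h | h
            · exact absurd (hA₁' i h).2 h2
            · exact absurd (hA₂' i h).2 h2
  have hlft : lft u j = lft s j + A₁.card := by
    rw [lft, lft, ← card_union_of_disjoint]
    · congr 1
      ext i
      simp only [mem_filter, mem_univ, true_and, mem_union, hut]
      constructor
      · rintro ⟨h, h' | h' | h'⟩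
        · exact Or.inl ⟨h, h'⟩
        · exact Or.inr h'
        · exact absurd (hA₂' i h').1 (lt_asymm h)
      · rintro (⟨h, h'⟩ | h)
        · exact ⟨h, Or.inl h'⟩
        · exact ⟨(hA₁' i h).1, Or.inr (Or.inl h)⟩
    · rw [Finset.disjoint_left]
      intro i h h'
      rw [mem_filter] at h
      rw [(hA₁' i h').2] at h
      simp at h
  have hrgt : rgt u j = rgt s j + A₂.card := by
    rw [rgt, rgt, ← card_union_of_disjoint]
    · congr 1
      ext i
      simp only [mem_filter, mem_univ, true_and, mem_union, hut]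
      constructor
      · rintro ⟨h, h' | h' | h'⟩
        · exact Or.inl ⟨h, h'⟩
        · exact absurd (hA₁' i h').1 (lt_asymm h)
        · exact Or.inr h'
      · rintro (⟨h, h'⟩ | h)
        · exact ⟨h, Or.inl h'⟩
        · exact ⟨(hA₂' i h).1, Or.inr (Or.inr h)⟩
    · rw [Finset.disjoint_left]
      intro i h h'
      rw [mem_filter] at h
      rw [(hA₂' i h').2] at h
      simp at h
  refine ⟨u, j, by simp [hu], ?_, ?_, by rw [hlft]; exact e₁, by rw [hrgt]; exact e₂⟩
  · intro i hi
    simp only [hu, if_neg hi]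
    split_ifs with h
    · simp
    · exact h
  · intro i hi
    have hij : i ≠ j := fun h => hi (by rw [h]; exact hj)
    simp only [hu, if_neg hij, if_neg hi]

lemma dim_eq_one {u : Fin n → Option Bool} {j : Fin n} (hj : u j = none)
    (hu : ∀ i, i ≠ j → u i ≠ none) : dim u = 1 := by
  rw [dim, card_eq_one]
  refine ⟨j, ?_⟩
  ext i
  rw [mem_filter, mem_singleton]
  constructor
  · rintro ⟨-, hi⟩
    by_contra hne
    exact hu i hne hi
  · rintro rfl
    exact ⟨mem_univ _, hj⟩

lemma exists_star_of_dim {u : Fin n → Option Bool} (h : dim u = 1) :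
    ∃ j : Fin n, u j = none ∧ ∀ i, i ≠ j → u i ≠ none := by
  rw [dim, card_eq_one] at h
  obtain ⟨j, hj⟩ := h
  have h1 : ∀ i, u i = none ↔ i = j := by
    intro i
    have := Finset.ext_iff.mp hj i
    simpa using this
  exact ⟨j, (h1 j).mpr rfl, fun i hi h' => hi ((h1 i).mp h')⟩

theorem covers [NeZero p] [NeZero q] {w d : ℕ} (h : w = p + q + 1) (hd : d + 1 = p + q)
    (a : ZMod p) (b : ZMod q) : (prog p q w h n a b).Covers d := by
  intro s hs
  obtain ⟨u, j, hj, hu, hsub, e₁, e₂⟩ := exists_edge p q s (by omega) a b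
  exact ⟨u, dim_eq_one hj hu, hsub, (accepts_edge h a b hj hu).mpr ⟨e₁, e₂⟩⟩

/-- Some class is at most average. -/
theorem exists_class [NeZero p] [NeZero q] {w : ℕ} (h : w = p + q + 1) :
    ∃ (a : ZMod p) (b : ZMod q), p * q * (prog p q w h n a b).size ≤ n * 2 ^ (n - 1) := by
  classical
  set S : Finset (Fin n → Option Bool) := univ.filter fun u => dim u = 1 with hS
  set f : (Fin n → Option Bool) → ZMod p × ZMod q := fun u =>
    if hu : ∃ j : Fin n, u j = none ∧ ∀ i, i ≠ j → u i ≠ none then
      (((lft u hu.choose : ℕ) : ZMod p), ((rgt u hu.choose : ℕ) : ZMod q)) else (0, 0) with hf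
  have hlt : S.card < (univ : Finset (ZMod p × ZMod q)).card *
      (S.card / (univ : Finset (ZMod p × ZMod q)).card + 1) :=
    Nat.lt_mul_div_succ _ (card_pos.mpr univ_nonempty)
  obtain ⟨y, -, hy⟩ := exists_card_fiber_lt_of_card_lt_mul (f := f) hlt
  refine ⟨y.1, y.2, ?_⟩
  have hsize : (prog p q w h n y.1 y.2).size = (S.filter fun u => f u = y).card := by
    rw [Prog.size, hS, filter_filter]
    congr 1
    refine filter_congr (fun u _ => ?_)
    refine and_congr_right (fun hd => ?_)
    have hex := exists_star_of_dim hd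
    rw [accepts_edge h y.1 y.2 hex.choose_spec.1 hex.choose_spec.2, hf]
    simp only [dif_pos hex]
    exact (Prod.ext_iff (x := (((lft u hex.choose : ℕ) : ZMod p),
      ((rgt u hex.choose : ℕ) : ZMod q))) (y := y)).symm
  have hc : (univ : Finset (ZMod p × ZMod q)).card = p * q := by
    rw [card_univ, Fintype.card_prod, ZMod.card, ZMod.card]
  rw [hc, ← hsize] at hy
  calc p * q * (prog p q w h n y.1 y.2).size ≤ p * q * (S.card / (p * q)) :=
        Nat.mul_le_mul_left _ (Nat.lt_succ_iff.mp hy)
    _ ≤ S.card := Nat.mul_div_le _ _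
    _ = n * 2 ^ (n - 1) := by rw [hS, card_edges]

theorem specAKS : SpecAKS := by
  intro d n hd
  have h1 : NeZero ((d + 1) / 2) := ⟨by omega⟩
  have h2 : NeZero (d + 1 - (d + 1) / 2) := ⟨by omega⟩
  have hw : d + 2 = (d + 1) / 2 + (d + 1 - (d + 1) / 2) + 1 := by omega
  obtain ⟨a, b, hab⟩ := exists_class (n := n) (p := (d + 1) / 2) (q := d + 1 - (d + 1) / 2) hw
  refine ⟨prog _ _ _ hw n a b, covers hw (by omega) a b, ?_⟩
  have hB : B d = (d + 1) / 2 * (d + 1 - (d + 1) / 2) := by
    rw [B]
    rcases Nat.even_or_odd' (d + 1) with ⟨k, hk | hk⟩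
    · rw [hk]
      have e1 : 2 * k / 2 = k := by omega
      have e2 : 2 * k - k = k := by omega
      have e3 : (2 * k) ^ 2 = 4 * (k * k) := by ring
      rw [e1, e2, e3, Nat.mul_div_cancel_left _ (by norm_num)]
    · rw [hk]
      have e1 : (2 * k + 1) / 2 = k := by omega
      have e2 : 2 * k + 1 - k = k + 1 := by omega
      have e3 : (2 * k + 1) ^ 2 = 1 + 4 * (k * (k + 1)) := by ring
      rw [e1, e2, e3, Nat.add_mul_div_left _ _ (by norm_num)]
      norm_num
  rw [hB]
  exact hab

end Pool.Agent.Lib.MP_53850c_co.BW.AKS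
end

section
/-!
# Bounded width programs, vertices (`l = 0`) and `l`-faces: definitions and specifications
-/
namespace Pool.Agent.Lib.MP_53850c_co.BW

open Finset

variable {n w : ℕ}

/-- each `d`-face contains an accepted `l`-face -/
def Prog.CoversL (P : Prog n w) (d l : ℕ) : Prop :=
  ∀ s : Fin n → Option Bool, dim s = d → ∃ u, dim u = l ∧ Sub u s ∧ P.Accepts u

/-- the number of accepted `l`-faces -/
def Prog.sizeL (P : Prog n w) (l : ℕ) : ℕ := (univ.filter fun u => dim u = l ∧ P.Accepts u).card

section values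

variable {M : Type} [Monoid M]

/-- Covering by vertices at the level of values. -/
def Cov0 (α : ℕ → Bool → M) (ψ : M → Prop) (d n : ℕ) : Prop :=
  ∀ q : ℕ → ℕ, (∀ i, i + 1 < d → q i < q (i + 1)) → q (d - 1) < n →
    ∀ z : ℕ → M, z 0 ∈ Seg α 0 (q 0) →
      (∀ i, i + 1 < d → z (i + 1) ∈ Seg α (q i + 1) (q (i + 1) - q i - 1)) →
      z d ∈ Seg α (q (d - 1) + 1) (n - q (d - 1) - 1) →
      ∃ b : ℕ → Bool, ψ (pre z (fun i => α (q i) (b i)) d)

end values

/-- FIBRE for vertices (`G` may be the group of SpecFibre). -/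
def SpecFibre0 : Prop := ∀ (M : Type) [Monoid M] [Finite M] (A : Bool → M) (V : Set M), V.Nonempty →
  (∀ u ∈ V, ∀ v ∈ V, ∀ c, u * A c * v ∈ V) →
  ∃ G : Set M, G.Nonempty ∧ G ⊆ V ∧ ∀ (ψ : M → Prop) (d : ℕ) (U W P Q : M) (c : Bool), 1 ≤ d →
    (∃ c, ∃ v ∈ V, P = A c * v) → (∃ v ∈ V, ∃ c, Q = v * A c) →
    (∀ k z : ℕ → M, (∀ i, k i ∈ G) → z 0 = U * k 0 * P → (∀ i, i + 1 < d → z (i + 1) = Q * k (i + 1) * P) →
      z d = Q * k d * W → ∃ b : ℕ → Bool, ψ (pre z (fun i => A (b i)) d)) →
    G.ncard ^ 2 ≤ (d + 1) *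
      {p : M × M | p.1 ∈ G ∧ p.2 ∈ G ∧ ψ (U * p.1 * P * A c * (Q * p.2 * W))}.ncard

open Classical in
/-- TOP for vertices (from THRESHOLDS, FIBRE0, LEFT, RIGHT; `S` = all positions). -/
def SpecTop0 : Prop := ∀ (M : Type) [Monoid M] [Finite M] (d : ℕ) (ε : ℝ), 1 ≤ d → 0 < ε →
  ∃ n₀ : ℕ, ∀ n, n₀ ≤ n → ∀ (α : ℕ → Bool → M) (ψ : M → Prop), Cov0 α ψ d n →
    1 / ((d : ℝ) + 1) - ε ≤ E α 0 n (fun v => if ψ v then 1 else 0)

open Classical in
/-- PROGRAMS, vertices. -/
def SpecProg0 : Prop := ∀ w : ℕ, ∃ (M : Type) (_ : Monoid M) (_ : Finite M), ∀ (n : ℕ) (P : Prog n w),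
  ∃ (α : ℕ → Bool → M) (ψ : M → Prop),
    (∀ d, 1 ≤ d → P.CoversL d 0 → Cov0 α ψ d n) ∧
    (P.sizeL 0 : ℝ) = E α 0 n (fun v => if ψ v then 1 else 0) * 2 ^ n

/-- AKS for vertices: the weight modulo `d + 1`. -/
def SpecAKS0 : Prop := ∀ d n : ℕ, ∃ P : Prog n (d + 1), P.CoversL d 0 ∧
  (d + 1) * P.sizeL 0 ≤ 2 ^ n

end Pool.Agent.Lib.MP_53850c_co.BW
end

section
/-!
# The vertices of weight `a` modulo `d + 1` are accepted by read-once programs of width `d + 1`
-/
namespace Pool.Agent.Lib.MP_53850c_co.BW.AKS

open Finset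

variable {n : ℕ}

/-- the number of vertices -/
lemma card_vertices : (univ.filter fun u : Fin n → Option Bool => dim u = 0).card = 2 ^ n := by
  classical
  have h1 : (univ.filter fun u : Fin n → Option Bool => dim u = 0)
      = Fintype.piFinset (fun _ => ({some true, some false} : Finset (Option Bool))) := by
    ext u
    rw [mem_filter, Fintype.mem_piFinset, dim, card_eq_zero, filter_eq_empty_iff]
    constructor
    · rintro ⟨-, h⟩ i
      rcases hu : u i with _ | b
      · exact absurd hu (h (mem_univ i))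
      · cases b <;> simp
    · intro h
      refine ⟨mem_univ _, fun i _ hi => ?_⟩
      have := h i
      rw [hi] at this
      simp at this
  rw [h1, Fintype.card_piFinset]
  simp

/-- the numbering of the states -/
noncomputable def num0 (d : ℕ) : ZMod (d + 1) ≃ Fin (d + 1) :=
  Fintype.equivFinOfCardEq (ZMod.card (d + 1))

/-- one step -/
def stp0 (d : ℕ) (o : Option Bool) (x : ZMod (d + 1)) : ZMod (d + 1) :=
  x + if o = some true then 1 else 0

/-- the weight modulo `d + 1` -/
noncomputable def prog0 (d n : ℕ) (a : ZMod (d + 1)) : Prog n (d + 1) where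
  start := num0 d 0
  step _ o x := num0 d (stp0 d o ((num0 d).symm x))
  acc x := (num0 d).symm x = a

lemma accepts_prog0 (d : ℕ) (a : ZMod (d + 1)) (u : Fin n → Option Bool) :
    (prog0 d n a).Accepts u
      ↔ (((univ.filter fun i => u i = some true).card : ℕ) : ZMod (d + 1)) = a := by
  have h0 : ∀ (L : List (Fin n)) (x : ZMod (d + 1)),
      L.foldl (fun q i => num0 d (stp0 d (u i) ((num0 d).symm q))) (num0 d x)
        = num0 d (L.foldl (fun t i => stp0 d (u i) t) x) := by
    intro L
    induction L with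
    | nil => intro x; rfl
    | cons i L ih =>
      intro x
      rw [List.foldl_cons, List.foldl_cons, Equiv.symm_apply_apply, ih]
  have h1 : ∀ (L : List (Fin n)) (x : ZMod (d + 1)),
      L.foldl (fun t i => stp0 d (u i) t) x
        = x + ((L.countP fun i => u i = some true : ℕ) : ZMod (d + 1)) := by
    intro L
    induction L with
    | nil => intro x; simp
    | cons i L ih =>
      intro x
      rw [List.foldl_cons, List.countP_cons, ih, stp0]
      by_cases h : u i = some true
      · simp [h]
        ring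
      · simp [h]
  have h2 : (List.finRange n).countP (fun i => u i = some true)
      = (univ.filter fun i => u i = some true).card := by
    rw [countP_eq_card (List.nodup_finRange n) (fun i => u i = some true) (fun _ => True)
      (fun i => by simp)]
    simp
  rw [Prog.Accepts, Prog.run]
  simp only [prog0]
  rw [h0, Equiv.symm_apply_apply, h1, h2, zero_add]
  exact decide_eq_true_iff

/-- each `d`-face contains a vertex of each residue class -/
lemma covers0 (d : ℕ) (a : ZMod (d + 1)) : (prog0 d n a).CoversL d 0 := by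
  classical
  intro s hs
  obtain ⟨A, hA, e⟩ := exists_adjust (d + 1) (univ.filter fun i => s i = some true).card a
    (univ.filter fun i => s i = none) (by rw [← hs]; exact le_rfl)
  have hA' : ∀ i ∈ A, s i = none := fun i hi => (mem_filter.mp (hA hi)).2
  refine ⟨fun i => if s i = none then some (decide (i ∈ A)) else s i, ?_, ?_, ?_⟩
  · rw [dim, card_eq_zero, filter_eq_empty_iff]
    intro i _
    split_ifs with h
    · simp
    · exact h
  · intro i hi
    simp only [if_neg hi]
  · rw [accepts_prog0, ← e]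
    congr 2
    rw [← card_union_of_disjoint]
    · congr 1
      ext i
      simp only [mem_filter, mem_univ, true_and, mem_union]
      by_cases h : s i = none
      · simp [h]
      · simp only [if_neg h]
        exact ⟨Or.inl, fun h' => h'.elim id fun h' => absurd (hA' i h') h⟩
    · rw [Finset.disjoint_left]
      intro i h h'
      rw [mem_filter, hA' i h'] at h
      simp at h

theorem specAKS0 : SpecAKS0 := by
  classical
  intro d n
  set S : Finset (Fin n → Option Bool) := univ.filter fun u => dim u = 0 with hS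
  set f : (Fin n → Option Bool) → ZMod (d + 1) := fun u =>
    (((univ.filter fun i => u i = some true).card : ℕ) : ZMod (d + 1)) with hf
  have hlt : S.card < (univ : Finset (ZMod (d + 1))).card *
      (S.card / (univ : Finset (ZMod (d + 1))).card + 1) :=
    Nat.lt_mul_div_succ _ (card_pos.mpr univ_nonempty)
  obtain ⟨a, -, ha⟩ := exists_card_fiber_lt_of_card_lt_mul (f := f) hlt
  refine ⟨prog0 d n a, covers0 d a, ?_⟩
  have hsize : (prog0 d n a).sizeL 0 = (S.filter fun u => f u = a).card := by
    rw [Prog.sizeL, hS, filter_filter]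
    congr 1
    refine filter_congr (fun u _ => ?_)
    rw [accepts_prog0]
  have hc : (univ : Finset (ZMod (d + 1))).card = d + 1 := by
    rw [card_univ, ZMod.card]
  rw [hc, ← hsize] at ha
  calc (d + 1) * (prog0 d n a).sizeL 0 ≤ (d + 1) * (S.card / (d + 1)) :=
        Nat.mul_le_mul_left _ (Nat.lt_succ_iff.mp ha)
    _ ≤ S.card := Nat.mul_div_le _ _
    _ = 2 ^ n := by rw [hS, card_vertices]

end Pool.Agent.Lib.MP_53850c_co.BW.AKS
end

section
/-!
# Averages over values of words: basic facts
-/
set_option autoImplicit false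

namespace Pool.Agent.Lib.MP_53850c_co.BW

open Finset

variable {M : Type} [Monoid M]

lemma E_zero (α : ℕ → Bool → M) (i : ℕ) (f : M → ℝ) : E α i 0 f = f 1 := rfl

lemma E_succ (α : ℕ → Bool → M) (i l : ℕ) (f : M → ℝ) : E α i (l + 1) f =
    (E α (i + 1) l (fun v => f (α i false * v)) + E α (i + 1) l (fun v => f (α i true * v))) / 2 :=
  rfl

lemma E_add (α : ℕ → Bool → M) (i l : ℕ) (f g : M → ℝ) :
    E α i l (fun v => f v + g v) = E α i l f + E α i l g := by
  induction l generalizing i f g with
  | zero => rfl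
  | succ l ih =>
    rw [E_succ, E_succ, E_succ, ih, ih]
    ring

lemma E_const (α : ℕ → Bool → M) (i l : ℕ) (c : ℝ) : E α i l (fun _ => c) = c := by
  induction l generalizing i with
  | zero => rfl
  | succ l ih =>
    rw [E_succ, ih]
    ring

lemma E_const_mul (α : ℕ → Bool → M) (i l : ℕ) (c : ℝ) (f : M → ℝ) :
    E α i l (fun v => c * f v) = c * E α i l f := by
  induction l generalizing i f with
  | zero => rfl
  | succ l ih =>
    rw [E_succ, E_succ, ih, ih]
    ring

lemma E_mul_const (α : ℕ → Bool → M) (i l : ℕ) (c : ℝ) (f : M → ℝ) :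
    E α i l (fun v => f v * c) = E α i l f * c := by
  rw [mul_comm, ← E_const_mul]
  congr 1
  funext v
  ring

lemma E_sum {ι : Type*} (α : ℕ → Bool → M) (i l : ℕ) (s : Finset ι) (f : ι → M → ℝ) :
    E α i l (fun v => ∑ x ∈ s, f x v) = ∑ x ∈ s, E α i l (f x) := by
  classical
  induction s using Finset.induction_on with
  | empty => simp [E_const]
  | insert a s ha ih =>
    simp only [sum_insert ha]
    rw [E_add, ih]

/-! ### Words and segments -/

lemma val_nil (α : ℕ → Bool → M) (i : ℕ) : val α i [] = 1 := rfl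

lemma val_cons (α : ℕ → Bool → M) (i : ℕ) (b : Bool) (t : List Bool) :
    val α i (b :: t) = α i b * val α (i + 1) t := rfl

lemma val_append (α : ℕ → Bool → M) (i : ℕ) (x y : List Bool) :
    val α i (x ++ y) = val α i x * val α (i + x.length) y := by
  induction x generalizing i with
  | nil => simp [val_nil]
  | cons b t ih =>
    rw [List.cons_append, val_cons, val_cons, ih, mul_assoc, List.length_cons]
    have : i + 1 + t.length = i + (t.length + 1) := by ring
    rw [this]

lemma val_single (α : ℕ → Bool → M) (i : ℕ) (b : Bool) : val α i [b] = α i b := by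
  rw [val_cons, val_nil, mul_one]

lemma mem_seg_zero {α : ℕ → Bool → M} {i : ℕ} {v : M} : v ∈ Seg α i 0 ↔ v = 1 := by
  constructor
  · rintro ⟨x, hx, rfl⟩
    rw [List.length_eq_zero_iff] at hx
    rw [hx]
    rfl
  · rintro rfl
    exact ⟨[], rfl, rfl⟩

lemma one_mem_seg (α : ℕ → Bool → M) (i : ℕ) : (1 : M) ∈ Seg α i 0 := mem_seg_zero.2 rfl

lemma mem_seg_succ {α : ℕ → Bool → M} {i l : ℕ} {v : M} :
    v ∈ Seg α i (l + 1) ↔ ∃ b, ∃ u ∈ Seg α (i + 1) l, v = α i b * u := by
  constructor
  · rintro ⟨x, hx, rfl⟩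
    cases x with
    | nil => simp at hx
    | cons b t => exact ⟨b, val α (i + 1) t, ⟨t, by simpa using hx, rfl⟩, rfl⟩
  · rintro ⟨b, u, ⟨t, ht, rfl⟩, rfl⟩
    exact ⟨b :: t, by simp [ht], rfl⟩

lemma seg_mul {α : ℕ → Bool → M} {i l k : ℕ} {u v : M} (hu : u ∈ Seg α i l)
    (hv : v ∈ Seg α (i + l) k) : u * v ∈ Seg α i (l + k) := by
  obtain ⟨x, hx, rfl⟩ := hu
  obtain ⟨y, hy, rfl⟩ := hv
  exact ⟨x ++ y, by simp [hx, hy], by rw [val_append, hx]⟩

lemma seg_split {α : ℕ → Bool → M} {i l k : ℕ} {v : M} (hv : v ∈ Seg α i (l + k)) :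
    ∃ u ∈ Seg α i l, ∃ w ∈ Seg α (i + l) k, v = u * w := by
  obtain ⟨x, hx, rfl⟩ := hv
  have h1 : (x.take l).length = l := by rw [List.length_take, hx]; omega
  refine ⟨val α i (x.take l), ⟨x.take l, h1, rfl⟩,
    val α (i + l) (x.drop l), ⟨x.drop l, by rw [List.length_drop, hx]; omega, rfl⟩, ?_⟩
  conv_lhs => rw [← List.take_append_drop l x]
  rw [val_append, h1]

lemma letter_mem_seg (α : ℕ → Bool → M) (i : ℕ) (b : Bool) : α i b ∈ Seg α i 1 :=
  ⟨[b], rfl, val_single α i b⟩

lemma seg_nonempty (α : ℕ → Bool → M) (i l : ℕ) : (Seg α i l).Nonempty :=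
  ⟨_, List.replicate l false, by simp, rfl⟩

/-! ### Monotonicity and products -/

lemma E_mono_seg {α : ℕ → Bool → M} {i l : ℕ} {f g : M → ℝ} (h : ∀ v ∈ Seg α i l, f v ≤ g v) :
    E α i l f ≤ E α i l g := by
  induction l generalizing i f g with
  | zero => exact h 1 (one_mem_seg α i)
  | succ l ih =>
    rw [E_succ, E_succ]
    have h1 := ih (i := i + 1) (f := fun v => f (α i false * v)) (g := fun v => g (α i false * v))
      (fun v hv => h _ (mem_seg_succ.2 ⟨false, v, hv, rfl⟩))
    have h2 := ih (i := i + 1) (f := fun v => f (α i true * v)) (g := fun v => g (α i true * v))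
      (fun v hv => h _ (mem_seg_succ.2 ⟨true, v, hv, rfl⟩))
    linarith

lemma E_mono {α : ℕ → Bool → M} {i l : ℕ} {f g : M → ℝ} (h : ∀ v, f v ≤ g v) :
    E α i l f ≤ E α i l g := E_mono_seg fun v _ => h v

lemma E_congr_seg {α : ℕ → Bool → M} {i l : ℕ} {f g : M → ℝ} (h : ∀ v ∈ Seg α i l, f v = g v) :
    E α i l f = E α i l g :=
  le_antisymm (E_mono_seg fun v hv => (h v hv).le) (E_mono_seg fun v hv => (h v hv).ge)

lemma E_nonneg {α : ℕ → Bool → M} {i l : ℕ} {f : M → ℝ} (h : ∀ v, 0 ≤ f v) : 0 ≤ E α i l f := by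
  have := E_mono (α := α) (i := i) (l := l) (f := fun _ => 0) (g := f) h
  rwa [E_const] at this

lemma E_le_one {α : ℕ → Bool → M} {i l : ℕ} {f : M → ℝ} (h : ∀ v, f v ≤ 1) : E α i l f ≤ 1 := by
  have := E_mono (α := α) (i := i) (l := l) (f := f) (g := fun _ => 1) h
  rwa [E_const] at this

lemma E_split (α : ℕ → Bool → M) (i l k : ℕ) (f : M → ℝ) :
    E α i (l + k) f = E α i l (fun u => E α (i + l) k (fun v => f (u * v))) := by
  induction l generalizing i f with
  | zero =>
    rw [E_zero, Nat.zero_add, Nat.add_zero]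
    congr 1
    funext v
    rw [one_mul]
  | succ l ih =>
    have e : l + 1 + k = (l + k) + 1 := by ring
    have e2 : i + 1 + l = i + (l + 1) := by ring
    rw [e, E_succ, E_succ, ih, ih, e2]
    simp only [mul_assoc]

lemma E_comm (α β : ℕ → Bool → M) (i l j k : ℕ) (f : M → M → ℝ) :
    E α i l (fun u => E β j k (fun v => f u v)) = E β j k (fun v => E α i l (fun u => f u v)) := by
  induction l generalizing i f with
  | zero => rfl
  | succ l ih =>
    rw [E_succ, ih, ih]
    have h : (fun v => E α i (l + 1) (fun u => f u v)) = fun v =>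
        (E α (i + 1) l (fun u => f (α i false * u) v)) * (1 / 2)
          + (E α (i + 1) l (fun u => f (α i true * u) v)) * (1 / 2) := by
      funext v
      rw [E_succ]
      ring
    rw [h, E_add, E_mul_const, E_mul_const]
    ring

/-! ### The distribution of the values -/

lemma tau_nonneg (α : ℕ → Bool → M) (i l : ℕ) (v : M) : 0 ≤ tau α i l v := by
  classical
  unfold tau
  exact E_nonneg fun u => by split_ifs <;> norm_num

lemma E_eq_sum [Fintype M] (α : ℕ → Bool → M) (i l : ℕ) (f : M → ℝ) :
    E α i l f = ∑ v, tau α i l v * f v := by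
  classical
  have h : f = fun u => ∑ v, (if u = v then (1 : ℝ) else 0) * f v := by
    funext u
    simp
  conv_lhs => rw [h]
  rw [E_sum]
  refine sum_congr rfl fun v _ => ?_
  rw [E_mul_const]
  unfold tau
  congr

lemma sum_tau [Fintype M] (α : ℕ → Bool → M) (i l : ℕ) : ∑ v, tau α i l v = 1 := by
  have h := E_eq_sum α i l (fun _ => (1 : ℝ))
  rw [E_const] at h
  simpa using h.symm

lemma tau_le_one (α : ℕ → Bool → M) (i l : ℕ) (v : M) : tau α i l v ≤ 1 := by
  classical
  unfold tau
  exact E_le_one fun u => by split_ifs <;> norm_num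

lemma tau_eq_zero {α : ℕ → Bool → M} {i l : ℕ} {v : M} (h : v ∉ Seg α i l) :
    tau α i l v = 0 := by
  classical
  unfold tau
  have := E_congr_seg (α := α) (i := i) (l := l) (f := fun u => if u = v then (1 : ℝ) else 0)
    (g := fun _ => 0) (fun u hu => by
      rw [if_neg]
      rintro rfl
      exact h hu)
  rw [E_const] at this
  exact this

lemma tau_pos {α : ℕ → Bool → M} {i l : ℕ} {v : M} (h : v ∈ Seg α i l) :
    (1 / 2 : ℝ) ^ l ≤ tau α i l v := by
  classical
  unfold tau
  have key : ∀ (l i : ℕ) (g : M → ℝ), (∀ u, 0 ≤ g u) → (∃ u ∈ Seg α i l, 1 ≤ g u) →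
      (1 / 2 : ℝ) ^ l ≤ E α i l g := by
    intro l
    induction l with
    | zero =>
      rintro i g _ ⟨u, hu, h1⟩
      rw [mem_seg_zero] at hu
      rw [hu] at h1
      simpa [E_zero] using h1
    | succ l ih =>
      rintro i g hg ⟨u, hu, h1⟩
      obtain ⟨b, u', hu', rfl⟩ := mem_seg_succ.1 hu
      have h2 := ih (i + 1) (fun v => g (α i b * v)) (fun v => hg _) ⟨u', hu', h1⟩
      rw [E_succ, pow_succ]
      have h3 : 0 ≤ E α (i + 1) l (fun v => g (α i false * v)) := E_nonneg fun v => hg _
      have h4 : 0 ≤ E α (i + 1) l (fun v => g (α i true * v)) := E_nonneg fun v => hg _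
      cases b <;> linarith
  exact key l i _ (fun u => by split_ifs <;> norm_num) ⟨v, h, by simp⟩

lemma tau_pos_iff {α : ℕ → Bool → M} {i l : ℕ} {v : M} : 0 < tau α i l v ↔ v ∈ Seg α i l := by
  constructor
  · intro h
    by_contra hv
    rw [tau_eq_zero hv] at h
    exact lt_irrefl _ h
  · intro h
    exact lt_of_lt_of_le (by positivity) (tau_pos h)

lemma tau_mul_le (α : ℕ → Bool → M) (i l k : ℕ) (u v : M) :
    tau α i l u * tau α (i + l) k v ≤ tau α i (l + k) (u * v) := by
  classical
  unfold tau
  rw [E_split, ← E_mul_const]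
  refine E_mono fun x => ?_
  by_cases hx : x = u
  · subst hx
    simp only [if_true, one_mul]
    refine E_mono fun y => ?_
    by_cases hy : y = v
    · simp [hy]
    · rw [if_neg hy]
      split_ifs <;> norm_num
  · rw [if_neg hx, zero_mul]
    exact E_nonneg fun y => by split_ifs <;> norm_num

lemma tau_single (α : ℕ → Bool → M) (i : ℕ) (b : Bool) : 1 / 2 ≤ tau α i 1 (α i b) := by
  have := tau_pos (letter_mem_seg α i b)
  simpa using this

end Pool.Agent.Lib.MP_53850c_co.BW
end

section
/-!
# The monoid of a read-once program of bounded width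
-/
set_option autoImplicit false

namespace Pool.Agent.Lib.MP_53850c_co.BW

open Finset

section PF

variable {M : Type} [Monoid M]

/-- the product `γ i * γ (i+1) * ... * γ (i+l-1)` -/
def PF (γ : ℕ → M) : ℕ → ℕ → M
  | _, 0 => 1
  | i, l + 1 => γ i * PF γ (i + 1) l

lemma PF_add (γ : ℕ → M) (i l k : ℕ) : PF γ i (l + k) = PF γ i l * PF γ (i + l) k := by
  induction l generalizing i with
  | zero => simp [PF]
  | succ l ih =>
    have e : l + 1 + k = (l + k) + 1 := by ring
    have e2 : i + 1 + l = i + (l + 1) := by ring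
    rw [e]
    show γ i * PF γ (i + 1) (l + k) = γ i * PF γ (i + 1) l * PF γ (i + (l + 1)) k
    rw [ih, e2, mul_assoc]

lemma PF_congr {γ γ' : ℕ → M} {i l : ℕ} (h : ∀ p, i ≤ p → p < i + l → γ p = γ' p) :
    PF γ i l = PF γ' i l := by
  induction l generalizing i with
  | zero => rfl
  | succ l ih =>
    show γ i * PF γ (i + 1) l = γ' i * PF γ' (i + 1) l
    rw [h i le_rfl (by omega), ih fun p h1 h2 => h p (by omega) (by omega)]

lemma PF_finRange (γ : ℕ → M) (n i : ℕ) :
    ((List.finRange n).map (fun k : Fin n => γ (i + (k : ℕ)))).prod = PF γ i n := by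
  induction n generalizing i with
  | zero => simp [PF]
  | succ n ih =>
    rw [List.finRange_succ, List.map_cons, List.prod_cons, List.map_map]
    show γ (i + 0) * _ = γ i * PF γ (i + 1) n
    rw [← ih (i + 1), Nat.add_zero]
    congr 3
    funext k
    simp only [Function.comp_apply, Fin.val_succ]
    congr 1
    ring

lemma val_ofFn (α : ℕ → Bool → M) (l i : ℕ) (x : Fin l → Bool) (X : ℕ → Bool)
    (h : ∀ k : Fin l, X (i + k) = x k) :
    val α i (List.ofFn x) = PF (fun p => α p (X p)) i l := by
  induction l generalizing i with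
  | zero => simp [val, PF]
  | succ l ih =>
    rw [List.ofFn_succ, val_cons]
    show _ = α i (X i) * PF (fun p => α p (X p)) (i + 1) l
    have h0 := h 0
    simp only [Fin.val_zero, Nat.add_zero] at h0
    rw [h0, ih (i + 1) (fun k => x k.succ) fun k => by
      rw [← h k.succ, Fin.val_succ]
      congr 1
      ring]

lemma mem_seg_iff {α : ℕ → Bool → M} {i l : ℕ} {v : M} :
    v ∈ Seg α i l ↔ ∃ X : ℕ → Bool, v = PF (fun p => α p (X p)) i l := by
  constructor
  · rintro ⟨x, hx, rfl⟩
    subst hx
    refine ⟨fun p => x.getD (p - i) false, ?_⟩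
    conv_lhs => rw [← List.ofFn_get x]
    refine val_ofFn α _ i _ _ fun k => ?_
    simp
  · rintro ⟨X, rfl⟩
    refine ⟨List.ofFn (fun k : Fin l => X (i + k)), by simp, ?_⟩
    exact val_ofFn α l i _ X fun k => rfl

/-- the average as a sum over all words -/
lemma E_eq_sum_fn (α : ℕ → Bool → M) (l i : ℕ) (f : M → ℝ) :
    E α i l f * 2 ^ l = ∑ x : Fin l → Bool, f (val α i (List.ofFn x)) := by
  induction l generalizing i f with
  | zero => simp [E_zero, val_nil]
  | succ l ih =>
    rw [← (Fin.consEquiv fun _ : Fin (l + 1) => Bool).sum_comp, Fintype.sum_prod_type]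
    rw [Fintype.sum_bool, E_succ, pow_succ]
    have h : ∀ b : Bool, ∑ y : Fin l → Bool,
        f (val α i (List.ofFn ((Fin.consEquiv fun _ : Fin (l + 1) => Bool) (b, y))))
        = E α (i + 1) l (fun v => f (α i b * v)) * 2 ^ l := by
      intro b
      rw [ih]
      refine sum_congr rfl fun y _ => ?_
      have : List.ofFn ((Fin.consEquiv fun _ : Fin (l + 1) => Bool) (b, y)) = b :: List.ofFn y := by
        show List.ofFn (Fin.cons b y) = _
        rw [List.ofFn_cons]
      rw [this, val_cons]
    rw [h true, h false]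
    ring

lemma E_congr_letters {α α' : ℕ → Bool → M} {i l : ℕ} (f : M → ℝ)
    (h : ∀ p, i ≤ p → p < i + l → α p = α' p) : E α i l f = E α' i l f := by
  induction l generalizing i f with
  | zero => rfl
  | succ l ih =>
    rw [E_succ, E_succ, h i le_rfl (by omega), ih _ fun p h1 h2 => h p (by omega) (by omega),
      ih _ fun p h1 h2 => h p (by omega) (by omega)]

/-! ### Products with stars -/

lemma pre_suf (g a : ℕ → M) (j k : ℕ) :
    pre g a j * a j * suf g a (j + 1) k = suf g a 0 (j + 1 + k) := by
  induction j generalizing k with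
  | zero =>
    have e : 0 + 1 + k = k + 1 := by ring
    rw [e]
    rfl
  | succ j ih =>
    have h := ih (k + 1)
    have e : j + 1 + 1 + k = j + 1 + (k + 1) := by ring
    rw [e, ← h]
    show pre g a j * a j * g (j + 1) * a (j + 1) * suf g a (j + 1 + 1) k =
      pre g a j * a j * (g (j + 1) * a (j + 1) * suf g a (j + 1 + 1) k)
    simp only [mul_assoc]

lemma pre_congr {g a a' : ℕ → M} {j : ℕ} (h : ∀ i < j, a i = a' i) : pre g a j = pre g a' j := by
  induction j with
  | zero => rfl
  | succ j ih =>
    show pre g a j * a j * g (j + 1) = pre g a' j * a' j * g (j + 1)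
    rw [ih fun i hi => h i (by omega), h j (by omega)]

lemma suf_congr {g a a' : ℕ → M} {j k : ℕ} (h : ∀ i, j ≤ i → a i = a' i) :
    suf g a j k = suf g a' j k := by
  induction k generalizing j with
  | zero => rfl
  | succ k ih =>
    show g j * a j * suf g a (j + 1) k = g j * a' j * suf g a' (j + 1) k
    rw [h j le_rfl, ih fun i hi => h i (by omega)]

end PF

/-! ### The monoid -/

section prog

variable {n w : ℕ}

/-- all maps `Fin w → Fin w` with the product in reading order -/
abbrev MM (w : ℕ) : Type := (Function.End (Fin w))ᵐᵒᵖ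

/-- the value of the letter `c` at position `p` -/
def Prog.beta (P : Prog n w) (p : ℕ) (c : Option Bool) : MM w :=
  if h : p < n then MulOpposite.op (P.step ⟨p, h⟩ c) else 1

lemma Prog.foldl_eq (P : Prog n w) (u : Fin n → Option Bool) (L : List (Fin n)) (s : Fin w) :
    L.foldl (fun q i => P.step i (u i) q) s =
      ((L.map (fun i : Fin n => P.beta (i : ℕ) (u i))).prod).unop s := by
  induction L generalizing s with
  | nil => rfl
  | cons a L ih =>
    rw [List.foldl_cons, ih, List.map_cons, List.prod_cons, MulOpposite.unop_mul]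
    show _ = ((L.map fun i : Fin n => P.beta (i : ℕ) (u i)).prod).unop ((P.beta (a : ℕ) (u a)).unop s)
    congr 1
    unfold Prog.beta
    rw [dif_pos a.2]
    rfl

/-- the state after reading `u`, as a product of values -/
lemma Prog.run_eq (P : Prog n w) (u : Fin n → Option Bool) (U : ℕ → Option Bool)
    (h : ∀ i : Fin n, U i = u i) :
    P.run u = (PF (fun p => P.beta p (U p)) 0 n).unop P.start := by
  unfold Prog.run
  rw [Prog.foldl_eq, ← PF_finRange]
  have h1 : (fun i : Fin n => P.beta (i : ℕ) (u i)) =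
      fun k : Fin n => P.beta (0 + (k : ℕ)) (U (0 + (k : ℕ))) := by
    funext i
    rw [Nat.zero_add, h i]
  rw [h1]

def Prog.alpha (P : Prog n w) (p : ℕ) (b : Bool) : MM w := P.beta p (some b)
def Prog.kappa (P : Prog n w) (p : ℕ) : MM w := P.beta p none
def Prog.psi (P : Prog n w) (m : MM w) : Prop := P.acc (m.unop P.start) = true

lemma Prog.accepts_iff (P : Prog n w) (u : Fin n → Option Bool) (U : ℕ → Option Bool)
    (h : ∀ i : Fin n, U i = u i) :
    P.Accepts u ↔ P.psi (PF (fun p => P.beta p (U p)) 0 n) := by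
  unfold Prog.Accepts Prog.psi
  rw [P.run_eq u U h]

/-! ### Covering -/

/-- gluing of words in disjoint gaps -/
lemma glue {M : Type} [Monoid M] (α : ℕ → Bool → M) (st ln : ℕ → ℕ) (z : ℕ → M) (d : ℕ)
    (hst : ∀ i < d, st i + ln i ≤ st (i + 1)) (hz : ∀ i ≤ d, z i ∈ Seg α (st i) (ln i)) :
    ∃ X : ℕ → Bool, ∀ i ≤ d, z i = PF (fun p => α p (X p)) (st i) (ln i) := by
  have key : ∀ k ≤ d, ∃ X : ℕ → Bool, ∀ i ≤ k, z i = PF (fun p => α p (X p)) (st i) (ln i) := by
    intro k
    induction k with
    | zero =>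
      intro _
      obtain ⟨X, hX⟩ := mem_seg_iff.1 (hz 0 (Nat.zero_le _))
      exact ⟨X, fun i hi => by rw [Nat.le_zero.1 hi]; exact hX⟩
    | succ k ih =>
      intro hk
      obtain ⟨X, hX⟩ := ih (by omega)
      obtain ⟨Y, hY⟩ := mem_seg_iff.1 (hz (k + 1) hk)
      refine ⟨fun p => if p < st (k + 1) then X p else Y p, fun i hi => ?_⟩
      rcases Nat.lt_or_ge i (k + 1) with h | h
      · rw [hX i (by omega)]
        refine PF_congr fun p h1 h2 => ?_
        have hmono : ∀ j, i ≤ j → j ≤ k → st i + ln i ≤ st (j + 1) := by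
          intro j hij
          induction j, hij using Nat.le_induction with
          | base => intro hik; exact hst i (by omega)
          | succ j hij ih2 =>
            intro hjk
            have h3 := ih2 (by omega)
            have h4 := hst (j + 1) (by omega)
            omega
        have h5 := hmono k (by omega) le_rfl
        simp only [if_pos (show p < st (k + 1) by omega)]
      · have : i = k + 1 := by omega
        subst this
        rw [hY]
        refine PF_congr fun p h1 h2 => ?_
        simp only [if_neg (show ¬ p < st (k + 1) by omega)]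
  exact key d le_rfl

theorem Prog.cov (P : Prog n w) (d : ℕ) (hd : 1 ≤ d) (hP : P.Covers d) :
    Cov P.alpha P.kappa P.psi d n := by
  classical
  intro q hq hqn z hz0 hz hzd
  -- starts and lengths of the gaps
  let st : ℕ → ℕ := fun i => if i = 0 then 0 else q (i - 1) + 1
  let ln : ℕ → ℕ := fun i => if i = d then n - st d else q i - st i
  have hst0 : st 0 = 0 := rfl
  have hsts : ∀ i, st (i + 1) = q i + 1 := fun i => by simp [st]
  have hlnd : ln d = n - st d := by simp [ln]
  have hln : ∀ i < d, ln i = q i - st i := fun i hi => by simp [ln, Nat.ne_of_lt hi]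
  have hqmono : ∀ i j, i < j → j < d → q i < q j := by
    intro i j hij
    induction j, hij using Nat.le_induction with
    | base => intro h; exact hq i h
    | succ j hij ih =>
      intro h
      exact (ih (by omega)).trans (hq j h)
  have hstq : ∀ i < d, st i ≤ q i := by
    intro i hi
    rcases Nat.eq_zero_or_pos i with h | h
    · rw [h, hst0]; exact Nat.zero_le _
    · obtain ⟨k, rfl⟩ : ∃ k, i = k + 1 := ⟨i - 1, by omega⟩
      rw [hsts]
      exact hq k hi
  have hq' : ∀ i < d, q i < n := by
    intro i hi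
    rcases Nat.lt_or_ge i (d - 1) with h | h
    · exact (hqmono i (d - 1) h (by omega)).trans hqn
    · have : i = d - 1 := by omega
      rw [this]; exact hqn
  have hzseg : ∀ i ≤ d, z i ∈ Seg P.alpha (st i) (ln i) := by
    intro i hi
    rcases Nat.eq_zero_or_pos i with h | h
    · subst h
      rw [hln 0 (by omega), hst0]
      exact hz0
    · obtain ⟨k, rfl⟩ : ∃ k, i = k + 1 := ⟨i - 1, by omega⟩
      rcases Nat.lt_or_ge (k + 1) d with h2 | h2
      · rw [hln _ h2, hsts]
        have := hz k h2
        rwa [Nat.sub_sub] at this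
      · have : d = k + 1 := by omega
        subst this
        rw [hlnd, hsts]
        simp only [Nat.add_sub_cancel] at hzd
        rwa [Nat.sub_sub] at hzd
  obtain ⟨X, hX⟩ := glue P.alpha st ln z d (fun i hi => by
    rw [hln i hi, hsts]
    have := hstq i hi
    omega) hzseg
  -- the face
  let s : Fin n → Option Bool := fun p => if ∃ i < d, q i = p then none else some (X p)
  have hsdim : dim s = d := by
    unfold dim
    have h1 : (univ.filter fun p : Fin n => s p = none) =
        (Finset.range d).attach.image (fun i : {x // x ∈ Finset.range d} =>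
          (⟨q i.1, hq' i.1 (mem_range.1 i.2)⟩ : Fin n)) := by
      ext p
      simp only [mem_filter, mem_univ, true_and, mem_image, mem_attach, Subtype.exists, mem_range]
      constructor
      · intro h
        by_cases hex : ∃ i < d, q i = p
        · obtain ⟨i, hi, hip⟩ := hex
          exact ⟨i, hi, Fin.ext hip⟩
        · simp [s, hex] at h
      · rintro ⟨i, hi, rfl⟩
        have : ∃ i' < d, q i' = q i := ⟨i, hi, rfl⟩
        simp [s, this]
    rw [h1, card_image_of_injective, card_attach, card_range]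
    intro i j hij
    have hij' : q i = q j := congrArg Fin.val hij
    have hi := mem_range.1 i.2
    have hj := mem_range.1 j.2
    rcases lt_trichotomy (i : ℕ) j with h | h | h
    · have := hqmono i j h hj; omega
    · exact Subtype.ext h
    · have := hqmono j i h hi; omega
  obtain ⟨u, hu1, hus, hua⟩ := hP s hsdim
  -- extension to the natural numbers
  let U : ℕ → Option Bool := fun p => if h : p < n then u ⟨p, h⟩ else none
  have hU : ∀ i : Fin n, U i = u i := fun i => by simp [U]
  -- values outside the stars of `s`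
  have hUout : ∀ p < n, (¬ ∃ i < d, q i = p) → U p = some (X p) := by
    intro p hp hex
    have h1 := hus ⟨p, hp⟩
    have h2 : s ⟨p, hp⟩ = some (X p) := by simp [s, hex]
    rw [h2] at h1
    simp only [U, hp, dif_pos]
    exact h1 (by simp)
  -- the star of `u`
  obtain ⟨p₀, hp₀⟩ : ∃ p₀ : Fin n, (univ.filter fun i => u i = none) = {p₀} :=
    card_eq_one.1 hu1
  have hp₀n : u p₀ = none := by
    have : p₀ ∈ (univ.filter fun i => u i = none) := by rw [hp₀]; exact mem_singleton_self _
    exact (mem_filter.1 this).2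
  have hp₀u : ∀ i, u i = none → i = p₀ := fun i hi => by
    have : i ∈ (univ.filter fun i => u i = none) := mem_filter.2 ⟨mem_univ _, hi⟩
    rw [hp₀] at this
    exact mem_singleton.1 this
  obtain ⟨j, hjd, hj⟩ : ∃ j < d, q j = p₀ := by
    by_contra hex
    have h1 := hUout p₀ p₀.2 hex
    rw [hU, hp₀n] at h1
    exact absurd h1 (by simp)
  -- the gaps of `U`
  have hgap : ∀ i ≤ d, PF (fun p => P.beta p (U p)) (st i) (ln i) = z i := by
    intro i hi
    rw [hX i hi]
    refine PF_congr fun p h1 h2 => ?_
    have hpn : p < n := by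
      rcases Nat.lt_or_ge i d with h | h
      · rw [hln i h] at h2
        have := hq' i h
        omega
      · have : i = d := by omega
        subst this
        rw [hlnd] at h2
        omega
    have hex : ¬ ∃ i' < d, q i' = p := by
      rintro ⟨i', hi', rfl⟩
      rcases Nat.lt_or_ge i' i with h | h
      · -- `q i' < st i`
        obtain ⟨k, rfl⟩ : ∃ k, i = k + 1 := ⟨i - 1, by omega⟩
        rw [hsts] at h1
        rcases Nat.lt_or_ge i' k with h3 | h3
        · have := hqmono i' k h3 (by omega); omega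
        · have : i' = k := by omega
          subst this; omega
      · have hid : i < d := by omega
        rw [hln i hid] at h2
        have h4 : q i ≤ q i' := by
          rcases Nat.lt_or_ge i i' with h3 | h3
          · exact (hqmono i i' h3 hi').le
          · have : i' = i := by omega
            rw [this]
        have := hstq i hid
        omega
    show P.beta p (U p) = P.beta p (some (X p))
    rw [hUout p hpn hex]
  -- the whole product
  have hall : ∀ k j, j + k = d →
      PF (fun p => P.beta p (U p)) (st j) (n - st j) =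
        suf z (fun i => P.beta (q i) (U (q i))) j k := by
    intro k
    induction k with
    | zero =>
      intro j hjd'
      have : j = d := by omega
      subst this
      show _ = z j
      rw [← hlnd]
      exact hgap j le_rfl
    | succ k ih =>
      intro j hjd'
      have hjd2 : j < d := by omega
      have h1 := hstq j hjd2
      have h2 := hq' j hjd2
      have e : n - st j = (q j - st j) + (1 + (n - (q j + 1))) := by omega
      rw [e, PF_add, PF_add]
      have e2 : st j + (q j - st j) = q j := by omega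
      rw [e2]
      show _ = z j * P.beta (q j) (U (q j)) * suf z _ (j + 1) k
      have h3 := ih (j + 1) (by omega)
      rw [hsts] at h3
      rw [h3]
      have h4 := hgap j hjd2.le
      rw [hln j hjd2] at h4
      rw [h4]
      show z j * (P.beta (q j) (U (q j)) * 1 * _) = _
      rw [mul_one, mul_assoc]
  have hfull : PF (fun p => P.beta p (U p)) 0 n =
      pre z (fun i => P.beta (q i) (U (q i))) j * P.beta (q j) (U (q j)) *
        suf z (fun i => P.beta (q i) (U (q i))) (j + 1) (d - 1 - j) := by
    have h1 := hall d 0 (by omega)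
    rw [hst0, Nat.sub_zero] at h1
    rw [h1, pre_suf]
    congr 1
    omega
  refine ⟨j, hjd, fun i => (U (q i)).getD false, ?_⟩
  have hbits : ∀ i, i < d → i ≠ j → P.beta (q i) (U (q i)) =
      P.alpha (q i) ((U (q i)).getD false) := by
    intro i hi hij
    unfold Prog.alpha
    congr 1
    have h1 : U (q i) ≠ none := by
      intro h2
      have h3 : U (q i) = u ⟨q i, hq' i hi⟩ := by simp [U, hq' i hi]
      rw [h3] at h2
      have h4 := hp₀u _ h2
      have h5 : q i = q j := by rw [hj, ← h4]
      rcases lt_trichotomy i j with h | h | h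
      · have := hqmono i j h hjd; omega
      · exact hij h
      · have := hqmono j i h hi; omega
    rcases h6 : U (q i) with _ | b
    · exact absurd h6 h1
    · rfl
  have hacc := (P.accepts_iff u U hU).1 hua
  rw [hfull] at hacc
  have hUj : U (q j) = none := by
    rw [hj, hU]; exact hp₀n
  have e1 : pre z (fun i => P.beta (q i) (U (q i))) j =
      pre z (fun i => P.alpha (q i) ((U (q i)).getD false)) j :=
    pre_congr fun i hi => hbits i (by omega) (by omega)
  have e2 : suf z (fun i => P.beta (q i) (U (q i))) (j + 1) (d - 1 - j) =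
      suf z (fun i => P.alpha (q i) ((U (q i)).getD false)) (j + 1) (d - 1 - j) := by
    have key : ∀ k i, j + 1 ≤ i → i + k ≤ d → suf z (fun i => P.beta (q i) (U (q i))) i k =
        suf z (fun i => P.alpha (q i) ((U (q i)).getD false)) i k := by
      intro k
      induction k with
      | zero => intros; rfl
      | succ k ih =>
        intro i hi hik
        show z i * P.beta (q i) (U (q i)) * suf z _ (i + 1) k =
          z i * P.alpha (q i) ((U (q i)).getD false) * suf z _ (i + 1) k
        rw [hbits i (by omega) (by omega), ih (i + 1) (by omega) (by omega)]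
    exact key _ _ le_rfl (by omega)
  rw [e1, e2, hUj] at hacc
  exact hacc

/-! ### Counting -/

theorem Prog.count (P : Prog n w) (q : Fin n) :
    (P.sizeAt q : ℝ) = dens P.alpha P.kappa P.psi n q * 2 ^ (n - 1) := by
  classical
  have hn : 0 < n := q.pos
  -- modified letters
  let α' : ℕ → Bool → MM w := fun p b => if p = q then P.kappa p else P.alpha p b
  have hd : dens P.alpha P.kappa P.psi n q = E α' 0 n (fun v => if P.psi v then 1 else 0) := by
    have e : E α' 0 n (fun v => if P.psi v then (1 : ℝ) else 0) =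
        E α' 0 ((q : ℕ) + (1 + (n - q - 1))) (fun v => if P.psi v then (1 : ℝ) else 0) := by
      congr 1
      have := q.2
      omega
    rw [e, E_split]
    unfold dens
    rw [E_congr_letters (α := P.alpha) (α' := α') _ (fun p _ h2 => by
      funext b
      have : p ≠ q := by omega
      simp [α', this])]
    congr 1
    funext X
    rw [E_split, E_succ, E_zero, E_zero]
    have hq1 : ∀ b, α' (0 + (q : ℕ)) b = P.kappa q := fun b => by simp [α']
    rw [hq1, hq1, mul_one, add_self_div_two]
    have e2 : 0 + (q : ℕ) + 1 = q + 1 := by ring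
    rw [e2, E_congr_letters (α := P.alpha) (α' := α') _ (fun p h1 _ => by
      funext b
      have : p ≠ q := by omega
      simp [α', this])]
    simp only [mul_assoc]
  have h2 : dens P.alpha P.kappa P.psi n q * 2 ^ n = 2 * (P.sizeAt q : ℝ) := by
    rw [hd, E_eq_sum_fn]
    -- the word of `x`
    let uu : (Fin n → Bool) → (Fin n → Option Bool) := fun x i => if i = q then none else some (x i)
    have hval : ∀ x : Fin n → Bool, P.psi (val α' 0 (List.ofFn x)) ↔ P.Accepts (uu x) := by
      intro x
      let X : ℕ → Bool := fun p => if h : p < n then x ⟨p, h⟩ else false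
      have hX : ∀ k : Fin n, X (0 + k) = x k := fun k => by simp [X]
      rw [val_ofFn α' n 0 x X hX]
      let U : ℕ → Option Bool := fun p => if p = q then none else some (X p)
      rw [P.accepts_iff (uu x) U (fun i => by
        by_cases h : i = q
        · simp [U, uu, h]
        · have : (i : ℕ) ≠ q := fun h' => h (Fin.ext h')
          simp [U, uu, h, this, X])]
      have : (fun p => α' p (X p)) = fun p => P.beta p (U p) := by
        funext p
        by_cases h : p = q
        · simp [α', U, h, Prog.kappa]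
        · simp [α', U, h, Prog.alpha]
      rw [this]
    simp_rw [hval]
    rw [← sum_filter, sum_const, nsmul_eq_mul, mul_one]
    -- two words `x` for each `u`
    have h3 : (univ.filter fun x : Fin n → Bool => P.Accepts (uu x)).card = 2 * P.sizeAt q := by
      unfold Prog.sizeAt
      have hmaps : ∀ x ∈ (univ.filter fun x : Fin n → Bool => P.Accepts (uu x)),
          uu x ∈ (univ.filter fun u => dim u = 1 ∧ u q = none ∧ P.Accepts u) := by
        intro x hx
        rw [mem_filter] at hx ⊢
        refine ⟨mem_univ _, ?_, by simp [uu], hx.2⟩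
        unfold dim
        rw [card_eq_one]
        refine ⟨q, ?_⟩
        ext i
        by_cases h : i = q <;> simp [uu, h]
      rw [card_eq_sum_card_fiberwise hmaps]
      have hfib : ∀ u ∈ (univ.filter fun u => dim u = 1 ∧ u q = none ∧ P.Accepts u),
          ((univ.filter fun x : Fin n → Bool => P.Accepts (uu x)).filter
            (fun x => uu x = u)).card = 2 := by
        intro u hu
        rw [mem_filter] at hu
        obtain ⟨-, hu1, huq, hua⟩ := hu
        have hone : ∀ i, i ≠ q → u i ≠ none := by
          intro i hi hin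
          obtain ⟨p₀, hp₀⟩ := card_eq_one.1 hu1
          have h4 : i ∈ (univ.filter fun i => u i = none) := mem_filter.2 ⟨mem_univ _, hin⟩
          have h5 : q ∈ (univ.filter fun i => u i = none) := mem_filter.2 ⟨mem_univ _, huq⟩
          rw [hp₀, mem_singleton] at h4 h5
          exact hi (h4.trans h5.symm)
        let x₀ : Bool → Fin n → Bool := fun b i => if i = q then b else (u i).getD false
        have hx₀ : ∀ b, uu (x₀ b) = u := by
          intro b
          funext i
          by_cases h : i = q
          · simp [uu, h, huq]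
          · simp only [uu, x₀, h, if_false]
            rcases h6 : u i with _ | c
            · exact absurd h6 (hone i h)
            · rfl
        have : ((univ.filter fun x : Fin n → Bool => P.Accepts (uu x)).filter
            (fun x => uu x = u)) = {x₀ false, x₀ true} := by
          ext x
          simp only [mem_filter, mem_univ, true_and, mem_insert, mem_singleton]
          constructor
          · rintro ⟨-, hx⟩
            have h7 : x = x₀ (x q) := by
              funext i
              by_cases h : i = q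
              · simp [x₀, h]
              · have h8 := congrFun hx i
                simp only [uu, h, if_false] at h8
                simp [x₀, h, ← h8]
            rcases hb : x q with _ | _
            · left; rw [h7, hb]
            · right; rw [h7, hb]
          · rintro (rfl | rfl)
            · exact ⟨by rw [hx₀]; exact hua, hx₀ _⟩
            · exact ⟨by rw [hx₀]; exact hua, hx₀ _⟩
        rw [this, card_pair]
        intro h
        have := congrFun h q
        simp [x₀] at this
      rw [sum_congr rfl hfib, sum_const, smul_eq_mul, mul_comm]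
    rw [h3]
    push_cast
    ring
  have h4 : (2 : ℝ) ^ n = 2 * 2 ^ (n - 1) := by
    rw [← pow_succ']
    congr 1
    omega
  rw [h4] at h2
  linarith

end prog

theorem specProg : SpecProg := by
  intro w
  have hfin : Finite (MM w) := by
    have : Finite (Function.End (Fin w)) := inferInstanceAs (Finite (Fin w → Fin w))
    exact Finite.of_injective MulOpposite.unop MulOpposite.unop_injective
  refine ⟨MM w, inferInstance, hfin, fun n P => ⟨P.alpha, P.kappa, P.psi, ?_, ?_⟩⟩
  · exact fun d hd hP => P.cov d hd hP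
  · exact fun q => P.count q

end Pool.Agent.Lib.MP_53850c_co.BW
end

section
/-!
# The monoid of a read-once program of bounded width: vertices
-/
set_option autoImplicit false

namespace Pool.Agent.Lib.MP_53850c_co.BW

open Finset

variable {n w : ℕ}

/-- the extension of a word to all natural numbers -/
def ext (u : Fin n → Option Bool) (p : ℕ) : Option Bool := if h : p < n then u ⟨p, h⟩ else none

/-- The face with stars `q 0, ..., q (d-1)` and gap values `z`. -/
theorem Prog.face (P : Prog n w) (d : ℕ) (hd : 1 ≤ d) (q : ℕ → ℕ)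
    (hq : ∀ i, i + 1 < d → q i < q (i + 1)) (hqn : q (d - 1) < n) (z : ℕ → MM w)
    (hz0 : z 0 ∈ Seg P.alpha 0 (q 0))
    (hz : ∀ i, i + 1 < d → z (i + 1) ∈ Seg P.alpha (q i + 1) (q (i + 1) - q i - 1))
    (hzd : z d ∈ Seg P.alpha (q (d - 1) + 1) (n - q (d - 1) - 1)) :
    ∃ s : Fin n → Option Bool, dim s = d ∧ (∀ i < d, q i < n) ∧
      (∀ i j, i < j → j < d → q i < q j) ∧ ∀ u, Sub u s →
      ((P.Accepts u ↔ P.psi (suf z (fun i => P.beta (q i) (ext u (q i))) 0 d)) ∧
        ∀ p : Fin n, u p = none → ∃ j < d, q j = p) := by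
  classical
  -- starts and lengths of the gaps
  let st : ℕ → ℕ := fun i => if i = 0 then 0 else q (i - 1) + 1
  let ln : ℕ → ℕ := fun i => if i = d then n - st d else q i - st i
  have hst0 : st 0 = 0 := rfl
  have hsts : ∀ i, st (i + 1) = q i + 1 := fun i => by simp [st]
  have hlnd : ln d = n - st d := by simp [ln]
  have hln : ∀ i < d, ln i = q i - st i := fun i hi => by simp [ln, Nat.ne_of_lt hi]
  have hqmono : ∀ i j, i < j → j < d → q i < q j := by
    intro i j hij
    induction j, hij using Nat.le_induction with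
    | base => intro h; exact hq i h
    | succ j hij ih =>
      intro h
      exact (ih (by omega)).trans (hq j h)
  have hstq : ∀ i < d, st i ≤ q i := by
    intro i hi
    rcases Nat.eq_zero_or_pos i with h | h
    · rw [h, hst0]; exact Nat.zero_le _
    · obtain ⟨k, rfl⟩ : ∃ k, i = k + 1 := ⟨i - 1, by omega⟩
      rw [hsts]
      exact hq k hi
  have hq' : ∀ i < d, q i < n := by
    intro i hi
    rcases Nat.lt_or_ge i (d - 1) with h | h
    · exact (hqmono i (d - 1) h (by omega)).trans hqn
    · have : i = d - 1 := by omega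
      rw [this]; exact hqn
  have hzseg : ∀ i ≤ d, z i ∈ Seg P.alpha (st i) (ln i) := by
    intro i hi
    rcases Nat.eq_zero_or_pos i with h | h
    · subst h
      rw [hln 0 (by omega), hst0]
      exact hz0
    · obtain ⟨k, rfl⟩ : ∃ k, i = k + 1 := ⟨i - 1, by omega⟩
      rcases Nat.lt_or_ge (k + 1) d with h2 | h2
      · rw [hln _ h2, hsts]
        have := hz k h2
        rwa [Nat.sub_sub] at this
      · have : d = k + 1 := by omega
        subst this
        rw [hlnd, hsts]
        simp only [Nat.add_sub_cancel] at hzd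
        rwa [Nat.sub_sub] at hzd
  obtain ⟨X, hX⟩ := glue P.alpha st ln z d (fun i hi => by
    rw [hln i hi, hsts]
    have := hstq i hi
    omega) hzseg
  -- the face
  let s : Fin n → Option Bool := fun p => if ∃ i < d, q i = p then none else some (X p)
  have hsdim : dim s = d := by
    unfold dim
    have h1 : (univ.filter fun p : Fin n => s p = none) =
        (Finset.range d).attach.image (fun i : {x // x ∈ Finset.range d} =>
          (⟨q i.1, hq' i.1 (mem_range.1 i.2)⟩ : Fin n)) := by
      ext p
      simp only [mem_filter, mem_univ, true_and, mem_image, mem_attach, Subtype.exists, mem_range]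
      constructor
      · intro h
        by_cases hex : ∃ i < d, q i = p
        · obtain ⟨i, hi, hip⟩ := hex
          exact ⟨i, hi, Fin.ext hip⟩
        · simp [s, hex] at h
      · rintro ⟨i, hi, rfl⟩
        have : ∃ i' < d, q i' = q i := ⟨i, hi, rfl⟩
        simp [s, this]
    rw [h1, card_image_of_injective, card_attach, card_range]
    intro i j hij
    have hij' : q i = q j := congrArg Fin.val hij
    have hi := mem_range.1 i.2
    have hj := mem_range.1 j.2
    rcases lt_trichotomy (i : ℕ) j with h | h | h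
    · have := hqmono i j h hj; omega
    · exact Subtype.ext h
    · have := hqmono j i h hi; omega
  refine ⟨s, hsdim, hq', hqmono, fun u hus => ?_⟩
  -- extension to the natural numbers
  have hU : ∀ i : Fin n, ext u i = u i := fun i => by simp [ext]
  -- values outside the stars of `s`
  have hUout : ∀ p < n, (¬ ∃ i < d, q i = p) → ext u p = some (X p) := by
    intro p hp hex
    have h1 := hus ⟨p, hp⟩
    have h2 : s ⟨p, hp⟩ = some (X p) := by simp [s, hex]
    rw [h2] at h1
    simp only [ext, hp, dif_pos]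
    exact h1 (by simp)
  constructor
  · rw [P.accepts_iff u (ext u) hU]
    -- the gaps
    have hgap : ∀ i ≤ d, PF (fun p => P.beta p (ext u p)) (st i) (ln i) = z i := by
      intro i hi
      rw [hX i hi]
      refine PF_congr fun p h1 h2 => ?_
      have hpn : p < n := by
        rcases Nat.lt_or_ge i d with h | h
        · rw [hln i h] at h2
          have := hq' i h
          omega
        · have : i = d := by omega
          subst this
          rw [hlnd] at h2
          omega
      have hex : ¬ ∃ i' < d, q i' = p := by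
        rintro ⟨i', hi', rfl⟩
        rcases Nat.lt_or_ge i' i with h | h
        · obtain ⟨k, rfl⟩ : ∃ k, i = k + 1 := ⟨i - 1, by omega⟩
          rw [hsts] at h1
          rcases Nat.lt_or_ge i' k with h3 | h3
          · have := hqmono i' k h3 (by omega); omega
          · have : i' = k := by omega
            subst this; omega
        · have hid : i < d := by omega
          rw [hln i hid] at h2
          have h4 : q i ≤ q i' := by
            rcases Nat.lt_or_ge i i' with h3 | h3
            · exact (hqmono i i' h3 hi').le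
            · have : i' = i := by omega
              rw [this]
          have := hstq i hid
          omega
      show P.beta p (ext u p) = P.beta p (some (X p))
      rw [hUout p hpn hex]
    -- the whole product
    have hall : ∀ k j, j + k = d →
        PF (fun p => P.beta p (ext u p)) (st j) (n - st j) =
          suf z (fun i => P.beta (q i) (ext u (q i))) j k := by
      intro k
      induction k with
      | zero =>
        intro j hjd'
        have : j = d := by omega
        subst this
        show _ = z j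
        rw [← hlnd]
        exact hgap j le_rfl
      | succ k ih =>
        intro j hjd'
        have hjd2 : j < d := by omega
        have h1 := hstq j hjd2
        have h2 := hq' j hjd2
        have e : n - st j = (q j - st j) + (1 + (n - (q j + 1))) := by omega
        rw [e, PF_add, PF_add]
        have e2 : st j + (q j - st j) = q j := by omega
        rw [e2]
        show _ = z j * P.beta (q j) (ext u (q j)) * suf z _ (j + 1) k
        have h3 := ih (j + 1) (by omega)
        rw [hsts] at h3
        rw [h3]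
        have h4 := hgap j hjd2.le
        rw [hln j hjd2] at h4
        rw [h4]
        show z j * (P.beta (q j) (ext u (q j)) * 1 * _) = _
        rw [mul_one, mul_assoc]
    have h1 := hall d 0 (by omega)
    rw [hst0, Nat.sub_zero] at h1
    rw [h1]
  · intro p hp
    by_contra hex
    have h1 := hUout p p.2 hex
    rw [hU, hp] at h1
    exact absurd h1 (by simp)

theorem Prog.cov0 (P : Prog n w) (d : ℕ) (hd : 1 ≤ d) (hP : P.CoversL d 0) :
    Cov0 P.alpha P.psi d n := by
  classical
  intro q hq hqn z hz0 hz hzd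
  obtain ⟨s, hsd, hq', -, hs⟩ := P.face d hd q hq hqn z hz0 hz hzd
  obtain ⟨u, hu0, hus, hua⟩ := hP s hsd
  have h1 := (hs u hus).1.1 hua
  refine ⟨fun i => (ext u (q i)).getD false, ?_⟩
  have h2 : suf z (fun i => P.beta (q i) (ext u (q i))) 0 d =
      pre z (fun i => P.beta (q i) (ext u (q i))) d := by
    have h3 := pre_suf z (fun i => P.beta (q i) (ext u (q i))) (d - 1) 0
    have e : d - 1 + 1 = d := by omega
    rw [Nat.add_zero, e] at h3
    rw [← h3]
    conv_rhs => rw [← e]
    show _ = pre z (fun i => P.beta (q i) (ext u (q i))) (d - 1) *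
      P.beta (q (d - 1)) (ext u (q (d - 1))) * z (d - 1 + 1)
    rw [e]
    rfl
  rw [h2] at h1
  have h4 : pre z (fun i => P.beta (q i) (ext u (q i))) d =
      pre z (fun i => P.alpha (q i) ((ext u (q i)).getD false)) d := by
    refine pre_congr fun i hi => ?_
    unfold Prog.alpha
    congr 1
    have h5 : ext u (q i) ≠ none := by
      intro h6
      unfold ext at h6
      rw [dif_pos (hq' i hi)] at h6
      have h7 : (⟨q i, hq' i hi⟩ : Fin n) ∈ (univ.filter fun i => u i = none) :=
        mem_filter.2 ⟨mem_univ _, h6⟩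
      have h8 : (univ.filter fun i => u i = none) = ∅ := card_eq_zero.1 hu0
      rw [h8] at h7
      simp at h7
    rcases h6 : ext u (q i) with _ | b
    · exact absurd h6 h5
    · rfl
  rw [h4] at h1
  exact h1

open Classical in
theorem Prog.count0 (P : Prog n w) :
    (P.sizeL 0 : ℝ) = E P.alpha 0 n (fun v => if P.psi v then 1 else 0) * 2 ^ n := by
  rw [E_eq_sum_fn]
  have hval : ∀ x : Fin n → Bool, P.psi (val P.alpha 0 (List.ofFn x)) ↔
      P.Accepts (fun i => some (x i)) := by
    intro x
    let X : ℕ → Bool := fun p => if h : p < n then x ⟨p, h⟩ else false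
    have hX : ∀ k : Fin n, X (0 + k) = x k := fun k => by simp [X]
    rw [val_ofFn P.alpha n 0 x X hX]
    rw [P.accepts_iff (fun i => some (x i)) (fun p => some (X p)) (fun i => by simp [X])]
    rfl
  simp_rw [hval]
  rw [← sum_filter, sum_const, nsmul_eq_mul, mul_one]
  congr 1
  unfold Prog.sizeL
  symm
  refine card_bij (fun x _ => fun i => some (x i)) ?_ ?_ ?_
  · intro x hx
    rw [mem_filter] at hx ⊢
    exact ⟨mem_univ _, by simp [dim], hx.2⟩
  · intro x _ y _ hxy
    funext i
    exact Option.some.inj (congrFun hxy i)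
  · intro u hu
    rw [mem_filter] at hu
    obtain ⟨-, hu0, hua⟩ := hu
    have h8 : ∀ i, u i ≠ none := by
      intro i hi
      have h7 : i ∈ (univ.filter fun i => u i = none) := mem_filter.2 ⟨mem_univ _, hi⟩
      have h9 : (univ.filter fun i => u i = none) = ∅ := card_eq_zero.1 hu0
      rw [h9] at h7
      simp at h7
    have h9 : (fun i => some ((u i).getD false)) = u := by
      funext i
      rcases h6 : u i with _ | b
      · exact absurd h6 (h8 i)
      · rfl
    refine ⟨fun i => (u i).getD false, ?_, h9⟩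
    rw [mem_filter]
    exact ⟨mem_univ _, by rw [h9]; exact hua⟩

theorem specProg0 : SpecProg0 := by
  intro w
  have hfin : Finite (MM w) := by
    have : Finite (Function.End (Fin w)) := inferInstanceAs (Finite (Fin w → Fin w))
    exact Finite.of_injective MulOpposite.unop MulOpposite.unop_injective
  refine ⟨MM w, inferInstance, hfin, fun n P => ⟨P.alpha, P.psi, ?_, ?_⟩⟩
  · exact fun d hd hP => P.cov0 d hd hP
  · exact P.count0

end Pool.Agent.Lib.MP_53850c_co.BW
end

section
/-!
# Ramsey's theorem for pairs and finitely many colours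
-/
set_option autoImplicit false

namespace Pool.Agent.Lib.MP_53850c_co.BW

open Finset

/-- pigeonhole: a large finite set has a large subset on which `g` is constant -/
lemma exists_const_subset {κ : Type*} [Fintype κ] [Nonempty κ] (m : ℕ) {S : Finset ℕ}
    (hS : Fintype.card κ * m ≤ S.card) (g : ℕ → κ) :
    ∃ T ⊆ S, m ≤ T.card ∧ ∃ k, ∀ x ∈ T, g x = k := by
  classical
  rcases Nat.eq_zero_or_pos m with rfl | hm
  · exact ⟨∅, empty_subset _, Nat.zero_le _, Classical.arbitrary κ, by simp⟩
  by_contra hcon
  push Not at hcon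
  have h1 : ∀ k : κ, (S.filter (fun x => g x = k)).card < m := by
    intro k
    by_contra h2
    push Not at h2
    obtain ⟨x, hx, hxk⟩ := hcon _ (filter_subset _ _) h2 k
    exact hxk (mem_filter.mp hx).2
  have h2 : S.card = ∑ k : κ, (S.filter (fun x => g x = k)).card :=
    card_eq_sum_card_fiberwise (fun x _ => by simp)
  have h3 : ∑ k : κ, (S.filter (fun x => g x = k)).card < ∑ _k : κ, m :=
    sum_lt_sum_of_nonempty univ_nonempty (fun k _ => h1 k)
  rw [sum_const, card_univ, smul_eq_mul] at h3
  omega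

/-- End-homogeneous sets: for `k` steps there is a size `N` such that every finite set `S` of at
least `N` numbers has a subset `T` with `k` elements in which the colour of a pair depends only on
the smaller element. -/
lemma exists_endhom {κ : Type*} [Fintype κ] [Nonempty κ] (k : ℕ) :
    ∃ N : ℕ, ∀ S : Finset ℕ, N ≤ S.card → ∀ c : ℕ → ℕ → κ,
      ∃ T ⊆ S, T.card = k ∧ ∃ g : ℕ → κ, ∀ x ∈ T, ∀ y ∈ T, x < y → c x y = g x := by
  classical
  induction k with
  | zero => exact ⟨0, fun S _ c => ⟨∅, empty_subset _, rfl, fun _ => Classical.arbitrary κ, by simp⟩⟩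
  | succ k ih =>
    obtain ⟨N, hN⟩ := ih
    refine ⟨Fintype.card κ * N + 1, fun S hS c => ?_⟩
    have hne : S.Nonempty := card_pos.mp (by omega)
    set a := S.min' hne with ha
    have haS : a ∈ S := min'_mem _ _
    have h1 : Fintype.card κ * N ≤ (S.erase a).card := by
      rw [card_erase_of_mem haS]; omega
    obtain ⟨S', hS', hc', k₀, hk₀⟩ := exists_const_subset N h1 (c a)
    obtain ⟨T, hT, hTc, g, hg⟩ := hN S' hc' c
    have haT : a ∉ T := fun h => (mem_erase.mp (hS' (hT h))).1 rfl
    refine ⟨insert a T, ?_, by rw [card_insert_of_notMem haT, hTc], fun x => if x = a then k₀ else g x,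
      ?_⟩
    · refine insert_subset haS (fun x hx => ?_)
      exact mem_of_mem_erase (hS' (hT hx))
    · intro x hx y hy hxy
      rcases mem_insert.mp hx with rfl | hx
      · simp only [if_true]
        rcases mem_insert.mp hy with rfl | hy
        · exact absurd hxy (lt_irrefl _)
        · exact hk₀ y (hT hy)
      · have hxa : x ≠ a := fun h => haT (h ▸ hx)
        simp only [if_neg hxa]
        rcases mem_insert.mp hy with rfl | hy
        · exact absurd (min'_le S x (mem_of_mem_erase (hS' (hT hx)))) (not_le.mpr hxy)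
        · exact hg x hx y hy hxy

/-- **Ramsey's theorem** for pairs and finitely many colours. -/
theorem ramsey_pairs (κ : Type*) [Finite κ] (m : ℕ) :
    ∃ N : ℕ, ∀ S : Finset ℕ, N ≤ S.card → ∀ c : ℕ → ℕ → κ,
      ∃ T ⊆ S, T.card = m ∧ ∀ x ∈ T, ∀ y ∈ T, x < y →
        ∀ x' ∈ T, ∀ y' ∈ T, x' < y' → c x y = c x' y' := by
  classical
  cases nonempty_fintype κ
  rcases isEmpty_or_nonempty κ with hκ | hκ
  · refine ⟨m, fun S hS c => ?_⟩
    exact (IsEmpty.false (c 0 0)).elim
  obtain ⟨N, hN⟩ := exists_endhom (κ := κ) (Fintype.card κ * m)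
  refine ⟨N, fun S hS c => ?_⟩
  obtain ⟨T, hT, hTc, g, hg⟩ := hN S hS c
  obtain ⟨T₁, hT₁, hm, k, hk⟩ := exists_const_subset m hTc.ge g
  obtain ⟨T₂, hT₂, hc₂⟩ := exists_subset_card_eq hm
  refine ⟨T₂, (hT₂.trans hT₁).trans hT, hc₂, fun x hx y hy hxy x' hx' y' hy' hxy' => ?_⟩
  rw [hg x (hT₁ (hT₂ hx)) y (hT₁ (hT₂ hy)) hxy, hg x' (hT₁ (hT₂ hx')) y' (hT₁ (hT₂ hy')) hxy',
    hk x (hT₂ hx), hk x' (hT₂ hx')]

/-- Ramsey with an increasing enumeration: the chosen elements are `h 0 < h 1 < ... < h (m-1)`. -/
theorem ramsey_enum (κ : Type*) [Finite κ] (m : ℕ) :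
    ∃ N : ℕ, ∀ S : Finset ℕ, N ≤ S.card → ∀ c : ℕ → ℕ → κ,
      ∃ h : Fin m → ℕ, StrictMono h ∧ (∀ i, h i ∈ S) ∧
        ∀ i j i' j', i < j → i' < j' → c (h i) (h j) = c (h i') (h j') := by
  classical
  obtain ⟨N, hN⟩ := ramsey_pairs κ m
  refine ⟨N, fun S hS c => ?_⟩
  obtain ⟨T, hT, hTc, hh⟩ := hN S hS c
  refine ⟨T.orderEmbOfFin hTc, (T.orderEmbOfFin hTc).strictMono, fun i => hT (orderEmbOfFin_mem _ _ _),
    fun i j i' j' hij hij' => ?_⟩
  exact hh _ (orderEmbOfFin_mem _ _ _) _ (orderEmbOfFin_mem _ _ _)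
    ((T.orderEmbOfFin hTc).strictMono hij) _ (orderEmbOfFin_mem _ _ _) _ (orderEmbOfFin_mem _ _ _)
    ((T.orderEmbOfFin hTc).strictMono hij')

/-- Ramsey with vertex colours: all chosen elements but the last have the same vertex colour. With
`m + 1` in place of `m` one may drop the last one; here it is done. -/
theorem ramsey_col (κ ι : Type*) [Finite κ] [Finite ι] (m : ℕ) :
    ∃ N : ℕ, ∀ S : Finset ℕ, N ≤ S.card → ∀ (v : ℕ → ι) (c : ℕ → ℕ → κ),
      ∃ h : Fin m → ℕ, StrictMono h ∧ (∀ i, h i ∈ S) ∧ (∀ i j, v (h i) = v (h j)) ∧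
        ∀ i j i' j', i < j → i' < j' → c (h i) (h j) = c (h i') (h j') := by
  classical
  obtain ⟨N, hN⟩ := ramsey_enum (ι × κ) (m + 1)
  refine ⟨N, fun S hS v c => ?_⟩
  obtain ⟨h, hm, hS', hh⟩ := hN S hS (fun x y => (v x, c x y))
  refine ⟨fun i => h i.castSucc, fun i j hij => hm (Fin.castSucc_lt_castSucc_iff.mpr hij),
    fun i => hS' _, fun i j => ?_, fun i j i' j' hij hij' => ?_⟩
  · have h1 := hh i.castSucc (Fin.last m) j.castSucc (Fin.last m) (Fin.castSucc_lt_last i)
      (Fin.castSucc_lt_last j)
    exact congrArg Prod.fst h1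
  · have h1 := hh i.castSucc j.castSucc i'.castSucc j'.castSucc (Fin.castSucc_lt_castSucc_iff.mpr hij)
      (Fin.castSucc_lt_castSucc_iff.mpr hij')
    exact congrArg Prod.snd h1

theorem specRamsey : SpecRamsey := by
  classical
  intro K _ m
  cases nonempty_fintype K
  obtain ⟨N, hN⟩ := ramsey_enum K (m + 2)
  refine ⟨N, fun c S hS => ?_⟩
  obtain ⟨h, hmono, hmem, hh⟩ := hN S hS c
  obtain ⟨h', he⟩ : ∃ h' : ℕ → ℕ, ∀ s (hs : s < m + 2), h' s = h ⟨s, hs⟩ :=
    ⟨fun s => if hs : s < m + 2 then h ⟨s, hs⟩ else 0, fun s hs => dif_pos hs⟩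
  have hlt : ∀ s t (hs : s < m + 2) (ht : t < m + 2), s < t → (⟨s, hs⟩ : Fin (m + 2)) < ⟨t, ht⟩ :=
    fun s t hs ht hst => by simpa [Fin.lt_def] using hst
  refine ⟨h', c (h ⟨0, by omega⟩) (h ⟨1, by omega⟩), fun s hs => ?_, fun s t hst ht => ?_,
    fun s t hst ht => ?_⟩
  · rw [he s (by omega)]
    exact hmem _
  · rw [he s (by omega), he t (by omega)]
    exact hmono (hlt _ _ _ _ hst)
  · rw [he s (by omega), he t (by omega)]
    exact hh _ _ _ _ (hlt _ _ _ _ hst) (hlt 0 1 _ _ one_pos)

end Pool.Agent.Lib.MP_53850c_co.BW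
end

section
/-!
# The one-sided lemmas LEFT and RIGHT
-/
namespace Pool.Agent.Lib.MP_53850c_co.BW

open Finset

namespace Side

variable {M : Type} [Monoid M] {α : ℕ → Bool → M}

lemma val_append (i : ℕ) (x y : List Bool) :
    val α i (x ++ y) = val α i x * val α (i + x.length) y := by
  induction x generalizing i with
  | nil => simp [val]
  | cons b t ih =>
    rw [List.cons_append, val, val, ih, mul_assoc, List.length_cons]
    congr 3
    omega

lemma seg_mul {i l k : ℕ} {u v : M} (hu : u ∈ Seg α i l) (hv : v ∈ Seg α (i + l) k) :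
    u * v ∈ Seg α i (l + k) := by
  obtain ⟨x, hx, rfl⟩ := hu
  obtain ⟨y, hy, rfl⟩ := hv
  refine ⟨x ++ y, by rw [List.length_append, hx, hy], ?_⟩
  rw [val_append, hx]

lemma seg_letter (i : ℕ) (b : Bool) : α i b ∈ Seg α i 1 := ⟨[b], rfl, by simp [val]⟩

lemma one_mem_seg (i : ℕ) : (1 : M) ∈ Seg α i 0 := ⟨[], rfl, by simp [val]⟩

lemma seg_cons {i l : ℕ} {v : M} (b : Bool) (hv : v ∈ Seg α (i + 1) l) :
    α i b * v ∈ Seg α i (l + 1) := by
  obtain ⟨x, hx, rfl⟩ := hv
  exact ⟨b :: x, by rw [List.length_cons, hx], by rw [val]⟩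

lemma E_mono_seg {i l : ℕ} {f g : M → ℝ} (h : ∀ v ∈ Seg α i l, f v ≤ g v) :
    E α i l f ≤ E α i l g := by
  induction l generalizing i f g with
  | zero => exact h 1 (one_mem_seg i)
  | succ l ih =>
    rw [E, E]
    have h0 := ih (i := i + 1) (f := fun v => f (α i false * v)) (g := fun v => g (α i false * v))
      (fun v hv => h _ (seg_cons false hv))
    have h1 := ih (i := i + 1) (f := fun v => f (α i true * v)) (g := fun v => g (α i true * v))
      (fun v hv => h _ (seg_cons true hv))
    linarith

lemma E_mono {i l : ℕ} {f g : M → ℝ} (h : ∀ v, f v ≤ g v) : E α i l f ≤ E α i l g :=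
  E_mono_seg fun v _ => h v

lemma E_const (i l : ℕ) (c : ℝ) : E α i l (fun _ => c) = c := by
  induction l generalizing i with
  | zero => rfl
  | succ l ih => rw [E, ih]; ring

lemma E_add (i l : ℕ) (f g : M → ℝ) :
    E α i l (fun v => f v + g v) = E α i l f + E α i l g := by
  induction l generalizing i f g with
  | zero => rfl
  | succ l ih => rw [E, E, E, ih, ih]; ring

lemma E_smul (i l : ℕ) (c : ℝ) (f : M → ℝ) : E α i l (fun v => c * f v) = c * E α i l f := by
  induction l generalizing i f with
  | zero => rfl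
  | succ l ih => rw [E, E, ih, ih]; ring

lemma E_sum {ι : Type*} (s : Finset ι) (i l : ℕ) (f : ι → M → ℝ) :
    E α i l (fun v => ∑ j ∈ s, f j v) = ∑ j ∈ s, E α i l (f j) := by
  classical
  induction s using Finset.induction_on with
  | empty => simp [E_const]
  | insert a s ha ih =>
    simp only [sum_insert ha]
    rw [E_add, ih]

lemma E_split (i l k : ℕ) (f : M → ℝ) :
    E α i (l + k) f = E α i l (fun u => E α (i + l) k (fun v => f (u * v))) := by
  induction l generalizing i f with
  | zero => simp [E]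
  | succ l ih =>
    rw [show l + 1 + k = (l + k) + 1 by ring, E, E, ih, ih]
    simp only [mul_assoc]
    rw [show i + 1 + l = i + (l + 1) by ring]

lemma E_nonneg {i l : ℕ} {f : M → ℝ} (h : ∀ v, 0 ≤ f v) : 0 ≤ E α i l f := by
  have := E_mono (α := α) (i := i) (l := l) (f := fun _ => (0 : ℝ)) (g := f) h
  rwa [E_const] at this

lemma E_comm (i l j k : ℕ) (f : M → M → ℝ) :
    E α i l (fun u => E α j k (fun v => f u v)) = E α j k (fun v => E α i l (fun u => f u v)) := by
  induction l generalizing i f with
  | zero => rfl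
  | succ l ih =>
    rw [E, ih, ih]
    have : ∀ v, E α i (l + 1) (fun u => f u v) =
        (1 / 2) * (E α (i + 1) l (fun u => f (α i false * u) v)
          + E α (i + 1) l (fun u => f (α i true * u) v)) := by
      intro v
      rw [E]; ring
    rw [show (fun v => E α i (l + 1) (fun u => f u v)) = fun v =>
        (1 / 2) * (E α (i + 1) l (fun u => f (α i false * u) v)
          + E α (i + 1) l (fun u => f (α i true * u) v)) from funext this, E_smul, E_add]
    ring

lemma E_eq_sum [Fintype M] (i l : ℕ) (f : M → ℝ) :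
    E α i l f = ∑ v, tau α i l v * f v := by
  classical
  have h1 : f = fun u => ∑ v, (if u = v then (1 : ℝ) else 0) * f v := by
    funext u
    simp
  conv_lhs => rw [h1, E_sum]
  refine sum_congr rfl fun v _ => ?_
  have : (fun u : M => (if u = v then (1 : ℝ) else 0) * f v) =
      fun u => f v * (if u = v then (1 : ℝ) else 0) := by
    funext u; ring
  rw [this, E_smul, mul_comm]
  congr 1

lemma tau_nonneg (i l : ℕ) (v : M) : 0 ≤ tau α i l v := by
  classical
  unfold tau
  exact E_nonneg fun u => by split_ifs <;> norm_num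

lemma sum_tau [Fintype M] (i l : ℕ) : ∑ v, tau α i l v = 1 := by
  have h := E_eq_sum (α := α) i l (fun _ => (1 : ℝ))
  rw [E_const] at h
  simpa using h.symm

lemma mem_seg_of_tau {i l : ℕ} {v : M} (h : 0 < tau α i l v) : v ∈ Seg α i l := by
  classical
  by_contra hv
  have : tau α i l v ≤ E α i l (fun _ => (0 : ℝ)) := by
    unfold tau
    refine E_mono_seg fun u hu => ?_
    rw [if_neg]
    rintro rfl
    exact hv hu
  rw [E_const] at this
  linarith

/-- splitting off one letter in the middle -/
lemma E_letter (i l k : ℕ) (f : M → ℝ) :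
    E α i (l + 1 + k) f = E α i l (fun u => (1 / 2) * (E α (i + l + 1) k (fun v =>
      f (u * α (i + l) false * v)) + E α (i + l + 1) k (fun v => f (u * α (i + l) true * v)))) := by
  rw [show l + 1 + k = l + (k + 1) by ring, E_split]
  congr 1
  funext u
  rw [E]
  simp only [mul_assoc]
  ring

section abstract_step

variable [Fintype M]

omit [Monoid M] in
open Classical in
/-- the part on `V` of a weighted sum -/
lemma sum_V_ge (τ x : M → ℝ) (V : Set M) (ρ w : ℝ) (h0 : ∀ v, 0 ≤ τ v) (h1 : ∑ v, τ v = 1)
    (htail : ∑ v ∈ univ.filter (fun v => v ∉ V), τ v ≤ ρ) (hx0 : ∀ v, 0 ≤ x v) (hw : 0 ≤ w)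
    (hx : ∀ v ∈ V, w ≤ x v) : (1 - ρ) * w ≤ ∑ v, τ v * x v := by
  have hs := sum_filter_add_sum_filter_not univ (fun v => v ∈ V) τ
  have hs2 := sum_filter_add_sum_filter_not univ (fun v => v ∈ V) (fun v => τ v * x v)
  have ha : (∑ v ∈ univ.filter (fun v => v ∈ V), τ v) * w ≤
      ∑ v ∈ univ.filter (fun v => v ∈ V), τ v * x v := by
    rw [sum_mul]
    exact sum_le_sum fun v hv => mul_le_mul_of_nonneg_left (hx v (mem_filter.1 hv).2) (h0 v)
  have hb : 0 ≤ ∑ v ∈ univ.filter (fun v => v ∉ V), τ v * x v :=
    sum_nonneg fun v _ => mul_nonneg (h0 v) (hx0 v)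
  have hc : 1 - ρ ≤ ∑ v ∈ univ.filter (fun v => v ∈ V), τ v := by linarith
  calc (1 - ρ) * w ≤ (∑ v ∈ univ.filter (fun v => v ∈ V), τ v) * w :=
        mul_le_mul_of_nonneg_right hc hw
    _ ≤ ∑ v ∈ univ.filter (fun v => v ∈ V), τ v * x v := ha
    _ ≤ ∑ v, τ v * x v := by linarith

omit [Monoid M] in
open Classical in
lemma step_ineq (τ x : M → ℝ) (V G : Set M) (δ ρ w lam : ℝ) (h0 : ∀ v, 0 ≤ τ v)
    (h1 : ∑ v, τ v = 1) (hGV : G ⊆ V) (hlow : ∀ v ∈ V, δ ≤ τ v) (hδ : 0 ≤ δ)
    (htail : ∑ v ∈ univ.filter (fun v => v ∉ V), τ v ≤ ρ) (hx0 : ∀ v, 0 ≤ x v) (hw : 0 ≤ w)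
    (hx : ∀ v ∈ V, w ≤ x v)
    (hxG : (G.ncard : ℝ) * lam ≤ ∑ g ∈ univ.filter (fun g => g ∈ G), x g) :
    δ * G.ncard * lam + (1 - ρ - δ * G.ncard) * w ≤ ∑ v, τ v * x v := by
  set τ' : M → ℝ := fun v => if v ∈ G then τ v - δ else τ v with hτ'
  have hGc : G.ncard = (univ.filter (fun g => g ∈ G)).card := by
    rw [← Set.ncard_coe_finset]; congr 1; ext g; simp
  have e1 : ∑ v, τ v * x v = ∑ v, τ' v * x v + δ * ∑ g ∈ univ.filter (fun g => g ∈ G), x g := by
    rw [sum_filter, mul_sum, ← sum_add_distrib]
    refine sum_congr rfl fun v _ => ?_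
    simp only [hτ']
    split_ifs <;> ring
  have hs := sum_filter_add_sum_filter_not univ (fun v => v ∈ V) τ
  have e2 : ∑ v ∈ univ.filter (fun v => v ∈ V), τ' v =
      ∑ v ∈ univ.filter (fun v => v ∈ V), τ v - δ * G.ncard := by
    have : ∀ v, τ' v = τ v - if v ∈ G then δ else 0 := by
      intro v
      simp only [hτ']
      split_ifs <;> ring
    rw [sum_congr rfl fun v _ => this v, sum_sub_distrib, ← sum_filter]
    congr 1
    rw [sum_const, filter_filter, nsmul_eq_mul, mul_comm, hGc]
    congr 3
    ext v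
    simp only [mem_filter, mem_univ, true_and]
    exact ⟨fun h => h.2, fun h => ⟨hGV h, h⟩⟩
  have h0' : ∀ v, 0 ≤ τ' v := by
    intro v
    simp only [hτ']
    split_ifs with h
    · have := hlow v (hGV h); linarith
    · exact h0 v
  have ha : (∑ v ∈ univ.filter (fun v => v ∈ V), τ' v) * w ≤
      ∑ v ∈ univ.filter (fun v => v ∈ V), τ' v * x v := by
    rw [sum_mul]
    exact sum_le_sum fun v hv => mul_le_mul_of_nonneg_left (hx v (mem_filter.1 hv).2) (h0' v)
  have hs2 := sum_filter_add_sum_filter_not univ (fun v => v ∈ V) (fun v => τ' v * x v)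
  have hb : 0 ≤ ∑ v ∈ univ.filter (fun v => v ∉ V), τ' v * x v :=
    sum_nonneg fun v _ => mul_nonneg (h0' v) (hx0 v)
  have hd : (1 - ρ - δ * G.ncard) * w ≤ (∑ v ∈ univ.filter (fun v => v ∈ V), τ' v) * w := by
    refine mul_le_mul_of_nonneg_right ?_ hw
    rw [e2]
    linarith
  have he : δ * (G.ncard * lam) ≤ δ * ∑ g ∈ univ.filter (fun g => g ∈ G), x g :=
    mul_le_mul_of_nonneg_left hxG hδ
  rw [e1]
  nlinarith

/-- the recursion of the weights -/
lemma weight_step (ε δ η lam : ℝ) (t : ℕ) (hε : 0 < ε) (hε1 : ε ≤ 1) (hδη : δ ≤ η) (hη0 : 0 ≤ η)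
    (hη1 : η ≤ 1) (hlam : 0 ≤ lam) :
    (1 - ε) * (1 - (1 - η) ^ (t + 1)) * lam ≤
      η * lam + (1 - ε * δ - η) * ((1 - ε) * (1 - (1 - η) ^ t) * lam) := by
  have hq0 : 0 ≤ 1 - η := by linarith
  have hq1 : (1 - η) ^ t ≤ 1 := pow_le_one₀ hq0 (by linarith)
  have hq2 : 0 ≤ (1 - η) ^ t := pow_nonneg hq0 t
  set q := (1 - η) ^ t with hq
  set W := (1 - ε) * (1 - q) with hW
  have hW0 : 0 ≤ W := mul_nonneg (by linarith) (by linarith)
  have hW1 : W ≤ 1 := by
    rw [hW]
    have h1 : (1 - ε) * (1 - q) ≤ 1 * 1 :=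
      mul_le_mul (by linarith) (by linarith) (by linarith) (by norm_num)
    linarith
  have e1 : (1 - ε) * (1 - (1 - η) ^ (t + 1)) = η + (1 - ε * η - η) * W - ε * η * (1 - W) := by
    rw [pow_succ, ← hq, hW]; ring
  have h2 : 0 ≤ ε * η * (1 - W) := mul_nonneg (mul_nonneg hε.le hη0) (by linarith)
  have h3 : (1 - ε * η - η) * W ≤ (1 - ε * δ - η) * W := by
    refine mul_le_mul_of_nonneg_right ?_ hW0
    have := mul_le_mul_of_nonneg_left hδη hε.le
    linarith
  have h4 : (1 - ε) * (1 - (1 - η) ^ (t + 1)) ≤ η + (1 - ε * δ - η) * W := by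
    rw [e1]; linarith
  calc (1 - ε) * (1 - (1 - η) ^ (t + 1)) * lam ≤ (η + (1 - ε * δ - η) * W) * lam :=
        mul_le_mul_of_nonneg_right h4 hlam
    _ = _ := by ring

end abstract_step

/-! ### LEFT -/

section left

variable [Fintype M] {κ : ℕ → M} {h : ℕ → ℕ} {m : ℕ} {A : Bool → M} {C : M} {V : Set M} {δ ρ : ℝ}

lemma tau_total (hH : Hom α κ h m A C V δ ρ) {s t : ℕ} (hst : s < t) (ht : t < m) {G : Set M}
    (hGV : G ⊆ V) : δ * G.ncard ≤ 1 := by
  classical
  have hGc : G.ncard = (univ.filter (fun g => g ∈ G)).card := by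
    rw [← Set.ncard_coe_finset]; congr 1; ext g; simp
  calc δ * G.ncard = ∑ g ∈ univ.filter (fun g => g ∈ G), δ := by
        rw [sum_const, nsmul_eq_mul, mul_comm, hGc]
    _ ≤ ∑ g ∈ univ.filter (fun g => g ∈ G), tau α (h s + 1) (h t - h s - 1) g :=
        sum_le_sum fun g hg => hH.low s t hst ht g (hGV (mem_filter.1 hg).2)
    _ ≤ ∑ g, tau α (h s + 1) (h t - h s - 1) g :=
        sum_le_sum_of_subset_of_nonneg (filter_subset _ _) fun g _ _ => tau_nonneg _ _ _
    _ = 1 := sum_tau _ _

/-- splitting a prefix at `h s` -/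
lemma left_gap (hH : Hom α κ h m A C V δ ρ) {s t : ℕ} (hst : s < t) (ht : t < m) (F : M → ℝ) :
    E α 0 (h t) F = ∑ v, tau α (h s + 1) (h t - h s - 1) v *
      ((1 / 2) * (E α 0 (h s) (fun X => F (X * A false * v)) +
        E α 0 (h s) (fun X => F (X * A true * v)))) := by
  have hlt := hH.mono s t hst ht
  have hs : α (h s) = A := hH.letter s (hst.trans ht)
  have e0 : h t = h s + 1 + (h t - h s - 1) := by omega
  have h1 : E α 0 (h t) F = E α 0 (h s + 1 + (h t - h s - 1)) F := by rw [← e0]
  rw [h1, E_letter]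
  simp only [zero_add, hs]
  have h2 : ∀ b X, E α (h s + 1) (h t - h s - 1) (fun v => F (X * A b * v)) =
      ∑ v, tau α (h s + 1) (h t - h s - 1) v * F (X * A b * v) := fun b X => E_eq_sum _ _ _
  have h3 : (fun u => (1 / 2 : ℝ) * (E α (h s + 1) (h t - h s - 1) (fun v => F (u * A false * v)) +
      E α (h s + 1) (h t - h s - 1) (fun v => F (u * A true * v)))) =
      fun u => ∑ v, tau α (h s + 1) (h t - h s - 1) v *
        ((1 / 2) * (F (u * A false * v) + F (u * A true * v))) := by
    funext u
    rw [h2, h2, ← sum_add_distrib, mul_sum]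
    exact sum_congr rfl fun v _ => by ring
  rw [h3, E_sum]
  refine sum_congr rfl fun v _ => ?_
  rw [E_smul, E_smul, E_add]

open Classical in
lemma left_rec (hH : Hom α κ h m A C V δ ρ) (hδ : 0 ≤ δ) (ε : ℝ) (hε : 0 < ε) (hε1 : ε ≤ 1)
    (hρ : ρ = ε * δ) {G : Set M} (hG : G.Nonempty) (hGV : G ⊆ V) {f : M → ℝ} (hf : ∀ v, 0 ≤ f v)
    {lam : ℝ} (hlam : 0 ≤ lam) {a : ℕ} (ham : a < m)
    (hyp : ∀ t, t + 1 < a → ∀ U ∈ Seg α 0 (h t + 1), ∀ c, ∀ v ∈ V,
      (G.ncard : ℝ) * lam ≤ ∑ g ∈ univ.filter (fun g => g ∈ G), f (U * g * (A c * v))) :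
    ∀ t, t < a → ∀ c, ∀ v ∈ V, (1 - ε) * (1 - (1 - δ * G.ncard) ^ t) * lam ≤
      E α 0 (h t) (fun X => f (X * (A c * v))) := by
  have hGn : (1 : ℝ) ≤ G.ncard := by
    have : 0 < G.ncard := (Set.ncard_pos (Set.toFinite G)).2 hG
    exact_mod_cast this
  have hδη : δ ≤ δ * G.ncard := by nlinarith
  intro t
  induction t with
  | zero =>
    intro _ c v _
    simp only [pow_zero, sub_self, mul_zero, zero_mul]
    exact E_nonneg fun X => hf _
  | succ t ih =>
    intro hta c v hv
    have htm : t + 1 < m := by omega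
    have hη1 : δ * G.ncard ≤ 1 := tau_total hH (Nat.lt_succ_self t) htm hGV
    rw [left_gap hH (Nat.lt_succ_self t) htm]
    set w : ℝ := (1 - ε) * (1 - (1 - δ * G.ncard) ^ t) * lam with hw
    have hw0 : 0 ≤ w := by
      have hq0 : 0 ≤ 1 - δ * (G.ncard : ℝ) := by linarith
      have hq1 : (1 - δ * (G.ncard : ℝ)) ^ t ≤ 1 := pow_le_one₀ hq0 (by nlinarith)
      exact mul_nonneg (mul_nonneg (by linarith) (by linarith)) hlam
    have hstep := step_ineq (tau α (h t + 1) (h (t + 1) - h t - 1))
      (fun u => (1 / 2) * (E α 0 (h t) (fun X => f (X * A false * u * (A c * v))) +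
        E α 0 (h t) (fun X => f (X * A true * u * (A c * v))))) V G δ ρ w lam
      (fun u => tau_nonneg _ _ _) (sum_tau _ _) hGV
      (fun u hu => hH.low t (t + 1) (Nat.lt_succ_self t) htm u hu) hδ
      (hH.tail t (t + 1) (Nat.lt_succ_self t) htm)
      (fun u => mul_nonneg (by norm_num) (add_nonneg (E_nonneg fun X => hf _)
        (E_nonneg fun X => hf _))) hw0
      (fun u hu => by
        have h1 : ∀ b, w ≤ E α 0 (h t) (fun X => f (X * A b * u * (A c * v))) := by
          intro b
          have h2 := ih (by omega) b (u * A c * v) (hH.closed u hu v hv c)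
          simp only [mul_assoc] at h2 ⊢
          exact h2
        have h1f := h1 false
        have h1t := h1 true
        linarith)
      (by
        have h1 : ∀ b, (G.ncard : ℝ) * lam ≤ ∑ g ∈ univ.filter (fun g => g ∈ G),
            E α 0 (h t) (fun X => f (X * A b * g * (A c * v))) := by
          intro b
          rw [← E_sum]
          have h2 : (G.ncard : ℝ) * lam = E α 0 (h t) (fun _ => (G.ncard : ℝ) * lam) :=
            (E_const _ _ _).symm
          rw [h2]
          refine E_mono_seg fun X hX => ?_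
          have h3 : X * A b ∈ Seg α 0 (h t + 1) := by
            have := seg_mul (α := α) (i := 0) (l := h t) (k := 1) hX
              (v := α (0 + h t) b) (seg_letter _ b)
            rw [zero_add, hH.letter t (by omega)] at this
            exact this
          exact hyp t (by omega) _ h3 c v hv
        have h1f := h1 false
        have h1t := h1 true
        rw [← mul_sum, sum_add_distrib]
        linarith)
    have hws := weight_step ε δ (δ * G.ncard) lam t hε hε1 hδη (by positivity) hη1 hlam
    rw [← hw, ← hρ] at hws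
    exact hws.trans hstep

end left

open Classical in
theorem left_final {M : Type} [Monoid M] [Fintype M] {α : ℕ → Bool → M} {κ : ℕ → M} {h : ℕ → ℕ}
    {m : ℕ} {A : Bool → M} {C : M} {V : Set M} {δ ε δ₀ : ℝ} (hδ0 : 0 < δ₀) (hδ : δ₀ ≤ δ)
    (hH : Hom α κ h m A C V δ (ε * δ)) (hε : 0 < ε) (hε1 : ε ≤ 1)
    {G : Set M} (hG : G.Nonempty) (hGV : G ⊆ V) {f : M → ℝ} (hf : ∀ v, 0 ≤ f v)
    {lam : ℝ} (hlam : 0 ≤ lam) {a : ℕ} (ham : a + 1 < m)
    (hpow : (max 0 (1 - δ₀)) ^ a ≤ ε)
    (hyp : ∀ t, t + 1 < a + 1 → ∀ U ∈ Seg α 0 (h t + 1), ∀ c, ∀ v ∈ V,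
      (G.ncard : ℝ) * lam ≤ ∑ g ∈ univ.filter (fun g => g ∈ G), f (U * g * (A c * v))) :
    (1 - 3 * ε) * lam ≤ E α 0 (h (a + 1)) f := by
  have hδp : 0 ≤ δ := by linarith
  have hGn : (1 : ℝ) ≤ G.ncard := by
    have : 0 < G.ncard := (Set.ncard_pos (Set.toFinite G)).2 hG
    exact_mod_cast this
  have hη1 : δ * G.ncard ≤ 1 := tau_total hH (Nat.lt_succ_self a) ham hGV
  have hrec := left_rec hH hδp ε hε hε1 rfl hG hGV hf hlam ham hyp a (Nat.lt_succ_self a)
  have hηq : (1 - δ * (G.ncard : ℝ)) ^ a ≤ ε := by
    refine le_trans (pow_le_pow_left₀ (by linarith) ?_ a) hpow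
    refine le_trans ?_ (le_max_right _ _)
    nlinarith
  have hw : (1 - ε) * (1 - ε) * lam ≤ (1 - ε) * (1 - (1 - δ * (G.ncard : ℝ)) ^ a) * lam := by
    refine mul_le_mul_of_nonneg_right ?_ hlam
    exact mul_le_mul_of_nonneg_left (by linarith) (by linarith)
  rw [left_gap hH (Nat.lt_succ_self a) ham]
  have hfin := sum_V_ge (tau α (h a + 1) (h (a + 1) - h a - 1))
    (fun u => (1 / 2) * (E α 0 (h a) (fun X => f (X * A false * u)) +
        E α 0 (h a) (fun X => f (X * A true * u)))) V (ε * δ) ((1 - ε) * (1 - ε) * lam)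
    (fun u => tau_nonneg _ _ _) (sum_tau _ _)
    (hH.tail a (a + 1) (Nat.lt_succ_self a) ham)
    (fun u => mul_nonneg (by norm_num) (add_nonneg (E_nonneg fun X => hf _)
        (E_nonneg fun X => hf _)))
    (mul_nonneg (mul_nonneg (by linarith) (by linarith)) hlam)
    (fun u hu => by
      have h1 : ∀ b, (1 - ε) * (1 - ε) * lam ≤ E α 0 (h a) (fun X => f (X * A b * u)) := by
        intro b
        have h2 := hw.trans (hrec b u hu)
        simp only [mul_assoc] at h2 ⊢
        exact h2
      have h1f := h1 false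
      have h1t := h1 true
      linarith)
  refine le_trans ?_ hfin
  have hεδ : ε * δ ≤ ε := by
    have : δ ≤ 1 := by nlinarith
    nlinarith
  have h3 : (1 - 3 * ε) ≤ (1 - ε * δ) * ((1 - ε) * (1 - ε)) := by
    have h4 : (1 - ε) * ((1 - ε) * (1 - ε)) ≤ (1 - ε * δ) * ((1 - ε) * (1 - ε)) :=
      mul_le_mul_of_nonneg_right (by linarith) (mul_nonneg (by linarith) (by linarith))
    have h5 : (1 - 3 * ε) ≤ (1 - ε) * ((1 - ε) * (1 - ε)) := by
      have : 0 ≤ ε ^ 2 * (3 - ε) := mul_nonneg (sq_nonneg ε) (by linarith)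
      nlinarith
    linarith
  calc (1 - 3 * ε) * lam ≤ ((1 - ε * δ) * ((1 - ε) * (1 - ε))) * lam :=
        mul_le_mul_of_nonneg_right h3 hlam
    _ = _ := by ring

lemma exists_pow (ε δ₀ : ℝ) (hε : 0 < ε) (hδ : 0 < δ₀) :
    ∃ N : ℕ, ∀ a, N ≤ a → (max 0 (1 - δ₀)) ^ a ≤ ε := by
  have h1 : max 0 (1 - δ₀) < 1 := max_lt (by norm_num) (by linarith)
  obtain ⟨N, hN⟩ := exists_pow_lt_of_lt_one hε h1
  exact ⟨N, fun a ha => (pow_le_pow_of_le_one (le_max_left _ _) h1.le ha).trans hN.le⟩

end Side

theorem specLeft : SpecLeft := by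
  classical
  intro ε δ₀ hε hε1 hδ₀
  obtain ⟨N, hN⟩ := Side.exists_pow ε δ₀ hε hδ₀
  refine ⟨N + 1, ?_⟩
  intro M _ _ α κ h m A C V δ G f lam a hδ hH hG hGV hf hlam ha ham hyp
  obtain ⟨b, rfl⟩ : ∃ b, a = b + 1 := ⟨a - 1, by omega⟩
  exact Side.left_final hδ₀ hδ hH hε hε1 hG hGV hf hlam ham (hN b (by omega)) hyp

/-! ### RIGHT -/

namespace Side

variable {M : Type} [Monoid M] {α : ℕ → Bool → M} [Fintype M] {κ : ℕ → M} {h : ℕ → ℕ} {m : ℕ}
  {A : Bool → M} {C : M} {V : Set M} {δ ρ : ℝ}

/-- splitting a suffix at `h t` -/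
lemma right_gap (hH : Hom α κ h m A C V δ ρ) {s t n : ℕ} (hst : s < t) (ht : t < m) (hn : h t < n)
    (F : M → ℝ) :
    E α (h s + 1) (n - h s - 1) F = ∑ v, tau α (h s + 1) (h t - h s - 1) v *
      ((1 / 2) * (E α (h t + 1) (n - h t - 1) (fun Y => F (v * A false * Y)) +
        E α (h t + 1) (n - h t - 1) (fun Y => F (v * A true * Y)))) := by
  have hlt := hH.mono s t hst ht
  have hs : α (h t) = A := hH.letter t ht
  have e0 : n - h s - 1 = (h t - h s - 1) + 1 + (n - h t - 1) := by omega
  have e1 : h s + 1 + (h t - h s - 1) = h t := by omega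
  rw [e0, E_letter, e1, hs, E_eq_sum]

open Classical in
lemma right_rec (hH : Hom α κ h m A C V δ ρ) (hδ : 0 ≤ δ) (ε : ℝ) (hε : 0 < ε) (hε1 : ε ≤ 1)
    (hρ : ρ = ε * δ) {G : Set M} (hG : G.Nonempty) (hGV : G ⊆ V) {f : M → ℝ} (hf : ∀ v, 0 ≤ f v)
    {lam : ℝ} (hlam : 0 ≤ lam) {a n : ℕ} (hn : ∀ s < m, h s < n)
    (hyp : ∀ b, a ≤ b → b + 1 < m → ∀ W ∈ Seg α (h (b + 1)) (n - h (b + 1)), ∀ c, ∀ v ∈ V,
      (G.ncard : ℝ) * lam ≤ ∑ g ∈ univ.filter (fun g => g ∈ G), f (v * A c * g * W)) :
    ∀ t b, b + t + 1 = m → a ≤ b → ∀ c, ∀ v ∈ V, (1 - ε) * (1 - (1 - δ * G.ncard) ^ t) * lam ≤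
      E α (h b + 1) (n - h b - 1) (fun Y => f (v * A c * Y)) := by
  have hGn : (1 : ℝ) ≤ G.ncard := by
    have : 0 < G.ncard := (Set.ncard_pos (Set.toFinite G)).2 hG
    exact_mod_cast this
  have hδη : δ ≤ δ * G.ncard := by nlinarith
  intro t
  induction t with
  | zero =>
    intro b _ _ c v _
    simp only [pow_zero, sub_self, mul_zero, zero_mul]
    exact E_nonneg fun X => hf _
  | succ t ih =>
    intro b hbm hab c v hv
    have hb1 : b + 1 < m := by omega
    have hη1 : δ * G.ncard ≤ 1 := tau_total hH (Nat.lt_succ_self b) hb1 hGV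
    rw [right_gap hH (Nat.lt_succ_self b) hb1 (hn _ hb1)]
    set w : ℝ := (1 - ε) * (1 - (1 - δ * G.ncard) ^ t) * lam with hw
    have hw0 : 0 ≤ w := by
      have hq0 : 0 ≤ 1 - δ * (G.ncard : ℝ) := by linarith
      have hq1 : (1 - δ * (G.ncard : ℝ)) ^ t ≤ 1 := pow_le_one₀ hq0 (by nlinarith)
      exact mul_nonneg (mul_nonneg (by linarith) (by linarith)) hlam
    have hstep := step_ineq (tau α (h b + 1) (h (b + 1) - h b - 1))
      (fun u => (1 / 2) * (E α (h (b + 1) + 1) (n - h (b + 1) - 1)
          (fun Y => f (v * A c * (u * A false * Y))) +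
        E α (h (b + 1) + 1) (n - h (b + 1) - 1) (fun Y => f (v * A c * (u * A true * Y)))))
      V G δ ρ w lam
      (fun u => tau_nonneg _ _ _) (sum_tau _ _) hGV
      (fun u hu => hH.low b (b + 1) (Nat.lt_succ_self b) hb1 u hu) hδ
      (hH.tail b (b + 1) (Nat.lt_succ_self b) hb1)
      (fun u => mul_nonneg (by norm_num) (add_nonneg (E_nonneg fun X => hf _)
        (E_nonneg fun X => hf _))) hw0
      (fun u hu => by
        have h1 : ∀ c', w ≤ E α (h (b + 1) + 1) (n - h (b + 1) - 1)
            (fun Y => f (v * A c * (u * A c' * Y))) := by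
          intro c'
          have h2 := ih (b + 1) (by omega) (by omega) c' (v * A c * u) (hH.closed v hv u hu c)
          simp only [mul_assoc] at h2 ⊢
          exact h2
        have h1f := h1 false
        have h1t := h1 true
        linarith)
      (by
        have h1 : ∀ c', (G.ncard : ℝ) * lam ≤ ∑ g ∈ univ.filter (fun g => g ∈ G),
            E α (h (b + 1) + 1) (n - h (b + 1) - 1)
              (fun Y => f (v * A c * (g * A c' * Y))) := by
          intro c'
          rw [← E_sum]
          have h2 : (G.ncard : ℝ) * lam =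
              E α (h (b + 1) + 1) (n - h (b + 1) - 1) (fun _ => (G.ncard : ℝ) * lam) :=
            (E_const _ _ _).symm
          rw [h2]
          refine E_mono_seg fun Y hY => ?_
          have hnb := hn _ hb1
          have h3 : A c' * Y ∈ Seg α (h (b + 1)) (n - h (b + 1)) := by
            have := seg_cons (α := α) c' hY
            rw [hH.letter (b + 1) hb1] at this
            have e : n - h (b + 1) - 1 + 1 = n - h (b + 1) := by omega
            rwa [e] at this
          have h4 := hyp b hab hb1 _ h3 c v hv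
          simp only [mul_assoc] at h4 ⊢
          exact h4
        have h1f := h1 false
        have h1t := h1 true
        rw [← mul_sum, sum_add_distrib]
        linarith)
    have hws := weight_step ε δ (δ * G.ncard) lam t hε hε1 hδη (by positivity) hη1 hlam
    rw [← hw, ← hρ] at hws
    exact hws.trans hstep

open Classical in
theorem right_final {ε δ₀ : ℝ} (hδ0 : 0 < δ₀) (hδ : δ₀ ≤ δ)
    (hH : Hom α κ h m A C V δ (ε * δ)) (hε : 0 < ε) (hε1 : ε ≤ 1)
    {G : Set M} (hG : G.Nonempty) (hGV : G ⊆ V) {f : M → ℝ} (hf : ∀ v, 0 ≤ f v)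
    {lam : ℝ} (hlam : 0 ≤ lam) {a b t n : ℕ} (hn : ∀ s < m, h s < n) (hab : a < b)
    (hbt : b + t + 1 = m) (hpow : (max 0 (1 - δ₀)) ^ t ≤ ε)
    (hyp : ∀ b', b ≤ b' → b' + 1 < m → ∀ W ∈ Seg α (h (b' + 1)) (n - h (b' + 1)), ∀ c, ∀ v ∈ V,
      (G.ncard : ℝ) * lam ≤ ∑ g ∈ univ.filter (fun g => g ∈ G), f (v * A c * g * W)) :
    (1 - 3 * ε) * lam ≤ E α (h a + 1) (n - h a - 1) f := by
  have hδp : 0 ≤ δ := by linarith
  have hbm : b < m := by omega
  have hGn : (1 : ℝ) ≤ G.ncard := by
    have : 0 < G.ncard := (Set.ncard_pos (Set.toFinite G)).2 hG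
    exact_mod_cast this
  have hη1 : δ * G.ncard ≤ 1 := tau_total hH hab hbm hGV
  have hrec := right_rec hH hδp ε hε hε1 rfl hG hGV hf hlam hn hyp t b hbt le_rfl
  have hηq : (1 - δ * (G.ncard : ℝ)) ^ t ≤ ε := by
    refine le_trans (pow_le_pow_left₀ (by linarith) ?_ t) hpow
    refine le_trans ?_ (le_max_right _ _)
    nlinarith
  have hw : (1 - ε) * (1 - ε) * lam ≤ (1 - ε) * (1 - (1 - δ * (G.ncard : ℝ)) ^ t) * lam := by
    refine mul_le_mul_of_nonneg_right ?_ hlam
    exact mul_le_mul_of_nonneg_left (by linarith) (by linarith)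
  rw [right_gap hH hab hbm (hn _ hbm)]
  have hfin := sum_V_ge (tau α (h a + 1) (h b - h a - 1))
    (fun u => (1 / 2) * (E α (h b + 1) (n - h b - 1) (fun Y => f (u * A false * Y)) +
        E α (h b + 1) (n - h b - 1) (fun Y => f (u * A true * Y)))) V (ε * δ)
    ((1 - ε) * (1 - ε) * lam)
    (fun u => tau_nonneg _ _ _) (sum_tau _ _)
    (hH.tail a b hab hbm)
    (fun u => mul_nonneg (by norm_num) (add_nonneg (E_nonneg fun X => hf _)
        (E_nonneg fun X => hf _)))
    (mul_nonneg (mul_nonneg (by linarith) (by linarith)) hlam)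
    (fun u hu => by
      have h1 : ∀ c, (1 - ε) * (1 - ε) * lam ≤
          E α (h b + 1) (n - h b - 1) (fun Y => f (u * A c * Y)) := by
        intro c
        exact hw.trans (hrec c u hu)
      have h1f := h1 false
      have h1t := h1 true
      linarith)
  refine le_trans ?_ hfin
  have hεδ : ε * δ ≤ ε := by
    have : δ ≤ 1 := by nlinarith
    nlinarith
  have h3 : (1 - 3 * ε) ≤ (1 - ε * δ) * ((1 - ε) * (1 - ε)) := by
    have h4 : (1 - ε) * ((1 - ε) * (1 - ε)) ≤ (1 - ε * δ) * ((1 - ε) * (1 - ε)) :=
      mul_le_mul_of_nonneg_right (by linarith) (mul_nonneg (by linarith) (by linarith))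
    have h5 : (1 - 3 * ε) ≤ (1 - ε) * ((1 - ε) * (1 - ε)) := by
      have : 0 ≤ ε ^ 2 * (3 - ε) := mul_nonneg (sq_nonneg ε) (by linarith)
      nlinarith
    linarith
  calc (1 - 3 * ε) * lam ≤ ((1 - ε * δ) * ((1 - ε) * (1 - ε))) * lam :=
        mul_le_mul_of_nonneg_right h3 hlam
    _ = _ := by ring

end Side

theorem specRight : SpecRight := by
  classical
  intro ε δ₀ d hε hε1 hδ₀
  obtain ⟨N, hN⟩ := Side.exists_pow ε δ₀ hε hδ₀
  refine ⟨N + d + 2, ?_⟩
  intro M _ _ α κ h m A C V δ G f lam a n hδ hH hn hG hGV hf hlam ha hyp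
  obtain ⟨t, ht⟩ : ∃ t, a + (d + 1) + t + 1 = m := ⟨m - 1 - (a + (d + 1)), by omega⟩
  exact Side.right_final hδ₀ hδ hH hε hε1 hG hGV hf hlam hn (by omega) ht (hN t (by omega))
    (fun b hb => hyp b (by omega))

end Pool.Agent.Lib.MP_53850c_co.BW
end
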