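import Pool.Agent.Lib.MP_53850c_co.BW.Defs
import Pool.Agent.Lib.MP_7c0edd_co.H26.Edge
import Pool.Agent.Lib.MP_7c0edd_co.Blow.NumAll
import Pool.Agent.Lib.MP_53850c_co.BW.Side

section
/-!
# Bounded width programs: from the specifications to the edge Turan density
-/
namespace Pool.Agent.Lib.MP_53850c_co.BW

open Finset Filter Topology Pool.Agent.Lib.MP_7c0edd_co.H21 MP7c0edd MP7c0edd.EdgeM

variable {n w : ℕ}

/-! ### the number of accepted edges -/

lemma dim_eq (u : Fin n → Option Bool) : dim u = (stars u).card := rfl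

lemma sub_iff {u s : Fin n → Option Bool} : Sub u s ↔ Below u s := by
  unfold Sub Below
  refine forall_congr' fun i => ?_
  by_cases h : s i = none <;> simp [h]

lemma size_eq_sum (P : Prog n w) : P.size = ∑ q : Fin n, P.sizeAt q := by
  classical
  unfold Prog.size Prog.sizeAt
  rw [← card_biUnion]
  · congr 1
    ext u
    simp only [mem_filter, mem_univ, true_and, mem_biUnion]
    constructor
    · rintro ⟨h1, h2⟩
      have h3 : (univ.filter fun i => u i = none).card = 1 := h1
      obtain ⟨q, hq⟩ := card_eq_one.mp h3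
      have : q ∈ univ.filter fun i => u i = none := by rw [hq]; simp
      rw [mem_filter] at this
      exact ⟨q, h1, this.2, h2⟩
    · rintro ⟨q, h1, -, h2⟩
      exact ⟨h1, h2⟩
  · intro q _ q' _ hne
    rw [Function.onFun, disjoint_left]
    intro u hu hu'
    rw [mem_filter] at hu hu'
    apply hne
    have h3 : (univ.filter fun i => u i = none).card = 1 := hu.2.1
    obtain ⟨r, hr⟩ := card_eq_one.mp h3
    have h4 : q ∈ univ.filter fun i => u i = none := by simp [hu.2.2.1]
    have h5 : q' ∈ univ.filter fun i => u i = none := by simp [hu'.2.2.1]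
    rw [hr, mem_singleton] at h4 h5
    rw [h4, h5]

lemma B_pos {d : ℕ} (hd : 1 ≤ d) : 1 ≤ B d := by
  unfold B
  have : 4 ≤ (d + 1) ^ 2 := by nlinarith
  omega

/-- all width `w` programs which cover accept at least `(1 / B d - ε) n 2^(n-1)` edges -/
theorem size_ge (hTop : SpecTop) (hProg : SpecProg) (w d : ℕ) (hd : 1 ≤ d) (ε : ℝ) (hε : 0 < ε) :
    ∃ n₀ : ℕ, ∀ n, n₀ ≤ n → ∀ P : Prog n w, P.Covers d →
      (1 / (B d : ℝ) - ε) * ((n : ℝ) * 2 ^ (n - 1)) ≤ P.size := by
  classical
  obtain ⟨M, _, _, hM⟩ := hProg w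
  obtain ⟨N, hN⟩ := hTop M d (ε / 2) hd (by positivity)
  obtain ⟨n₀, hn₀⟩ := exists_nat_gt (2 * (N : ℝ) / ε)
  refine ⟨n₀, fun n hn P hP => ?_⟩
  rcases le_or_gt (1 / (B d : ℝ) - ε) 0 with hneg | hpos
  · refine le_trans ?_ (Nat.cast_nonneg _)
    have : (0 : ℝ) ≤ (n : ℝ) * 2 ^ (n - 1) := by positivity
    nlinarith
  obtain ⟨α, κ, ψ, h1, h2⟩ := hM n P
  have hCov := h1 d hd hP
  set S : Finset (Fin n) := univ.filter fun q : Fin n => dens α κ ψ n q < 1 / (B d : ℝ) - ε / 2 with hS
  have hcard : S.card < N := by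
    have := hN α κ ψ n hCov (S.map Fin.valEmbedding) (by
      intro q hq
      rw [Finset.mem_map] at hq
      obtain ⟨q', hq', rfl⟩ := hq
      rw [hS, mem_filter] at hq'
      exact ⟨q'.2, hq'.2⟩)
    rwa [card_map] at this
  have hsum : (P.size : ℝ) = ∑ q : Fin n, (P.sizeAt q : ℝ) := by
    rw [size_eq_sum]
    push_cast
    rfl
  have hge : ∑ q ∈ univ.filter (fun q : Fin n => q ∉ S), (1 / (B d : ℝ) - ε / 2) * 2 ^ (n - 1)
      ≤ ∑ q : Fin n, (P.sizeAt q : ℝ) := by
    refine (sum_le_sum fun q hq => ?_).trans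
      (sum_le_sum_of_subset_of_nonneg (filter_subset _ _) fun q _ _ => Nat.cast_nonneg _)
    rw [mem_filter] at hq
    have h3 : ¬ dens α κ ψ n q < 1 / (B d : ℝ) - ε / 2 := by
      intro h4
      exact hq.2 (by rw [hS, mem_filter]; exact ⟨mem_univ _, h4⟩)
    push Not at h3
    rw [h2 q]
    gcongr
  have hcard2 : (univ.filter (fun q : Fin n => q ∉ S)).card = n - S.card := by
    rw [filter_not, card_sdiff_of_subset (by intro x; simp)]
    simp
  rw [sum_const, hcard2, nsmul_eq_mul] at hge
  rw [hsum]
  refine le_trans ?_ hge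
  have hSn : S.card ≤ n := by
    have := card_le_univ S
    simpa using this
  rw [Nat.cast_sub hSn]
  have hN' : (S.card : ℝ) ≤ N := by exact_mod_cast hcard.le
  have hnn : 2 * (N : ℝ) / ε < n := hn₀.trans_le (by exact_mod_cast hn)
  rw [div_lt_iff₀ hε] at hnn
  have hB1 : 1 / (B d : ℝ) ≤ 1 := by
    rw [div_le_one (by exact_mod_cast B_pos hd)]
    exact_mod_cast B_pos hd
  have h2pow : (0 : ℝ) < 2 ^ (n - 1) := by positivity
  have hkey : (1 / (B d : ℝ) - ε) * n ≤ ((n : ℝ) - S.card) * (1 / (B d : ℝ) - ε / 2) := by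
    have hS0 : (0 : ℝ) ≤ S.card := Nat.cast_nonneg _
    nlinarith
  calc (1 / (B d : ℝ) - ε) * ((n : ℝ) * 2 ^ (n - 1))
      = ((1 / (B d : ℝ) - ε) * n) * 2 ^ (n - 1) := by ring
    _ ≤ (((n : ℝ) - S.card) * (1 / (B d : ℝ) - ε / 2)) * 2 ^ (n - 1) := by gcongr
    _ = _ := by ring

/-! ### larger width -/

/-- a program of width `w` as a program of width `w'` -/
def Prog.widen {w' : ℕ} (P : Prog n w) (h : w ≤ w') : Prog n w' where
  start := Fin.castLE h P.start
  step i a q := if hq : (q : ℕ) < w then Fin.castLE h (P.step i a ⟨q, hq⟩) else q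
  acc q := if hq : (q : ℕ) < w then P.acc ⟨q, hq⟩ else false

lemma run_widen {w' : ℕ} (P : Prog n w) (h : w ≤ w') (u : Fin n → Option Bool) :
    (P.widen h).run u = Fin.castLE h (P.run u) := by
  unfold Prog.run
  have key : ∀ (l : List (Fin n)) (q : Fin w),
      l.foldl (fun q i => (P.widen h).step i (u i) q) (Fin.castLE h q) =
        Fin.castLE h (l.foldl (fun q i => P.step i (u i) q) q) := by
    intro l
    induction l with
    | nil => intro q; rfl
    | cons i l ih =>
      intro q
      rw [List.foldl_cons, List.foldl_cons, ← ih]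
      congr 1
      simp [Prog.widen]
  exact key _ _

lemma accepts_widen {w' : ℕ} (P : Prog n w) (h : w ≤ w') (u : Fin n → Option Bool) :
    (P.widen h).Accepts u ↔ P.Accepts u := by
  unfold Prog.Accepts
  rw [run_widen]
  simp [Prog.widen]

/-! ### graphs -/

/-- the edges of `Q_n` which are kept: the word (read in the order `σ`) is not accepted -/
def Prog.graph (P : Prog n w) (σ : Equiv.Perm (Fin n)) : SimpleGraph (Fin n → Bool) :=
  (cubeG n).deleteEdges {e | ∃ (x : Fin n → Bool) (i : Fin n),
    P.Accepts (fun j => if σ j = i then none else some (x (σ j))) ∧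
      e = s(x, Function.update x i (!x i))}

lemma graph_eq_del (P : Prog n w) (σ : Equiv.Perm (Fin n)) :
    P.graph σ = del ((words n 1).filter fun u => P.Accepts (u ∘ σ)) := by
  unfold Prog.graph del
  congr 1
  ext e
  constructor
  · rintro ⟨x, i, h, rfl⟩
    refine ⟨wd x i, ?_, ed_wd x i⟩
    rw [mem_coe, mem_filter, mem_words, stars_wd, card_singleton]
    exact ⟨rfl, h⟩
  · rintro ⟨u, hu, rfl⟩
    rw [mem_coe, mem_filter] at hu
    obtain ⟨i, hi⟩ := one_star hu.1
    refine ⟨fill u (fun _ => false), i, ?_, ?_⟩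
    · have h3 : (fun j => if σ j = i then none else some (fill u (fun _ => false) (σ j)))
          = (wd (fill u (fun _ => false)) i) ∘ σ := rfl
      rw [h3, wd_fill hi]
      exact hu.2
    · have h4 := ed_wd (fill u (fun _ => false)) i
      rw [wd_fill hi] at h4
      exact h4

/-- permuted words -/
lemma dim_comp (u : Fin n → Option Bool) (σ : Equiv.Perm (Fin n)) : dim (u ∘ σ) = dim u := by
  unfold dim
  refine card_bij (fun i _ => σ i) ?_ ?_ ?_
  · intro i hi
    rw [mem_filter] at hi ⊢
    exact ⟨mem_univ _, hi.2⟩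
  · intro i _ j _ h
    exact σ.injective h
  · intro i hi
    rw [mem_filter] at hi
    refine ⟨σ.symm i, ?_, by simp⟩
    rw [mem_filter]
    refine ⟨mem_univ _, ?_⟩
    simpa using hi.2

lemma card_filter_comp (P : Prog n w) (σ : Equiv.Perm (Fin n)) :
    ((words n 1).filter fun u => P.Accepts (u ∘ σ)).card = P.size := by
  unfold Prog.size
  refine card_bij (fun u _ => u ∘ σ) ?_ ?_ ?_
  · intro u hu
    rw [mem_filter, mem_words] at hu
    rw [mem_filter]
    exact ⟨mem_univ _, by rw [dim_comp, dim_eq]; exact hu.1, hu.2⟩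
  · intro u _ v _ h
    exact σ.surjective.injective_comp_right h
  · intro u hu
    rw [mem_filter] at hu
    refine ⟨u ∘ σ.symm, ?_, ?_⟩
    · rw [mem_filter, mem_words, ← dim_eq, dim_comp]
      refine ⟨hu.2.1, ?_⟩
      have : (u ∘ σ.symm) ∘ σ = u := by
        funext j; simp
      rw [this]
      exact hu.2.2
    · funext j; simp

lemma graph_le (P : Prog n w) (σ : Equiv.Perm (Fin n)) : P.graph σ ≤ cubeG n :=
  SimpleGraph.deleteEdges_le _

lemma miss_graph (P : Prog n w) (σ : Equiv.Perm (Fin n)) :
    miss (P.graph σ) = (words n 1).filter fun u => P.Accepts (u ∘ σ) := by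
  rw [graph_eq_del, miss_del (filter_subset _ _)]

lemma graph_card (P : Prog n w) (σ : Equiv.Perm (Fin n)) :
    (P.graph σ).edgeSet.ncard + P.size = n * 2 ^ (n - 1) := by
  have h := card_miss (graph_le P σ)
  rw [miss_graph, card_filter_comp, card_words, Nat.choose_one_right] at h
  rw [h]
  ring

lemma graph_free (P : Prog n w) (σ : Equiv.Perm (Fin n)) (d : ℕ) :
    (cubeG d).Free (P.graph σ) ↔ P.Covers d := by
  constructor
  · intro h s hs
    have hc := wcov_of_free h
    rw [miss_graph] at hc
    obtain ⟨u, hu, hus⟩ := hc.2 (s ∘ σ.symm) (by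
      rw [← dim_eq, dim_comp]
      exact hs)
    rw [mem_filter, mem_words] at hu
    refine ⟨u ∘ σ, by rw [dim_comp]; exact hu.1, ?_, hu.2⟩
    rw [sub_iff]
    intro j
    have := hus (σ j)
    simpa using this
  · intro h
    apply free_of_wcov (graph_le P σ)
    rw [miss_graph]
    refine ⟨fun u hu => ?_, fun s hs => ?_⟩
    · rw [mem_filter, mem_words] at hu
      exact hu.1
    · obtain ⟨u, hu1, hu2, hu3⟩ := h (s ∘ σ) (by rw [dim_comp]; exact hs)
      refine ⟨u ∘ σ.symm, ?_, ?_⟩
      · rw [mem_filter, mem_words, ← dim_eq, dim_comp]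
        refine ⟨hu1, ?_⟩
        have : (u ∘ σ.symm) ∘ σ = u := by
          funext j; simp
        rw [this]
        exact hu3
      · rw [sub_iff] at hu2
        intro j
        have := hu2 (σ.symm j)
        simpa using this

/-- `γ_w(n, d)`: the largest proportion of edges of a `Q_d`-free subgraph of `Q_n` whose missing
edges are recognised by a read-once program of width `w` (in some order of the coordinates). -/
noncomputable def gamW (w n d : ℕ) : ℝ :=
  sSup {x : ℝ | ∃ (P : Prog n w) (σ : Equiv.Perm (Fin n)), (cubeG d).Free (P.graph σ) ∧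
    x = ((P.graph σ).edgeSet.ncard : ℝ) / ((cubeG n).edgeSet.ncard : ℝ)}

lemma card_cubeG (n : ℕ) : (cubeG n).edgeSet.ncard = n * 2 ^ (n - 1) := by
  rw [card_cube, card_words, Nat.choose_one_right]
  ring

/-- the main theorem from the specifications -/
theorem main (hTop : SpecTop) (hProg : SpecProg) (hAKS : SpecAKS) {d w : ℕ} (hd : 1 ≤ d)
    (hw : d + 2 ≤ w) : Tendsto (fun n => gamW w n d) atTop (𝓝 (1 - 1 / (B d : ℝ))) := by
  have hB := B_pos hd
  have hB0 : (0 : ℝ) < B d := by exact_mod_cast hB
  have hval : ∀ {n : ℕ} (_ : 1 ≤ n) (P : Prog n w) (σ : Equiv.Perm (Fin n)),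
      ((P.graph σ).edgeSet.ncard : ℝ) / ((cubeG n).edgeSet.ncard : ℝ)
        = 1 - (P.size : ℝ) / ((n : ℝ) * 2 ^ (n - 1)) := by
    intro n hn P σ
    have h := graph_card P σ
    have h' : ((P.graph σ).edgeSet.ncard : ℝ) = (n : ℝ) * 2 ^ (n - 1) - P.size := by
      have : (((P.graph σ).edgeSet.ncard + P.size : ℕ) : ℝ) = ((n * 2 ^ (n - 1) : ℕ) : ℝ) := by
        rw [h]
      push_cast at this
      linarith
    have hn0 : (0 : ℝ) < (n : ℝ) * 2 ^ (n - 1) := by
      have : (0 : ℝ) < n := by exact_mod_cast hn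
      positivity
    rw [h', card_cubeG]
    push_cast
    field_simp
  have hbdd : ∀ n, 1 ≤ n → BddAbove {x : ℝ | ∃ (P : Prog n w) (σ : Equiv.Perm (Fin n)),
      (cubeG d).Free (P.graph σ) ∧
      x = ((P.graph σ).edgeSet.ncard : ℝ) / ((cubeG n).edgeSet.ncard : ℝ)} := by
    intro n hn
    refine ⟨1, ?_⟩
    rintro x ⟨P, σ, -, rfl⟩
    rw [hval hn]
    have : 0 ≤ (P.size : ℝ) / ((n : ℝ) * 2 ^ (n - 1)) := by positivity
    linarith
  have hlow : ∀ n, 1 ≤ n → 1 - 1 / (B d : ℝ) ≤ gamW w n d := by
    intro n hn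
    obtain ⟨P₀, hP₀, hs⟩ := hAKS d n hd
    set P := P₀.widen hw with hP
    have hacc : ∀ u, P.Accepts u ↔ P₀.Accepts u := accepts_widen P₀ hw
    have hcov : P.Covers d := by
      intro s hs
      obtain ⟨u, h1, h2, h3⟩ := hP₀ s hs
      exact ⟨u, h1, h2, (hacc u).mpr h3⟩
    have hsize : P.size = P₀.size := by
      unfold Prog.size
      congr 1
      ext u
      simp only [mem_filter, mem_univ, true_and, hacc u]
    refine le_trans ?_ (le_csSup (hbdd n hn) ⟨P, Equiv.refl _, (graph_free P _ d).mpr hcov, rfl⟩)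
    rw [hval hn, hsize]
    have hn0 : (0 : ℝ) < (n : ℝ) * 2 ^ (n - 1) := by
      have : (0 : ℝ) < n := by exact_mod_cast hn
      positivity
    have hs' : (B d : ℝ) * P₀.size ≤ (n : ℝ) * 2 ^ (n - 1) := by exact_mod_cast hs
    have : (P₀.size : ℝ) / ((n : ℝ) * 2 ^ (n - 1)) ≤ 1 / (B d : ℝ) := by
      rw [div_le_div_iff₀ hn0 hB0]
      linarith
    linarith
  rw [Metric.tendsto_atTop]
  intro ε hε
  obtain ⟨n₀, hn₀⟩ := size_ge hTop hProg w d hd (ε / 2) (by positivity)
  refine ⟨max n₀ 1, fun n hn => ?_⟩
  have hn1 : 1 ≤ n := (le_max_right _ _).trans hn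
  have h1 := hlow n hn1
  have h2 : gamW w n d ≤ 1 - 1 / (B d : ℝ) + ε / 2 := by
    apply csSup_le
    · obtain ⟨P₀, hP₀, hs⟩ := hAKS d n hd
      refine ⟨_, P₀.widen hw, Equiv.refl _, (graph_free _ _ d).mpr ?_, rfl⟩
      intro s hs
      obtain ⟨u, h1, h2, h3⟩ := hP₀ s hs
      exact ⟨u, h1, h2, (accepts_widen P₀ hw u).mpr h3⟩
    · rintro x ⟨P, σ, hfree, rfl⟩
      have h3 := hn₀ n ((le_max_left _ _).trans hn) P ((graph_free P σ d).mp hfree)
      rw [hval hn1]
      have hn0 : (0 : ℝ) < (n : ℝ) * 2 ^ (n - 1) := by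
        have : (0 : ℝ) < n := by exact_mod_cast hn1
        positivity
      have h4 : 1 / (B d : ℝ) - ε / 2 ≤ (P.size : ℝ) / ((n : ℝ) * 2 ^ (n - 1)) := by
        rw [le_div_iff₀ hn0]
        exact h3
      linarith
  rw [Real.dist_eq, abs_lt]
  constructor <;> linarith

end Pool.Agent.Lib.MP_53850c_co.BW
end

section
/-!
# Bounded width programs reach the limiting density for `l ≥ 2`
-/
set_option autoImplicit false

namespace Pool.Agent.Lib.MP_53850c_co.BW

open Finset Pool.Agent.Lib.MP_7c0edd_co.H21 Pool.Agent.Lib.MP_7c0edd_co.Blow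

section types

variable {n m : ℕ}

open Classical in
/-- The refined step, with the types. -/
theorem exists_types {d l : ℕ} (hm : 0 < m) (hlm : l ≤ m) {S₀ : Finset (W m)}
    (h₀ : WCov d l S₀) {S₁ : Finset (W n)} (h₁ : MCov d l S₁) :
    ∃ p : Om n m, WCov d l (((words n l).filter (fun w => virt p.1 p.2 w ∈ S₀))
      ∪ (S₁.filter (fun w => ¬ Set.InjOn p.1 (stars w : Set (Fin n))))) ∧
    ((((words n l).filter (fun w => virt p.1 p.2 w ∈ S₀))
      ∪ (S₁.filter (fun w => ¬ Set.InjOn p.1 (stars w : Set (Fin n))))).card : ℝ)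
      ≤ (m.descFactorial l / m ^ l : ℝ) * ((S₀.card / (words m l).card : ℝ)
      * (words n l).card) + (1 - (m.descFactorial l / m ^ l : ℝ)) * S₁.card := by
  have : NeZero m := ⟨hm.ne'⟩
  have hm' : (0 : ℝ) < m := by exact_mod_cast hm
  let S : Om n m → Finset (W n) := fun p =>
    ((words n l).filter (fun w => virt p.1 p.2 w ∈ S₀))
      ∪ (S₁.filter (fun w => ¬ Set.InjOn p.1 (stars w : Set (Fin n))))
  have hS : ∀ p, WCov d l (S p) := by
    intro p
    refine ⟨fun w hw => ?_, fun x hx => ?_⟩
    · rcases mem_union.mp hw with hw | hw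
      · exact mem_words.mp (mem_filter.mp hw).1
      · exact h₁.1 w (mem_filter.mp hw).1
    · by_cases hinj : Set.InjOn p.1 (stars x : Set (Fin n))
      · have hc : (stars (virt p.1 p.2 x)).card = d := by
          rw [stars_virt, card_image_of_injOn hinj, hx]
        obtain ⟨v, hv, hvx⟩ := h₀.2 _ hc
        obtain ⟨w, hwx, hwv, hwc⟩ := exists_lift hinj hvx
        refine ⟨w, mem_union_left _ (mem_filter.mpr ⟨mem_words.mpr ?_, by rw [hwv]; exact hv⟩), hwx⟩
        rw [hwc, h₀.1 v hv]
      · unfold Set.InjOn at hinj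
        push Not at hinj
        obtain ⟨i, hi, j, hj, hij, hne⟩ := hinj
        obtain ⟨w, hw, hwx, hwi, hwj⟩ := h₁.2 x hx i (mem_coe.mp hi) j (mem_coe.mp hj) hne
        refine ⟨w, mem_union_right _ (mem_filter.mpr ⟨hw, fun h => hne ?_⟩), hwx⟩
        exact h (mem_coe.mpr hwi) (mem_coe.mpr hwj) hij
  have hwpos : (0 : ℝ) < (words m l).card := by
    rw [card_words]
    have := Nat.choose_pos hlm
    positivity
  set T : ℝ := ((Fintype.card (Om n m) : ℕ) : ℝ) with hT
  have hTpos : 0 < T := by
    rw [hT]; exact_mod_cast Fintype.card_pos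
  set q : ℝ := (m.descFactorial l / m ^ l : ℝ) with hq
  -- number of choices which are injective on the stars
  have hinjs : ∀ w : W n, (stars w).card = l →
      ((univ.filter (fun p : Om n m => Set.InjOn p.1 (stars w : Set (Fin n)))).card : ℝ)
        = q * T := by
    intro w hw
    have h3 : univ.filter (fun p : Om n m => Set.InjOn p.1 (stars w : Set (Fin n)))
        = (injs (m := m) (stars w)) ×ˢ (univ : Finset (Fin m → Bool)) := by
      ext p
      simp [injs]
    have h4 := card_injs (m := m) (stars w)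
    rw [hw] at h4
    have h5 : ((injs (m := m) (stars w)).card : ℝ) * (m : ℝ) ^ l
        = (m.descFactorial l : ℝ) * (Fintype.card (Fin n → Fin m) : ℝ) := by exact_mod_cast h4
    have hml : (0 : ℝ) < (m : ℝ) ^ l := by positivity
    rw [h3, card_product, hT, card_univ, Fintype.card_prod, hq, div_mul_eq_mul_div,
      eq_div_iff hml.ne']
    push_cast
    linear_combination (Fintype.card (Fin m → Bool) : ℝ) * h5
  have hcnt : ∀ w : W n, (stars w).card = l → ∀ v : W m, (stars v).card = l →
      ((cnt w v).card : ℝ) * (words m l).card ≤ q * T := by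
    intro w hw v hv
    rw [← hinjs w hw]
    have h1 : ∑ v' ∈ words m l, (cnt w v').card
        ≤ (univ.filter (fun p : Om n m => Set.InjOn p.1 (stars w : Set (Fin n)))).card := by
      rw [← card_biUnion]
      · refine card_le_card ?_
        intro p hp
        rw [mem_biUnion] at hp
        obtain ⟨v', hv', hp⟩ := hp
        rw [cnt, mem_filter] at hp
        refine mem_filter.mpr ⟨mem_univ _, ?_⟩
        have h2 : ((stars w).image p.1).card = (stars w).card := by
          rw [← stars_virt p.1 p.2, hp.2, mem_words.mp hv', hw]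
        exact card_image_iff.mp h2
      · intro a _ b _ hab
        rw [Function.onFun, disjoint_left]
        intro p hp hp'
        rw [cnt, mem_filter] at hp hp'
        exact hab (hp.2.symm.trans hp'.2)
    have h2 : (cnt w v).card * (words m l).card ≤ ∑ v' ∈ words m l, (cnt w v').card := by
      calc (cnt w v).card * (words m l).card = ∑ _v' ∈ words m l, (cnt w v).card := by
            rw [sum_const, smul_eq_mul, mul_comm]
        _ ≤ _ := sum_le_sum (fun v' hv' => cnt_le w (by rw [hv, mem_words.mp hv']))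
    exact_mod_cast h2.trans h1
  -- the two sums
  have hA : ∑ p : Om n m, (((words n l).filter (fun w => virt p.1 p.2 w ∈ S₀)).card : ℝ)
      ≤ (words n l).card * (S₀.card / (words m l).card * (q * T)) := by
    have h1 : ∑ p : Om n m, ((words n l).filter (fun w => virt p.1 p.2 w ∈ S₀)).card
        = ∑ w ∈ words n l, (univ.filter (fun p : Om n m => virt p.1 p.2 w ∈ S₀)).card :=
      sum_card_bipartiteAbove_eq_sum_card_bipartiteBelow
        (fun (p : Om n m) (w : W n) => virt p.1 p.2 w ∈ S₀)
    have h2 : ∀ w ∈ words n l,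
        ((univ.filter (fun p : Om n m => virt p.1 p.2 w ∈ S₀)).card : ℝ)
          ≤ S₀.card / (words m l).card * (q * T) := by
      intro w hw
      have h3 : univ.filter (fun p : Om n m => virt p.1 p.2 w ∈ S₀)
          = S₀.biUnion (fun v => cnt w v) := by
        ext p
        simp [cnt]
      rw [div_mul_eq_mul_div, le_div_iff₀ hwpos, h3]
      calc ((S₀.biUnion (fun v => cnt w v)).card : ℝ) * (words m l).card
          ≤ (∑ v ∈ S₀, ((cnt w v).card : ℝ)) * (words m l).card := by
            gcongr
            exact_mod_cast card_biUnion_le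
        _ = ∑ v ∈ S₀, ((cnt w v).card : ℝ) * (words m l).card := by rw [sum_mul]
        _ ≤ ∑ v ∈ S₀, q * T :=
            sum_le_sum (fun v hv => hcnt w (mem_words.mp hw) v (h₀.1 v hv))
        _ = _ := by rw [sum_const, nsmul_eq_mul]
    calc _ = ((∑ p : Om n m, ((words n l).filter (fun w => virt p.1 p.2 w ∈ S₀)).card : ℕ) : ℝ) := by
          push_cast; rfl
      _ = ∑ w ∈ words n l, ((univ.filter (fun p : Om n m => virt p.1 p.2 w ∈ S₀)).card : ℝ) := by
          rw [h1]; push_cast; rfl
      _ ≤ ∑ w ∈ words n l, (S₀.card / (words m l).card * (q * T) : ℝ) := sum_le_sum h2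
      _ = _ := by rw [sum_const, nsmul_eq_mul]
  have hB : ∑ p : Om n m,
      ((S₁.filter (fun w => ¬ Set.InjOn p.1 (stars w : Set (Fin n)))).card : ℝ)
      = S₁.card * ((1 - q) * T) := by
    have h1 : ∑ p : Om n m, (S₁.filter (fun w => ¬ Set.InjOn p.1 (stars w : Set (Fin n)))).card
        = ∑ w ∈ S₁, (univ.filter
          (fun p : Om n m => ¬ Set.InjOn p.1 (stars w : Set (Fin n)))).card :=
      sum_card_bipartiteAbove_eq_sum_card_bipartiteBelow
        (fun (p : Om n m) (w : W n) => ¬ Set.InjOn p.1 (stars w : Set (Fin n)))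
    have h2 : ∀ w ∈ S₁,
        ((univ.filter (fun p : Om n m => ¬ Set.InjOn p.1 (stars w : Set (Fin n)))).card : ℝ)
          = (1 - q) * T := by
      intro w hw
      have h3 := card_filter_add_card_filter_not (s := (univ : Finset (Om n m)))
        (fun p => Set.InjOn p.1 (stars w : Set (Fin n)))
      have h4 := hinjs w (h₁.1 w hw)
      have h5 : ((univ.filter (fun p : Om n m => Set.InjOn p.1 (stars w : Set (Fin n)))).card : ℝ)
          + ((univ.filter (fun p : Om n m => ¬ Set.InjOn p.1 (stars w : Set (Fin n)))).card : ℝ)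
          = T := by
        rw [hT, ← card_univ]
        exact_mod_cast h3
      linarith
    calc _ = ((∑ p : Om n m,
        (S₁.filter (fun w => ¬ Set.InjOn p.1 (stars w : Set (Fin n)))).card : ℕ) : ℝ) := by
          push_cast; rfl
      _ = ∑ w ∈ S₁, ((univ.filter
          (fun p : Om n m => ¬ Set.InjOn p.1 (stars w : Set (Fin n)))).card : ℝ) := by
          rw [h1]; push_cast; rfl
      _ = ∑ w ∈ S₁, ((1 - q) * T) := sum_congr rfl h2
      _ = _ := by rw [sum_const, nsmul_eq_mul]
  have hsum : ∑ p : Om n m, ((S p).card : ℝ)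
      ≤ ∑ _p : Om n m, (q * ((S₀.card / (words m l).card : ℝ) * (words n l).card)
        + (1 - q) * S₁.card) := by
    calc ∑ p : Om n m, ((S p).card : ℝ)
        ≤ ∑ p : Om n m, ((((words n l).filter (fun w => virt p.1 p.2 w ∈ S₀)).card : ℝ)
          + ((S₁.filter (fun w => ¬ Set.InjOn p.1 (stars w : Set (Fin n)))).card : ℝ)) := by
          refine sum_le_sum (fun p _ => ?_)
          have := card_union_le ((words n l).filter (fun w => virt p.1 p.2 w ∈ S₀))
            (S₁.filter (fun w => ¬ Set.InjOn p.1 (stars w : Set (Fin n))))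
          exact_mod_cast this
      _ ≤ (words n l).card * (S₀.card / (words m l).card * (q * T))
          + S₁.card * ((1 - q) * T) := by
          rw [sum_add_distrib]
          exact add_le_add hA hB.le
      _ = _ := by
          rw [sum_const, card_univ, nsmul_eq_mul, ← hT]
          ring
  obtain ⟨p, _, hp⟩ := exists_le_of_sum_le (univ_nonempty) hsum
  exact ⟨p, hS p, hp⟩


end types

/-! ### programs with an arbitrary finite set of states -/

theorem exists_prog {n w : ℕ} {σ : Type} [Fintype σ] (hcard : Fintype.card σ ≤ w) (start : σ)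
    (step : Fin n → Option Bool → σ → σ) (acc : σ → Bool) :
    ∃ P : Prog n w, ∀ u, P.Accepts u ↔
      acc ((List.finRange n).foldl (fun q i => step i (u i) q) start) = true := by
  classical
  let e : σ ≃ Fin (Fintype.card σ) := Fintype.equivFin σ
  let P₀ : Prog n (Fintype.card σ) :=
    { start := e start
      step := fun i a q => e (step i a (e.symm q))
      acc := fun q => acc (e.symm q) }
  refine ⟨P₀.widen hcard, fun u => ?_⟩
  rw [accepts_widen]
  have key : ∀ (l : List (Fin n)) (q : σ),
      l.foldl (fun q i => P₀.step i (u i) q) (e q) =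
        e (l.foldl (fun q i => step i (u i) q) q) := by
    intro l
    induction l with
    | nil => intro q; rfl
    | cons i l ih =>
      intro q
      rw [List.foldl_cons, List.foldl_cons, ← ih]
      congr 1
      simp [P₀]
  unfold Prog.Accepts Prog.run
  have h := key (List.finRange n) start
  have h2 : P₀.start = e start := rfl
  rw [h2, h]
  simp [P₀]

/-! ### the program of a blow-up -/

section blow

variable {n m : ℕ}

/-- one step: `none` = two stars of the same type have been read -/
def bstep (τ : Fin n → Fin m) (i : Fin n) (a : Option Bool) (s : Option (Fin m → Option Bool)) :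
    Option (Fin m → Option Bool) :=
  match s, a with
  | none, _ => none
  | some v, some b => some (Function.update v (τ i) ((v (τ i)).map (xor b)))
  | some v, none => if v (τ i) = none then none else some (Function.update v (τ i) none)

open Classical in
/-- the state of the program after the letters of `u` -/
noncomputable def bst (τ : Fin n → Fin m) (z : Fin m → Bool) (u : W n) :
    Option (Fin m → Option Bool) :=
  if Set.InjOn τ (stars u : Set (Fin n)) then some (virt τ z u) else none

lemma virt_true {τ : Fin n → Fin m} {z : Fin m → Bool} {u : W n} {i : Fin n}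
    (hi : u i = some false) :
    virt τ z (Function.update u i (some true)) =
      Function.update (virt τ z u) (τ i) ((virt τ z u (τ i)).map (xor true)) := by
  have hstar : ∀ j, Function.update u i (some true) j = none ↔ u j = none := by
    intro j
    by_cases h : j = i
    · subst h; simp [hi]
    · rw [Function.update_of_ne h]
  funext r
  by_cases hr : r = τ i
  · subst hr
    rw [Function.update_self]
    unfold virt
    simp only [hstar]
    by_cases hex : ∃ j, u j = none ∧ τ j = τ i
    · rw [if_pos hex, if_pos hex]; rfl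
    · rw [if_neg hex, if_neg hex, Option.map_some]
      congr 1
      have : par τ (Function.update u i (some true)) (τ i) = xor (par τ u (τ i)) true := by
        unfold par
        have h1 : univ.filter (fun j => τ j = τ i ∧ Function.update u i (some true) j = some true)
            = insert i (univ.filter (fun j => τ j = τ i ∧ u j = some true)) := by
          ext j
          simp only [mem_filter, mem_univ, true_and, mem_insert]
          by_cases h : j = i
          · subst h; simp
          · rw [Function.update_of_ne h]; simp [h]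
        rw [h1, card_insert_of_notMem (by simp [hi])]
        rcases Nat.mod_two_eq_zero_or_one
          (univ.filter (fun j => τ j = τ i ∧ u j = some true)).card with h | h
        · have : ((univ.filter (fun j => τ j = τ i ∧ u j = some true)).card + 1) % 2 = 1 := by omega
          simp [h, this]
        · have : ((univ.filter (fun j => τ j = τ i ∧ u j = some true)).card + 1) % 2 = 0 := by omega
          simp [h, this]
      rw [this]
      cases z (τ i) <;> cases par τ u (τ i) <;> rfl
  · rw [Function.update_of_ne hr]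
    unfold virt
    simp only [hstar]
    have : par τ (Function.update u i (some true)) r = par τ u r :=
      par_congr fun j hj => by
        rw [Function.update_of_ne]
        rintro rfl
        exact hr hj.symm
    rw [this]

lemma virt_star {τ : Fin n → Fin m} {z : Fin m → Bool} {u : W n} {i : Fin n}
    (hi : u i = some false) :
    virt τ z (Function.update u i none) = Function.update (virt τ z u) (τ i) none := by
  funext r
  by_cases hr : r = τ i
  · subst hr
    rw [Function.update_self, virt_none]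
    exact ⟨i, by simp, rfl⟩
  · rw [Function.update_of_ne hr]
    unfold virt
    have h1 : (∃ j, Function.update u i none j = none ∧ τ j = r) ↔ ∃ j, u j = none ∧ τ j = r := by
      constructor
      · rintro ⟨j, h1, h2⟩
        have : j ≠ i := by
          rintro rfl
          exact hr h2.symm
        rw [Function.update_of_ne this] at h1
        exact ⟨j, h1, h2⟩
      · rintro ⟨j, h1, h2⟩
        have : j ≠ i := by
          rintro rfl
          exact hr h2.symm
        exact ⟨j, by rw [Function.update_of_ne this]; exact h1, h2⟩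
    simp only [h1]
    have h2 : par τ (Function.update u i none) r = par τ u r :=
      par_congr fun j hj => by
        rw [Function.update_of_ne]
        rintro rfl
        exact hr hj.symm
    rw [h2]

lemma stars_up_star {u : W n} {i : Fin n} : stars (Function.update u i none) = insert i (stars u) := by
  ext j
  rw [mem_stars, mem_insert, mem_stars]
  by_cases h : j = i
  · subst h; simp
  · rw [Function.update_of_ne h]; simp [h]

lemma bst_step {τ : Fin n → Fin m} {z : Fin m → Bool} {u : W n} {i : Fin n}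
    (hi : u i = some false) (a : Option Bool) :
    bst τ z (Function.update u i a) = bstep τ i a (bst τ z u) := by
  have hst : ∀ b : Bool, stars (Function.update u i (some b)) = stars u := by
    intro b
    ext j
    rw [mem_stars, mem_stars]
    by_cases h : j = i
    · subst h; simp [hi]
    · rw [Function.update_of_ne h]
  rcases a with _ | _ | _
  · -- star
    unfold bst
    rw [stars_up_star, virt_star hi]
    by_cases hinj : Set.InjOn τ (stars u : Set (Fin n))
    · rw [if_pos hinj]
      simp only [bstep]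
      by_cases hv : virt τ z u (τ i) = none
      · rw [if_pos hv, if_neg]
        intro hcon
        obtain ⟨j, hj, hji⟩ := virt_none.mp hv
        have : j = i := hcon (by simp [mem_stars, hj]) (by simp) hji
        subst this
        rw [hi] at hj
        exact absurd hj (by simp)
      · rw [if_neg hv, if_pos]
        rw [coe_insert, Set.injOn_insert (by simp [mem_stars, hi])]
        refine ⟨hinj, ?_⟩
        rintro ⟨j, hj, hji⟩
        exact hv (virt_none.mpr ⟨j, mem_stars.mp (mem_coe.mp hj), hji⟩)
    · rw [if_neg hinj]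
      simp only [bstep]
      rw [if_neg]
      intro hcon
      exact hinj (hcon.mono (by rw [coe_insert]; exact Set.subset_insert _ _))
  · -- false
    have h1 : Function.update u i (some false) = u := by
      rw [← hi, Function.update_eq_self]
    rw [h1]
    unfold bst
    by_cases hinj : Set.InjOn τ (stars u : Set (Fin n))
    · rw [if_pos hinj]
      simp only [bstep]
      congr 1
      have : (virt τ z u (τ i)).map (xor false) = virt τ z u (τ i) := by
        cases virt τ z u (τ i) <;> simp
      rw [this, Function.update_eq_self]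
    · rw [if_neg hinj]
      rfl
  · -- true
    unfold bst
    rw [hst, virt_true hi]
    by_cases hinj : Set.InjOn τ (stars u : Set (Fin n))
    · rw [if_pos hinj, if_pos hinj]
      rfl
    · rw [if_neg hinj, if_neg hinj]
      rfl

/-- the program computes `bst` -/
lemma bst_run (τ : Fin n → Fin m) (z : Fin m → Bool) (u : W n) :
    (List.finRange n).foldl (fun q i => bstep τ i (u i) q) (some fun r => some (z r)) =
      bst τ z u := by
  have key : ∀ (l : List (Fin n)) (v : W n), l.Nodup → (∀ i ∈ l, v i = some false) →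
      l.foldl (fun q i => bstep τ i (u i) q) (bst τ z v) =
        bst τ z (fun i => if i ∈ l then u i else v i) := by
    intro l
    induction l with
    | nil => intro v _ _; simp
    | cons i l ih =>
      intro v hnd hv
      rw [List.foldl_cons, ← bst_step (hv i (by simp)) (u i)]
      rw [List.nodup_cons] at hnd
      rw [ih _ hnd.2 ?_]
      · congr 1
        funext j
        by_cases hj : j ∈ l
        · simp [hj]
        · by_cases hji : j = i
          · subst hji; simp [hj]
          · simp [hj, hji]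
      · intro j hj
        have : j ≠ i := by
          rintro rfl
          exact hnd.1 hj
        rw [Function.update_of_ne this]
        exact hv j (by simp [hj])
  have h0 : bst τ z (fun _ : Fin n => some false) = some fun r => some (z r) := by
    unfold bst
    have h1 : stars (fun _ : Fin n => some false) = ∅ := by
      ext i; simp [mem_stars]
    rw [h1, if_pos (by simp)]
    congr 1
    funext r
    unfold virt par
    simp
  rw [← h0, key _ _ (List.nodup_finRange n) (fun _ _ => rfl)]
  congr 1
  funext i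
  simp

end blow

/-- For `2 ≤ l < d`: a program of width `3^m + 1` reaches the density of the best covering of `Q_m`
up to `(l choose 2) / m`. -/
theorem exists_blow {n m d l : ℕ} (hl : 2 ≤ l) (hld : l ≤ d) (hlm : l ≤ m) :
    ∃ P : Prog n (3 ^ m + 1), P.CoversL d l ∧
      (P.sizeL l : ℝ) ≤ (c m d l + (l.choose 2 : ℝ) / m) * (2 ^ (n - l) * (n.choose l : ℝ)) := by
  classical
  have hm : 0 < m := by omega
  obtain ⟨S₀, h₀, hc⟩ := exists_wcov_card_f (n := m) hld
  obtain ⟨p, hp1, hp2⟩ := exists_types (n := n) hm hlm h₀ (mcov_words hl hld)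
  obtain ⟨P, hP⟩ := exists_prog (n := n) (w := 3 ^ m + 1) (σ := Option (Fin m → Option Bool))
    (by simp) (some fun r => some (p.2 r)) (bstep p.1)
    (fun s => match s with
      | none => true
      | some v => decide (v ∈ S₀))
  have hacc : ∀ u : W n, P.Accepts u ↔
      (¬ Set.InjOn p.1 (stars u : Set (Fin n)) ∨ virt p.1 p.2 u ∈ S₀) := by
    intro u
    rw [hP, bst_run]
    unfold bst
    by_cases hinj : Set.InjOn p.1 (stars u : Set (Fin n))
    · simp [hinj]
    · simp [hinj]
  have hset : univ.filter (fun u : W n => dim u = l ∧ P.Accepts u) =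
      ((words n l).filter (fun w => virt p.1 p.2 w ∈ S₀))
      ∪ ((words n l).filter (fun w => ¬ Set.InjOn p.1 (stars w : Set (Fin n)))) := by
    ext u
    simp only [mem_filter, mem_univ, true_and, mem_union, mem_words, hacc, dim_eq]
    tauto
  refine ⟨P, ?_, ?_⟩
  · intro s hs
    obtain ⟨u, hu, hus⟩ := hp1.2 s hs
    rw [← hset, mem_filter] at hu
    exact ⟨u, hu.2.1, sub_iff.mpr hus, hu.2.2⟩
  · unfold Prog.sizeL
    rw [hset]
    refine hp2.trans ?_
    have h1 := one_sub_pin_le (l := l) hm
    have h2 := pin_le_one m l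
    have h3 : 0 ≤ c m d l := f_nonneg_c m d l
    have h4 := pin_nonneg m l
    have e2 : c m d l = S₀.card / (words m l).card := by
      unfold c; rw [card_words, hc]; push_cast; rfl
    have e3 : ((words n l).card : ℝ) = 2 ^ (n - l) * (n.choose l : ℝ) := by
      rw [card_words]; push_cast; ring
    rw [← e2, e3]
    have h5 : (0 : ℝ) ≤ 2 ^ (n - l) * (n.choose l : ℝ) := by positivity
    unfold pin at h1 h2 h4
    calc _ = ((m.descFactorial l / m ^ l : ℝ) * c m d l + (1 - (m.descFactorial l / m ^ l : ℝ)))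
          * (2 ^ (n - l) * (n.choose l : ℝ)) := by ring
      _ ≤ _ := by
        gcongr
        nlinarith

end Pool.Agent.Lib.MP_53850c_co.BW
end

section
/-!
# Covering `d`-subcubes by `l`-subcubes with programs of bounded width: the dichotomy
-/
set_option autoImplicit false

namespace Pool.Agent.Lib.MP_53850c_co.BW

open Finset Filter Topology Pool.Agent.Lib.MP_7c0edd_co.H21 Pool.Agent.Lib.MP_7c0edd_co.Blow

variable {n w : ℕ}

/-- the `l`-subcubes of `Q_n` whose words, read in the order `σ` of the coordinates, are accepted -/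
def Prog.family (P : Prog n w) (σ : Equiv.Perm (Fin n)) (l : ℕ) : Finset (Finset (Fin n → Bool)) :=
  ((words n l).filter fun u => P.Accepts (u ∘ σ)).image cube

/-- the least proportion of `l`-subcubes of `Q_n` in a `(d, l)`-covering set recognised by a read-once
program of width `w` (in some order of the coordinates) -/
noncomputable def cW (w n d l : ℕ) : ℝ :=
  sInf {x : ℝ | ∃ (P : Prog n w) (σ : Equiv.Perm (Fin n)), IsCovering n d l (P.family σ l) ∧
    x = ((P.family σ l).card : ℝ) / (2 ^ (n - l) * (n.choose l : ℝ))}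

lemma card_filter_compL (P : Prog n w) (σ : Equiv.Perm (Fin n)) (l : ℕ) :
    ((words n l).filter fun u => P.Accepts (u ∘ σ)).card = P.sizeL l := by
  unfold Prog.sizeL
  refine card_bij (fun u _ => u ∘ σ) ?_ ?_ ?_
  · intro u hu
    rw [mem_filter, mem_words] at hu
    rw [mem_filter]
    exact ⟨mem_univ _, by rw [dim_comp, dim_eq]; exact hu.1, hu.2⟩
  · intro u _ v _ h
    exact σ.surjective.injective_comp_right h
  · intro u hu
    rw [mem_filter] at hu
    refine ⟨u ∘ σ.symm, ?_, ?_⟩
    · rw [mem_filter, mem_words, ← dim_eq, dim_comp]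
      refine ⟨hu.2.1, ?_⟩
      have : (u ∘ σ.symm) ∘ σ = u := by
        funext j; simp
      rw [this]
      exact hu.2.2
    · funext j; simp

lemma family_card (P : Prog n w) (σ : Equiv.Perm (Fin n)) (l : ℕ) :
    (P.family σ l).card = P.sizeL l := by
  unfold Prog.family
  rw [card_image_of_injective _ cube_injective, card_filter_compL]

lemma family_cov (P : Prog n w) (σ : Equiv.Perm (Fin n)) (d l : ℕ) :
    IsCovering n d l (P.family σ l) ↔ P.CoversL d l := by
  constructor
  · intro h s hs
    obtain ⟨C, hC, hCs⟩ := h.2 (cube (s ∘ σ.symm)) (isSubcube_iff.mpr ⟨_, by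
      rw [← dim_eq, dim_comp]; exact hs, rfl⟩)
    unfold Prog.family at hC
    obtain ⟨u, hu, rfl⟩ := mem_image.mp hC
    rw [mem_filter, mem_words] at hu
    rw [cube_subset_iff] at hCs
    refine ⟨u ∘ σ, by rw [dim_comp]; exact hu.1, ?_, hu.2⟩
    rw [sub_iff]
    intro j
    have := hCs (σ j)
    simpa using this
  · intro h
    refine WCov.isCovering ⟨fun u hu => ?_, fun s hs => ?_⟩
    · rw [mem_filter, mem_words] at hu
      exact hu.1
    · obtain ⟨u, hu1, hu2, hu3⟩ := h (s ∘ σ) (by rw [dim_comp]; exact hs)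
      refine ⟨u ∘ σ.symm, ?_, ?_⟩
      · rw [mem_filter, mem_words, ← dim_eq, dim_comp]
        refine ⟨hu1, ?_⟩
        have : (u ∘ σ.symm) ∘ σ = u := by
          funext j; simp
        rw [this]
        exact hu3
      · rw [sub_iff] at hu2
        intro j
        have := hu2 (σ.symm j)
        simpa using this

/-- the set in the definition of `cW`, without the order -/
lemma cW_eq (w n d l : ℕ) : cW w n d l =
    sInf {x : ℝ | ∃ P : Prog n w, P.CoversL d l ∧
      x = (P.sizeL l : ℝ) / (2 ^ (n - l) * (n.choose l : ℝ))} := by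
  unfold cW
  congr 1
  ext x
  simp only [Set.mem_ofPred_eq, family_cov, family_card]
  constructor
  · rintro ⟨P, -, h, rfl⟩
    exact ⟨P, h, rfl⟩
  · rintro ⟨P, h, rfl⟩
    exact ⟨P, Equiv.refl _, h, rfl⟩

lemma cW_le {d l : ℕ} (P : Prog n w) (h : P.CoversL d l) {r : ℝ} (hln : l ≤ n)
    (hr : (P.sizeL l : ℝ) ≤ r * (2 ^ (n - l) * (n.choose l : ℝ))) : cW w n d l ≤ r := by
  rw [cW_eq]
  have hpos : (0 : ℝ) < 2 ^ (n - l) * (n.choose l : ℝ) := by
    have : (0 : ℝ) < n.choose l := by exact_mod_cast Nat.choose_pos hln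
    positivity
  have hb : BddBelow {x : ℝ | ∃ P : Prog n w, P.CoversL d l ∧
      x = (P.sizeL l : ℝ) / (2 ^ (n - l) * (n.choose l : ℝ))} := by
    refine ⟨0, ?_⟩
    rintro x ⟨P, -, rfl⟩
    positivity
  refine (csInf_le hb ⟨P, h, rfl⟩).trans ?_
  rw [div_le_iff₀ hpos]
  exact hr

lemma le_cW {d l : ℕ} {r : ℝ} (hln : l ≤ n)
    (hne : ∃ P : Prog n w, P.CoversL d l)
    (hr : ∀ P : Prog n w, P.CoversL d l → r * (2 ^ (n - l) * (n.choose l : ℝ)) ≤ P.sizeL l) :
    r ≤ cW w n d l := by
  rw [cW_eq]
  have hpos : (0 : ℝ) < 2 ^ (n - l) * (n.choose l : ℝ) := by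
    have : (0 : ℝ) < n.choose l := by exact_mod_cast Nat.choose_pos hln
    positivity
  obtain ⟨P₀, hP₀⟩ := hne
  refine le_csInf ⟨_, P₀, hP₀, rfl⟩ ?_
  rintro x ⟨P, hP, rfl⟩
  rw [le_div_iff₀ hpos]
  exact hr P hP

lemma exists_all {w : ℕ} (hw : 1 ≤ w) {d l : ℕ} (hld : l ≤ d) : ∃ P : Prog n w, P.CoversL d l := by
  refine ⟨⟨⟨0, hw⟩, fun _ _ _ => ⟨0, hw⟩, fun _ => true⟩, fun s hs => ?_⟩
  obtain ⟨u, hu, hus⟩ := (wcov_words (n := n) hld).2 s hs
  exact ⟨u, mem_words.mp hu, sub_iff.mpr hus, rfl⟩

/-- the true optimum is a lower bound -/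
lemma c_le_cW {d l : ℕ} (hw : 1 ≤ w) (hld : l ≤ d) (hln : l ≤ n) : c n d l ≤ cW w n d l := by
  refine le_cW hln (exists_all hw hld) fun P hP => ?_
  have hpos : (0 : ℝ) < 2 ^ (n - l) * (n.choose l : ℝ) := by
    have : (0 : ℝ) < n.choose l := by exact_mod_cast Nat.choose_pos hln
    positivity
  unfold c
  rw [div_mul_cancel₀ _ hpos.ne']
  have h := f_le_card (n := n) (d := d) (l := l)
    (S := (words n l).filter fun u => P.Accepts u) ⟨fun u hu => ?_, fun s hs => ?_⟩
  · have h2 : ((words n l).filter fun u => P.Accepts u).card = P.sizeL l := by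
      have := card_filter_compL P (Equiv.refl _) l
      simpa using this
    rw [h2] at h
    exact_mod_cast h
  · rw [mem_filter, mem_words] at hu
    exact hu.1
  · obtain ⟨u, hu1, hu2, hu3⟩ := hP s hs
    exact ⟨u, mem_filter.mpr ⟨mem_words.mpr hu1, hu3⟩, sub_iff.mp hu2⟩

/-! ### `l ≥ 2` -/

theorem dich_two {d l : ℕ} (hl : 2 ≤ l) (hld : l < d) {ε : ℝ} (hε : 0 < ε) :
    ∃ w₀, ∀ w, w₀ ≤ w → (∀ n, l ≤ n → cW w n d l ≤ cLim d l + ε) ∧
      ∀ᶠ n in atTop, |cW w n d l - cLim d l| < 2 * ε := by
  obtain ⟨m₀, hm₀⟩ := exists_nat_gt ((l.choose 2 : ℝ) / ε)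
  set m := max m₀ l with hm
  have hml : l ≤ m := le_max_right _ _
  have hm0 : (0 : ℝ) < m := by
    have : 0 < m := by omega
    exact_mod_cast this
  have hmε : (l.choose 2 : ℝ) / m ≤ ε := by
    rw [div_le_iff₀ hm0]
    rw [div_lt_iff₀ hε] at hm₀
    have : (m₀ : ℝ) ≤ m := by exact_mod_cast le_max_left _ _
    nlinarith
  refine ⟨3 ^ m + 1, fun w hw => ?_⟩
  have hup : ∀ n, l ≤ n → cW w n d l ≤ cLim d l + ε := by
    intro n hn
    obtain ⟨P, hP, hs⟩ := exists_blow (n := n) (d := d) hl hld.le hml
    have hacc : ∀ u, (P.widen hw).Accepts u ↔ P.Accepts u := accepts_widen P hw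
    refine cW_le (P.widen hw) ?_ hn ?_
    · intro s hs
      obtain ⟨u, h1, h2, h3⟩ := hP s hs
      exact ⟨u, h1, h2, (hacc u).mpr h3⟩
    · have h2 : (P.widen hw).sizeL l = P.sizeL l := by
        unfold Prog.sizeL
        congr 1
        ext u
        simp only [mem_filter, mem_univ, true_and, hacc u]
      rw [h2]
      refine hs.trans ?_
      have h3 : c m d l ≤ cLim d l := c_le_cLim hld.le m
      gcongr
  refine ⟨hup, ?_⟩
  have h1 := (tendsto_c hld.le).eventually (lt_mem_nhds (show cLim d l - ε < cLim d l by linarith))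
  filter_upwards [h1, eventually_ge_atTop l] with n hn hln
  have h2 := c_le_cW (w := w) ((Nat.le_add_left 1 _).trans hw) hld.le hln
  have h3 := hup n hln
  rw [abs_lt]
  constructor <;> linarith

/-! ### `l = 1` -/

lemma covers_iff (P : Prog n w) (d : ℕ) : P.CoversL d 1 ↔ P.Covers d := Iff.rfl

lemma sizeL_one (P : Prog n w) : P.sizeL 1 = P.size := rfl

theorem dich_one (hTop : SpecTop) (hProg : SpecProg) (hAKS : SpecAKS) {d w : ℕ} (hd : 1 ≤ d)
    (hw : d + 2 ≤ w) : Tendsto (fun n => cW w n d 1) atTop (𝓝 (1 / (B d : ℝ))) := by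
  have hB := B_pos hd
  have hB0 : (0 : ℝ) < B d := by exact_mod_cast hB
  have hN : ∀ n : ℕ, 1 ≤ n → (2 : ℝ) ^ (n - 1) * (n.choose 1 : ℝ) = (n : ℝ) * 2 ^ (n - 1) := by
    intro n _
    rw [Nat.choose_one_right]; ring
  have hup : ∀ n, 1 ≤ n → cW w n d 1 ≤ 1 / (B d : ℝ) := by
    intro n hn
    obtain ⟨P₀, hP₀, hs⟩ := hAKS d n hd
    have hacc : ∀ u, (P₀.widen hw).Accepts u ↔ P₀.Accepts u := accepts_widen P₀ hw
    refine cW_le (P₀.widen hw) ?_ hn ?_
    · intro s hs
      obtain ⟨u, h1, h2, h3⟩ := hP₀ s hs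
      exact ⟨u, h1, h2, (hacc u).mpr h3⟩
    · have h2 : (P₀.widen hw).sizeL 1 = P₀.size := by
        unfold Prog.sizeL Prog.size
        congr 1
        ext u
        simp only [mem_filter, mem_univ, true_and, hacc u]
      rw [h2, hN n hn, div_mul_eq_mul_div, one_mul, le_div_iff₀ hB0, mul_comm]
      exact_mod_cast hs
  rw [Metric.tendsto_atTop]
  intro ε hε
  obtain ⟨n₀, hn₀⟩ := size_ge hTop hProg w d hd (ε / 2) (by positivity)
  refine ⟨max n₀ 1, fun n hn => ?_⟩
  have hn1 : 1 ≤ n := (le_max_right _ _).trans hn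
  have h1 := hup n hn1
  have h2 : 1 / (B d : ℝ) - ε / 2 ≤ cW w n d 1 := by
    refine le_cW hn1 (exists_all (by omega) hd) fun P hP => ?_
    rw [hN n hn1]
    exact hn₀ n ((le_max_left _ _).trans hn) P hP
  rw [Real.dist_eq, abs_lt]
  constructor <;> linarith

/-! ### `l = 0` -/

theorem dich_zero (hTop : SpecTop0) (hProg : SpecProg0) (hAKS : SpecAKS0) {d w : ℕ} (hd : 1 ≤ d)
    (hw : d + 1 ≤ w) : Tendsto (fun n => cW w n d 0) atTop (𝓝 (1 / ((d : ℝ) + 1))) := by
  have hd0 : (0 : ℝ) < (d : ℝ) + 1 := by positivity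
  have hN : ∀ n : ℕ, (2 : ℝ) ^ (n - 0) * (n.choose 0 : ℝ) = 2 ^ n := by
    intro n
    simp
  have hup : ∀ n, cW w n d 0 ≤ 1 / ((d : ℝ) + 1) := by
    intro n
    obtain ⟨P₀, hP₀, hs⟩ := hAKS d n
    have hacc : ∀ u, (P₀.widen hw).Accepts u ↔ P₀.Accepts u := accepts_widen P₀ hw
    refine cW_le (P₀.widen hw) ?_ (Nat.zero_le n) ?_
    · intro s hs
      obtain ⟨u, h1, h2, h3⟩ := hP₀ s hs
      exact ⟨u, h1, h2, (hacc u).mpr h3⟩
    · have h2 : (P₀.widen hw).sizeL 0 = P₀.sizeL 0 := by
        unfold Prog.sizeL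
        congr 1
        ext u
        simp only [mem_filter, mem_univ, true_and, hacc u]
      rw [h2, hN n, div_mul_eq_mul_div, one_mul, le_div_iff₀ hd0, mul_comm]
      exact_mod_cast hs
  rw [Metric.tendsto_atTop]
  intro ε hε
  obtain ⟨M, _, _, hM⟩ := hProg w
  obtain ⟨n₀, hn₀⟩ := hTop M d (ε / 2) hd (by positivity)
  refine ⟨n₀, fun n hn => ?_⟩
  have h1 := hup n
  have h2 : 1 / ((d : ℝ) + 1) - ε / 2 ≤ cW w n d 0 := by
    refine le_cW (Nat.zero_le n) (exists_all (by omega) (Nat.zero_le d)) fun P hP => ?_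
    obtain ⟨α, ψ, h3, h4⟩ := hM n P
    rw [hN n, h4]
    have h5 := hn₀ n hn α ψ (h3 d hd hP)
    gcongr
  rw [Real.dist_eq, abs_lt]
  constructor <;> linarith

end Pool.Agent.Lib.MP_53850c_co.BW
end
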