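import Pool.Agent.Lib.MP_53850c_co.BW.Defs
import Pool.Agent.Lib.MP_53850c_co.FS.Torus
import Pool.Agent.Lib.MP_53850c_co.BW.Side

section
/-!
# SpecFibre: a group inside `V` and the fibre inequality
-/
namespace Pool.Agent.Lib.MP_53850c_co.BW

open Finset

namespace H39

/-! ### Idempotents of finite semigroups -/

theorem semigroup_idem {S : Type*} [Semigroup S] [Finite S] [Nonempty S] :
    ∃ e : S, e * e = e ∧ ∀ a : S, e * a = a → a * e = a →
      ∃ b : S, e * b = b ∧ b * e = b ∧ a * b = e ∧ b * a = e := by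
  have hfin : Finite (WithOne S) := inferInstanceAs (Finite (Option S))
  obtain ⟨e, he, hgrp⟩ := MP53850c.FS.exists_group_idem (M := WithOne S)
  have hne : ∀ a b : S, (a : WithOne S) * (b : WithOne S) ≠ 1 := by
    intro a b
    rw [← WithOne.coe_mul]
    exact WithOne.coe_ne_one
  have he1 : e ≠ 1 := by
    rintro rfl
    obtain ⟨a⟩ := ‹Nonempty S›
    obtain ⟨b, -, -, hab, -⟩ := hgrp (a : WithOne S) (one_mul _) (mul_one _)
    rcases eq_or_ne b 1 with rfl | hb
    · rw [mul_one] at hab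
      exact WithOne.coe_ne_one hab
    · obtain ⟨b, rfl⟩ := WithOne.ne_one_iff_exists.mp hb
      exact hne a b hab
  obtain ⟨e, rfl⟩ := WithOne.ne_one_iff_exists.mp he1
  refine ⟨e, by rw [← WithOne.coe_mul] at he; exact WithOne.coe_inj.mp he, fun a ha1 ha2 => ?_⟩
  obtain ⟨b, hb1, hb2, hab, hba⟩ := hgrp (a : WithOne S) (by rw [← WithOne.coe_mul, ha1])
    (by rw [← WithOne.coe_mul, ha2])
  have hb : b ≠ 1 := by
    rintro rfl
    rw [mul_one] at hb1
    exact he1 hb1
  obtain ⟨b, rfl⟩ := WithOne.ne_one_iff_exists.mp hb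
  refine ⟨b, ?_, ?_, ?_, ?_⟩
  · rw [← WithOne.coe_mul] at hb1; exact WithOne.coe_inj.mp hb1
  · rw [← WithOne.coe_mul] at hb2; exact WithOne.coe_inj.mp hb2
  · rw [← WithOne.coe_mul] at hab; exact WithOne.coe_inj.mp hab
  · rw [← WithOne.coe_mul] at hba; exact WithOne.coe_inj.mp hba

/-- The group with product `x A₀ y` inside a set closed under this product. -/
theorem exists_group {M : Type} [Monoid M] [Finite M] (A₀ : M) (V : Set M) (hne : V.Nonempty)
    (hV : ∀ u ∈ V, ∀ v ∈ V, u * A₀ * v ∈ V) :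
    ∃ (G : Type) (_ : Group G) (_ : Finite G) (ι : G → M), Function.Injective ι ∧
      (∀ x, ι x ∈ V) ∧ (∀ x y, ι (x * y) = ι x * A₀ * ι y) ∧
      ∀ v ∈ V, ι 1 * A₀ * v = v → v * A₀ * ι 1 = v → ∃ x, ι x = v := by
  classical
  let _ : Semigroup V :=
    { mul := fun x y => ⟨x.1 * A₀ * y.1, hV x.1 x.2 y.1 y.2⟩
      mul_assoc := fun x y z => Subtype.ext (by
        show x.1 * A₀ * y.1 * A₀ * z.1 = x.1 * A₀ * (y.1 * A₀ * z.1)
        simp only [mul_assoc]) }
  have hmul : ∀ x y : V, (x * y).1 = x.1 * A₀ * y.1 := fun _ _ => rfl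
  have : Nonempty V := hne.to_subtype
  obtain ⟨e, he, hinv⟩ := semigroup_idem (S := V)
  choose! inv h1 h2 h3 h4 using hinv
  let _ : Group {x : V // e * x = x ∧ x * e = x} :=
    { mul := fun x y => ⟨x.1 * y.1, by rw [← mul_assoc, x.2.1], by rw [mul_assoc, y.2.2]⟩
      mul_assoc := fun x y z => Subtype.ext (mul_assoc _ _ _)
      one := ⟨e, he, he⟩
      one_mul := fun x => Subtype.ext x.2.1
      mul_one := fun x => Subtype.ext x.2.2
      inv := fun x => ⟨inv x.1, h1 x.1 x.2.1 x.2.2, h2 x.1 x.2.1 x.2.2⟩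
      inv_mul_cancel := fun x => Subtype.ext (h4 x.1 x.2.1 x.2.2) }
  refine ⟨{x : V // e * x = x ∧ x * e = x}, inferInstance, inferInstance, fun x => x.1.1, ?_, ?_,
    ?_, ?_⟩
  · intro x y hxy
    exact Subtype.ext (Subtype.ext hxy)
  · intro x
    exact x.1.2
  · intro x y
    rfl
  · intro v hv hv1 hv2
    exact ⟨⟨⟨v, hv⟩, Subtype.ext hv1, Subtype.ext hv2⟩, rfl⟩

/-! ### The group inequality -/

section grp

variable {G : Type} [Group G]

/-- powers with exponents modulo `m` -/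
def pw {m : ℕ} (γ : G) (a : ZMod m) : G := γ ^ a.val

variable {m : ℕ} [NeZero m]

omit [NeZero m] in
lemma pow_mod' {γ : G} (hγ : γ ^ m = 1) (n : ℕ) : γ ^ (n % m) = γ ^ n := by
  conv_rhs => rw [← Nat.div_add_mod n m, pow_add, pow_mul, hγ, one_pow, one_mul]

lemma pw_add {γ : G} (hγ : γ ^ m = 1) (a b : ZMod m) : pw γ (a + b) = pw γ a * pw γ b := by
  unfold pw
  rw [ZMod.val_add, pow_mod' hγ, pow_add]

omit [NeZero m] in
lemma pw_natCast {γ : G} (hγ : γ ^ m = 1) (n : ℕ) : pw γ (n : ZMod m) = γ ^ n := by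
  unfold pw
  rw [ZMod.val_natCast, pow_mod' hγ]

omit [NeZero m] in
lemma pw_zero (γ : G) : pw γ (0 : ZMod m) = 1 := by
  unfold pw
  simp

theorem avg [Fintype G] {γ δ : G} (R : G → G → Prop) (d : ℕ)
    (h : ∀ g h : G, ∀ (c : ZMod m) (L : ℕ → ZMod m), ∃ i < d, ∃ p ≤ i, ∃ q < d - i,
      R (g * pw γ (L i + (p : ZMod m))) (pw δ (c - L i + (q : ZMod m)) * h)) :
    Fintype.card G ^ 2 ≤ B d * {x : G × G | R x.1 x.2}.ncard := by
  classical
  have h0 : {x : G × G | R x.1 x.2}.ncard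
      = (univ.filter (fun x : G × G => R x.1 x.2)).card := by
    rw [← Set.ncard_coe_finset]
    congr 1
    ext x
    simp
  rw [h0]
  have key : ∀ x : G × G, m ^ 2 ≤ (univ.filter (fun y : ZMod m × ZMod m =>
      R (x.1 * pw γ y.1) (pw δ y.2 * x.2))).card * ((d + 1) ^ 2 / 4) := by
    intro x
    refine FS.torus' (fun a b => R (x.1 * pw γ a) (pw δ b * x.2)) (fun c L => ?_)
    obtain ⟨i, hi, p, hp, q, hq, hR⟩ := h x.1 x.2 c (fun j => if hj : j < d then L ⟨j, hj⟩ else 0)
    refine ⟨⟨i, hi⟩, p, hp, q, hq, ?_⟩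
    simpa only [hi, dif_pos] using hR
  have hsum := Finset.sum_le_sum (fun x (_ : x ∈ (univ : Finset (G × G))) => key x)
  rw [← Finset.sum_mul, Finset.sum_const, Finset.card_univ, Fintype.card_prod, smul_eq_mul] at hsum
  have hswap : ∑ x : G × G, (univ.filter (fun y : ZMod m × ZMod m =>
      R (x.1 * pw γ y.1) (pw δ y.2 * x.2))).card
      = ∑ y : ZMod m × ZMod m, (univ.filter (fun x : G × G =>
      R (x.1 * pw γ y.1) (pw δ y.2 * x.2))).card :=
    sum_card_bipartiteAbove_eq_sum_card_bipartiteBelow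
      (fun (x : G × G) (y : ZMod m × ZMod m) => R (x.1 * pw γ y.1) (pw δ y.2 * x.2))
  have hconst : ∀ y : ZMod m × ZMod m, (univ.filter (fun x : G × G =>
      R (x.1 * pw γ y.1) (pw δ y.2 * x.2))).card
      = (univ.filter (fun x : G × G => R x.1 x.2)).card := by
    intro y
    refine Finset.card_bij (fun x _ => (x.1 * pw γ y.1, pw δ y.2 * x.2)) ?_ ?_ ?_
    · intro x hx
      rw [mem_filter] at hx ⊢
      exact ⟨mem_univ _, hx.2⟩
    · intro x _ x' _ hxx
      rw [Prod.mk.injEq] at hxx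
      exact Prod.ext (mul_right_cancel hxx.1) (mul_left_cancel hxx.2)
    · intro x hx
      rw [mem_filter] at hx
      refine ⟨(x.1 * (pw γ y.1)⁻¹, (pw δ y.2)⁻¹ * x.2), ?_, ?_⟩
      · rw [mem_filter]
        refine ⟨mem_univ _, ?_⟩
        simpa using hx.2
      · simp
  rw [hswap, Finset.sum_congr rfl (fun y _ => hconst y), Finset.sum_const, Finset.card_univ,
    Fintype.card_prod, ZMod.card, smul_eq_mul] at hsum
  have hm : 0 < m * m := Nat.mul_pos (NeZero.pos m) (NeZero.pos m)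
  unfold B
  refine Nat.le_of_mul_le_mul_left ?_ hm
  calc m * m * Fintype.card G ^ 2 = Fintype.card G * Fintype.card G * m ^ 2 := by ring
    _ ≤ m * m * (univ.filter (fun x : G × G => R x.1 x.2)).card * ((d + 1) ^ 2 / 4) := hsum
    _ = m * m * ((d + 1) ^ 2 / 4 * (univ.filter (fun x : G × G => R x.1 x.2)).card) := by ring

/-- the gap values -/
def kk (α β g h : G) (c : ZMod m) (L : ℕ → ZMod m) (d : ℕ) (i : ℕ) : G :=
  if i = 0 then g * pw (β * α⁻¹) (L 0)
  else if i = d then pw (α⁻¹ * β) (c - L (d - 1)) * h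
  else α⁻¹ * pw (β * α⁻¹) (L i - L (i - 1))

/-- number of ones -/
def ones (b : ℕ → Bool) : ℕ → ℕ → ℕ
  | _, 0 => 0
  | s, k + 1 => (if b s then 1 else 0) + ones b (s + 1) k

lemma ones_le (b : ℕ → Bool) : ∀ k s, ones b s k ≤ k := by
  intro k
  induction k with
  | zero => intro s; exact le_rfl
  | succ k ih =>
    intro s
    have := ih (s + 1)
    unfold ones
    split <;> omega

variable {α β : G}

lemma T_eq_left (T : Bool → G) (b : Bool) :
    T b = (T true * (T false)⁻¹) ^ (if b then 1 else 0) * T false := by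
  cases b <;> simp

lemma T_eq_right (T : Bool → G) (b : Bool) :
    (T false)⁻¹ * T b = ((T false)⁻¹ * T true) ^ (if b then 1 else 0) := by
  cases b <;> simp

lemma pre_kk (T : Bool → G) (g h : G) (c : ZMod m) (L : ℕ → ZMod m) (d : ℕ) (b : ℕ → Bool)
    (hγ : (T true * (T false)⁻¹) ^ m = 1) :
    ∀ j, j < d → ∃ p ≤ j, pre (kk (T false) (T true) g h c L d) (fun i => T (b i)) j
      = g * pw (T true * (T false)⁻¹) (L j + (p : ZMod m)) := by
  intro j
  induction j with
  | zero =>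
    intro _
    exact ⟨0, le_rfl, by simp [pre, kk]⟩
  | succ j ih =>
    intro hj
    obtain ⟨p, hp, hpre⟩ := ih (by omega)
    refine ⟨p + if b j then 1 else 0, by split <;> omega, ?_⟩
    have hk : kk (T false) (T true) g h c L d (j + 1)
        = (T false)⁻¹ * pw (T true * (T false)⁻¹) (L (j + 1) - L j) := by
      unfold kk
      rw [if_neg (by omega), if_neg (by omega)]
      rfl
    rw [pre, hpre, hk]
    have h1 : (g * pw (T true * (T false)⁻¹) (L j + (p : ZMod m))) * T (b j) *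
        ((T false)⁻¹ * pw (T true * (T false)⁻¹) (L (j + 1) - L j))
        = g * (pw (T true * (T false)⁻¹) (L j + (p : ZMod m)) *
          (T true * (T false)⁻¹) ^ (if b j then 1 else 0) *
          pw (T true * (T false)⁻¹) (L (j + 1) - L j)) := by
      rw [T_eq_left T (b j)]
      simp only [mul_assoc, mul_inv_cancel_left]
    rw [h1, ← pw_natCast hγ, ← pw_add hγ, ← pw_add hγ]
    congr 2
    push_cast
    ring

omit [NeZero m] in
lemma conj_pw (α β : G) (a : ZMod m) :
    α⁻¹ * pw (β * α⁻¹) a = pw (α⁻¹ * β) a * α⁻¹ := by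
  unfold pw
  generalize a.val = n
  induction n with
  | zero => simp
  | succ n ih =>
    rw [pow_succ, pow_succ, ← mul_assoc, ih]
    simp only [mul_assoc]

lemma suf_kk (T : Bool → G) (g h : G) (c : ZMod m) (L : ℕ → ZMod m) (d : ℕ) (b : ℕ → Bool)
    (hδ : ((T false)⁻¹ * T true) ^ m = 1) :
    ∀ r j, j + 1 + r = d → ∃ q ≤ r, suf (kk (T false) (T true) g h c L d) (fun i => T (b i)) (j + 1) r
      = pw ((T false)⁻¹ * T true) (c - L j + (q : ZMod m)) * h := by
  intro r
  induction r with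
  | zero =>
    intro j hj
    refine ⟨0, le_rfl, ?_⟩
    subst hj
    simp [suf, kk]
  | succ r ih =>
    intro j hj
    obtain ⟨q, hq, hsuf⟩ := ih (j + 1) (by omega)
    refine ⟨q + if b (j + 1) then 1 else 0, by split <;> omega, ?_⟩
    have hk : kk (T false) (T true) g h c L d (j + 1)
        = (T false)⁻¹ * pw (T true * (T false)⁻¹) (L (j + 1) - L j) := by
      unfold kk
      rw [if_neg (by omega), if_neg (by omega)]
      rfl
    rw [suf, hsuf, hk, conj_pw]
    have h1 : pw ((T false)⁻¹ * T true) (L (j + 1) - L j) * (T false)⁻¹ * T (b (j + 1)) *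
        (pw ((T false)⁻¹ * T true) (c - L (j + 1) + (q : ZMod m)) * h)
        = (pw ((T false)⁻¹ * T true) (L (j + 1) - L j) *
          ((T false)⁻¹ * T true) ^ (if b (j + 1) then 1 else 0) *
          pw ((T false)⁻¹ * T true) (c - L (j + 1) + (q : ZMod m))) * h := by
      rw [← T_eq_right T (b (j + 1))]
      simp only [mul_assoc]
    rw [h1, ← pw_natCast hδ, ← pw_add hδ, ← pw_add hδ]
    congr 2
    push_cast
    ring

end grp

section values

variable {M G : Type} [Monoid M] [Group G] {ι : G → M} {A₀ : M}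

lemma bridge (hι : ∀ x y, ι (x * y) = ι x * A₀ * ι y) {P Q a : M} {t : G}
    (ht : ι t = ι 1 * P * a * Q * ι 1) (x y : G) :
    ι x * P * a * (Q * ι y) = ι (x * t * y) := by
  have h1 : ι x = ι x * A₀ * ι 1 := by rw [← hι, mul_one]
  have h2 : ι y = ι 1 * A₀ * ι y := by rw [← hι, one_mul]
  calc ι x * P * a * (Q * ι y) = (ι x * A₀ * ι 1) * P * a * (Q * (ι 1 * A₀ * ι y)) := by
        rw [← h1, ← h2]
    _ = ι x * A₀ * (ι 1 * P * a * Q * ι 1) * A₀ * ι y := by simp only [mul_assoc]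
    _ = ι (x * t * y) := by rw [← ht, hι, hι]

lemma pre_val (hι : ∀ x y, ι (x * y) = ι x * A₀ * ι y) {A : Bool → M} {P Q U : M} {T : Bool → G}
    (hT : ∀ c, ι (T c) = ι 1 * P * A c * Q * ι 1) (d : ℕ) (k : ℕ → G) (z : ℕ → M) (b : ℕ → Bool)
    (h0 : z 0 = U * ι (k 0) * P) (hi : ∀ i, i + 1 < d → z (i + 1) = Q * ι (k (i + 1)) * P) :
    ∀ j, j < d → pre z (fun i => A (b i)) j = U * ι (pre k (fun i => T (b i)) j) * P := by
  intro j
  induction j with
  | zero => intro _; exact h0
  | succ j ih =>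
    intro hj
    rw [pre, ih (by omega), hi j (by omega), pre, ← bridge hι (hT (b j))]
    simp only [mul_assoc]

lemma suf_val (hι : ∀ x y, ι (x * y) = ι x * A₀ * ι y) {A : Bool → M} {P Q W : M} {T : Bool → G}
    (hT : ∀ c, ι (T c) = ι 1 * P * A c * Q * ι 1) (d : ℕ) (k : ℕ → G) (z : ℕ → M) (b : ℕ → Bool)
    (hi : ∀ i, i + 1 < d → z (i + 1) = Q * ι (k (i + 1)) * P) (hd : z d = Q * ι (k d) * W) :
    ∀ r j, j + 1 + r = d → suf z (fun i => A (b i)) (j + 1) r
      = Q * ι (suf k (fun i => T (b i)) (j + 1) r) * W := by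
  intro r
  induction r with
  | zero =>
    intro j hj
    have : j + 1 = d := by omega
    rw [suf, suf, this, hd]
  | succ r ih =>
    intro j hj
    rw [suf, ih (j + 1) (by omega), hi j (by omega), suf, ← bridge hι (hT (b (j + 1)))]
    simp only [mul_assoc]

end values

end H39

open H39 in
/-- GROUP + FIBRE -/
theorem specFibre : SpecFibre := by
  classical
  intro M _ _ A V hne hcl
  obtain ⟨G, _, _, ι, hinj, hιV, hι, hsurj⟩ := exists_group (A false) V hne
    (fun u hu v hv => hcl u hu v hv false)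
  have : Fintype G := Fintype.ofFinite G
  refine ⟨Set.range ι, ⟨ι 1, 1, rfl⟩, ?_, ?_⟩
  · rintro _ ⟨x, rfl⟩
    exact hιV x
  intro F d U W P Q hd hP hQ hcov
  obtain ⟨c₁, v₁, hv₁, rfl⟩ := hP
  obtain ⟨v₂, hv₂, c₂, rfl⟩ := hQ
  have hee : ι 1 * A false * ι 1 = ι 1 := by rw [← hι, mul_one]
  have hT : ∀ c, ∃ t : G, ι t = ι 1 * (A c₁ * v₁) * A c * (v₂ * A c₂) * ι 1 := by
    intro c
    refine hsurj _ ?_ ?_ ?_
    · have h1 := hcl _ (hιV 1) _ hv₁ c₁
      have h2 := hcl _ h1 _ hv₂ c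
      have h3 := hcl _ h2 _ (hιV 1) c₂
      convert h3 using 1
      simp only [mul_assoc]
    · simp only [← mul_assoc]
      rw [hee]
    · calc ι 1 * (A c₁ * v₁) * A c * (v₂ * A c₂) * ι 1 * A false * ι 1
          = ι 1 * (A c₁ * v₁) * A c * (v₂ * A c₂) * (ι 1 * A false * ι 1) := by
            simp only [mul_assoc]
        _ = _ := by rw [hee]
  choose T hT using hT
  have : NeZero (Fintype.card G) := ⟨Fintype.card_ne_zero⟩
  have hpow : ∀ x : G, x ^ Fintype.card G = 1 := fun x => pow_card_eq_one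
  have hmain := avg (G := G) (m := Fintype.card G) (γ := T true * (T false)⁻¹)
    (δ := (T false)⁻¹ * T true)
    (fun x y => F (U * ι x * (A c₁ * v₁)) (v₂ * A c₂ * ι y * W)) d (fun g h c L => by
      obtain ⟨z, hz0, hzi, hzd⟩ : ∃ z : ℕ → M,
          z 0 = U * ι (kk (T false) (T true) g h c L d 0) * (A c₁ * v₁) ∧
          (∀ i, i + 1 < d → z (i + 1) = v₂ * A c₂ * ι (kk (T false) (T true) g h c L d (i + 1)) *
            (A c₁ * v₁)) ∧
          z d = v₂ * A c₂ * ι (kk (T false) (T true) g h c L d d) * W := by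
        refine ⟨fun i => if i = 0 then U * ι (kk (T false) (T true) g h c L d 0) * (A c₁ * v₁)
          else if i = d then v₂ * A c₂ * ι (kk (T false) (T true) g h c L d d) * W
          else v₂ * A c₂ * ι (kk (T false) (T true) g h c L d i) * (A c₁ * v₁), by simp, ?_, ?_⟩
        · intro i hi
          simp only
          rw [if_neg (by omega), if_neg (by omega)]
        · simp only
          rw [if_neg (by omega), if_pos trivial]
      obtain ⟨j, hj, b, hF⟩ := hcov (fun i => ι (kk (T false) (T true) g h c L d i)) z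
        (fun i => ⟨_, rfl⟩) hz0 hzi hzd
      obtain ⟨p, hp, hpre⟩ := pre_kk (m := Fintype.card G) T g h c L d b (hpow _) j hj
      obtain ⟨q, hq, hsuf⟩ := suf_kk (m := Fintype.card G) T g h c L d b (hpow _) (d - 1 - j) j
        (by omega)
      refine ⟨j, hj, p, hp, q, by omega, ?_⟩
      rw [pre_val hι hT d (kk (T false) (T true) g h c L d) z b hz0 hzi j hj,
        suf_val hι hT d (kk (T false) (T true) g h c L d) z b hzi hzd (d - 1 - j) j (by omega),
        hpre, hsuf] at hF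
      exact hF)
  have hcard : (Set.range ι).ncard = Fintype.card G := by
    rw [← Set.image_univ, Set.ncard_image_of_injective _ hinj, Set.ncard_univ, Nat.card_eq_fintype_card]
  have hcard2 : {p : M × M | p.1 ∈ Set.range ι ∧ p.2 ∈ Set.range ι ∧
      F (U * p.1 * (A c₁ * v₁)) (v₂ * A c₂ * p.2 * W)}.ncard
      = {x : G × G | F (U * ι x.1 * (A c₁ * v₁)) (v₂ * A c₂ * ι x.2 * W)}.ncard := by
    have : {p : M × M | p.1 ∈ Set.range ι ∧ p.2 ∈ Set.range ι ∧
      F (U * p.1 * (A c₁ * v₁)) (v₂ * A c₂ * p.2 * W)}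
      = (fun x : G × G => (ι x.1, ι x.2)) ''
        {x : G × G | F (U * ι x.1 * (A c₁ * v₁)) (v₂ * A c₂ * ι x.2 * W)} := by
      ext p
      constructor
      · rintro ⟨⟨x, hx⟩, ⟨y, hy⟩, hF⟩
        refine ⟨(x, y), ?_, Prod.ext hx hy⟩
        show F _ _
        rw [hx, hy]
        exact hF
      · rintro ⟨x, hF, rfl⟩
        exact ⟨⟨x.1, rfl⟩, ⟨x.2, rfl⟩, hF⟩
    rw [this, Set.ncard_image_of_injective]
    intro x y hxy
    rw [Prod.mk.injEq] at hxy
    exact Prod.ext (hinj hxy.1) (hinj hxy.2)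
  rw [hcard, hcard2]
  exact hmain

end Pool.Agent.Lib.MP_53850c_co.BW
end

section
/-!
# SpecFibre0: the fibre inequality for vertices
-/
namespace Pool.Agent.Lib.MP_53850c_co.BW

open Finset

namespace H39

section grp

variable {G : Type} [Group G]

/-- the gap values -/
def k0 (α x : G) (i : ℕ) : G := if i = 0 then x else α⁻¹

lemma pre_k0 (T : Bool → G) (x : G) (b : ℕ → Bool) :
    ∀ j, ∃ p ≤ j, pre (k0 (T false) x) (fun i => T (b i)) j = x * (T true * (T false)⁻¹) ^ p := by
  intro j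
  induction j with
  | zero => exact ⟨0, le_rfl, by simp [pre, k0]⟩
  | succ j ih =>
    obtain ⟨p, hp, hpre⟩ := ih
    refine ⟨p + if b j then 1 else 0, by split <;> omega, ?_⟩
    have hk : k0 (T false) x (j + 1) = (T false)⁻¹ := by
      unfold k0
      rw [if_neg (by omega)]
    rw [pre, hpre, hk, T_eq_left T (b j), pow_add]
    simp only [mul_assoc, mul_inv_cancel, mul_one]

theorem cover_card [Fintype G] (γ : G) (S : G → Prop) (d : ℕ) (h : ∀ x : G, ∃ p ≤ d, S (x * γ ^ p)) :
    Fintype.card G ≤ (d + 1) * {x : G | S x}.ncard := by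
  classical
  have h0 : {x : G | S x}.ncard = (univ.filter (fun x : G => S x)).card := by
    rw [← Set.ncard_coe_finset]
    congr 1
    ext x
    simp
  rw [h0]
  calc Fintype.card G = ∑ _x : G, 1 := by simp
    _ ≤ ∑ x : G, ((range (d + 1)).filter (fun p => S (x * γ ^ p))).card := by
        refine sum_le_sum (fun x _ => ?_)
        obtain ⟨p, hp, hS⟩ := h x
        exact card_pos.mpr ⟨p, by rw [mem_filter, mem_range]; exact ⟨by omega, hS⟩⟩
    _ = ∑ p ∈ range (d + 1), (univ.filter (fun x : G => S (x * γ ^ p))).card :=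
        sum_card_bipartiteAbove_eq_sum_card_bipartiteBelow (fun (x : G) (p : ℕ) => S (x * γ ^ p))
    _ ≤ ∑ _p ∈ range (d + 1), (univ.filter (fun x : G => S x)).card := by
        refine sum_le_sum (fun p _ => ?_)
        refine card_le_card_of_injOn (fun x : G => x * γ ^ p) ?_ ?_
        · intro x hx
          rw [mem_coe, mem_filter] at hx
          rw [mem_coe, mem_filter]
          exact ⟨mem_univ _, hx.2⟩
        · intro x _ x' _ hxx
          exact mul_right_cancel hxx
    _ = (d + 1) * (univ.filter (fun x : G => S x)).card := by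
        rw [sum_const, card_range, smul_eq_mul]

theorem card_pairs [Fintype G] (t : G) (S : G → Prop) :
    {p : G × G | S (p.1 * t * p.2)}.ncard = Fintype.card G * {x : G | S x}.ncard := by
  classical
  have h1 : {p : G × G | S (p.1 * t * p.2)}
      = (fun p : G × G => (p.1, (p.1 * t)⁻¹ * p.2)) '' (Set.univ ×ˢ {x : G | S x}) := by
    ext p
    constructor
    · intro hp
      refine ⟨(p.1, p.1 * t * p.2), ⟨Set.mem_univ _, hp⟩, ?_⟩
      exact Prod.ext rfl (inv_mul_cancel_left _ _)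
    · rintro ⟨q, ⟨-, hq⟩, rfl⟩
      show S _
      have : q.1 * t * ((q.1 * t)⁻¹ * q.2) = q.2 := mul_inv_cancel_left _ _
      simp only
      rw [this]
      exact hq
  rw [h1, Set.ncard_image_of_injective, Set.ncard_prod, Set.ncard_univ, Nat.card_eq_fintype_card]
  rintro ⟨a, b⟩ ⟨a', b'⟩ hab
  simp only [Prod.mk.injEq] at hab
  obtain ⟨rfl, h2⟩ := hab
  rw [mul_left_cancel h2]

end grp

end H39

open H39 in
/-- FIBRE for vertices -/
theorem specFibre0 : SpecFibre0 := by
  classical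
  intro M _ _ A V hne hcl
  obtain ⟨G, _, _, ι, hinj, hιV, hι, hsurj⟩ := exists_group (A false) V hne
    (fun u hu v hv => hcl u hu v hv false)
  have : Fintype G := Fintype.ofFinite G
  refine ⟨Set.range ι, ⟨ι 1, 1, rfl⟩, ?_, ?_⟩
  · rintro _ ⟨x, rfl⟩
    exact hιV x
  intro ψ d U W P Q c hd hP hQ hcov
  obtain ⟨c₁, v₁, hv₁, rfl⟩ := hP
  obtain ⟨v₂, hv₂, c₂, rfl⟩ := hQ
  have hee : ι 1 * A false * ι 1 = ι 1 := by rw [← hι, mul_one]
  have hT : ∀ c, ∃ t : G, ι t = ι 1 * (A c₁ * v₁) * A c * (v₂ * A c₂) * ι 1 := by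
    intro c
    refine hsurj _ ?_ ?_ ?_
    · have h1 := hcl _ (hιV 1) _ hv₁ c₁
      have h2 := hcl _ h1 _ hv₂ c
      have h3 := hcl _ h2 _ (hιV 1) c₂
      convert h3 using 1
      simp only [mul_assoc]
    · simp only [← mul_assoc]
      rw [hee]
    · calc ι 1 * (A c₁ * v₁) * A c * (v₂ * A c₂) * ι 1 * A false * ι 1
          = ι 1 * (A c₁ * v₁) * A c * (v₂ * A c₂) * (ι 1 * A false * ι 1) := by
            simp only [mul_assoc]
        _ = _ := by rw [hee]
  choose T hT using hT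
  have hmain := cover_card (G := G) (T true * (T false)⁻¹) (fun x => ψ (U * ι x * W)) d
    (fun x => by
      obtain ⟨z, hz0, hzi, hzd⟩ : ∃ z : ℕ → M,
          z 0 = U * ι (k0 (T false) x 0) * (A c₁ * v₁) ∧
          (∀ i, i + 1 < d → z (i + 1) = v₂ * A c₂ * ι (k0 (T false) x (i + 1)) *
            (A c₁ * v₁)) ∧
          z d = v₂ * A c₂ * ι (k0 (T false) x d) * W := by
        refine ⟨fun i => if i = 0 then U * ι (k0 (T false) x 0) * (A c₁ * v₁)
          else if i = d then v₂ * A c₂ * ι (k0 (T false) x d) * W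
          else v₂ * A c₂ * ι (k0 (T false) x i) * (A c₁ * v₁), by simp, ?_, ?_⟩
        · intro i hi
          simp only
          rw [if_neg (by omega), if_neg (by omega)]
        · simp only
          rw [if_neg (by omega), if_pos trivial]
      obtain ⟨b, hψ⟩ := hcov (fun i => ι (k0 (T false) x i)) z
        (fun i => ⟨_, rfl⟩) hz0 hzi hzd
      obtain ⟨p, hp, hpre⟩ := pre_k0 T x b d
      refine ⟨p, hp, ?_⟩
      obtain ⟨d, rfl⟩ : ∃ d', d = d' + 1 := ⟨d - 1, by omega⟩
      rw [pre, pre_val hι hT (d + 1) (k0 (T false) x) z b hz0 hzi d (by omega), hzd] at hψ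
      rw [← hpre, pre, ← bridge hι (hT (b d))]
      convert hψ using 1
      simp only [mul_assoc])
  have hcard : (Set.range ι).ncard = Fintype.card G := by
    rw [← Set.image_univ, Set.ncard_image_of_injective _ hinj, Set.ncard_univ, Nat.card_eq_fintype_card]
  have hcard2 : {p : M × M | p.1 ∈ Set.range ι ∧ p.2 ∈ Set.range ι ∧
      ψ (U * p.1 * (A c₁ * v₁) * A c * (v₂ * A c₂ * p.2 * W))}.ncard
      = {x : G × G | ψ (U * ι (x.1 * T c * x.2) * W)}.ncard := by
    have h5 : ∀ x y : G, U * ι x * (A c₁ * v₁) * A c * (v₂ * A c₂ * ι y * W)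
        = U * ι (x * T c * y) * W := by
      intro x y
      rw [← bridge hι (hT c)]
      simp only [mul_assoc]
    have : {p : M × M | p.1 ∈ Set.range ι ∧ p.2 ∈ Set.range ι ∧
      ψ (U * p.1 * (A c₁ * v₁) * A c * (v₂ * A c₂ * p.2 * W))}
      = (fun x : G × G => (ι x.1, ι x.2)) '' {x : G × G | ψ (U * ι (x.1 * T c * x.2) * W)} := by
      ext p
      constructor
      · rintro ⟨⟨x, hx⟩, ⟨y, hy⟩, hF⟩
        refine ⟨(x, y), ?_, Prod.ext hx hy⟩
        show ψ _
        rw [← h5, hx, hy]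
        exact hF
      · rintro ⟨x, hF, rfl⟩
        refine ⟨⟨x.1, rfl⟩, ⟨x.2, rfl⟩, ?_⟩
        show ψ _
        rw [h5]
        exact hF
    rw [this, Set.ncard_image_of_injective]
    intro x y hxy
    rw [Prod.mk.injEq] at hxy
    exact Prod.ext (hinj hxy.1) (hinj hxy.2)
  rw [hcard, hcard2, card_pairs (T c) (fun x => ψ (U * ι x * W)), sq]
  calc Fintype.card G * Fintype.card G
      ≤ Fintype.card G * ((d + 1) * {x : G | ψ (U * ι x * W)}.ncard) :=
        Nat.mul_le_mul_left _ hmain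
    _ = _ := by ring

end Pool.Agent.Lib.MP_53850c_co.BW
end
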