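import Pool.Agent.Lib.MP_53850c_co.BW.Defs
import Pool.Agent.Lib.MP_7c0edd_co.H26.Final2

/-!
# For large `d` the limiting densities for `l ≤ 1` are below the bounded width values
-/

set_option autoImplicit false

namespace Pool.Agent.Lib.MP_53850c_co.BW

open Finset Filter Topology Pool.Agent.Lib.MP_7c0edd_co.H21

theorem gap : ∃ d₀ : ℕ, ∀ d, d₀ ≤ d →
    cLim d 0 < 1 / ((d : ℝ) + 1) ∧ cLim d 1 < 1 / (((d + 1) ^ 2 / 4 : ℕ) : ℝ) := by
  obtain ⟨⟨C, hC⟩, -, -⟩ := MP7c0edd.specFinal2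
  set K : ℝ := |C| + 1 with hK
  have hK0 : 0 < K := by positivity
  have hCK : C ≤ K := (le_abs_self C).trans (by linarith)
  have ht : Tendsto (fun d : ℕ => (d : ℝ) ^ 3 / 2 ^ d) atTop (𝓝 0) :=
    tendsto_pow_const_div_const_pow_of_one_lt 3 (by norm_num)
  have he := ht.eventually (gt_mem_nhds (show (0 : ℝ) < 1 / (4 * K) by positivity))
  obtain ⟨d₁, hd₁⟩ := eventually_atTop.mp he
  refine ⟨max d₁ 2, fun d hd => ?_⟩
  have h1 := hd₁ d ((le_max_left _ _).trans hd)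
  have hd2 : 2 ≤ d := (le_max_right _ _).trans hd
  have hdR : (2 : ℝ) ≤ d := by exact_mod_cast hd2
  have h2 : (0 : ℝ) < 2 ^ d := by positivity
  rw [div_lt_div_iff₀ h2 (by positivity)] at h1
  -- h1 : d ^ 3 * (4 * K) < 1 * 2 ^ d
  constructor
  · have h3 := hC d 0 (by omega)
    rw [Nat.sub_zero, Nat.choose_zero_right, Nat.cast_one, mul_one] at h3
    refine h3.trans_lt ?_
    rw [div_lt_div_iff₀ h2 (by positivity)]
    have h4 : C * (d : ℝ) ^ 2 * ((d : ℝ) + 1) ≤ K * (d : ℝ) ^ 2 * ((d : ℝ) + 1) := by gcongr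
    have h5 : K * (d : ℝ) ^ 2 * ((d : ℝ) + 1) ≤ K * (d : ℝ) ^ 2 * (4 * d) := by
      gcongr
      linarith
    nlinarith
  · have h3 := hC d 1 (by omega)
    rw [Nat.choose_one_right] at h3
    refine h3.trans_lt ?_
    have hB : 0 < (d + 1) ^ 2 / 4 := by
      have : 4 ≤ (d + 1) ^ 2 := by nlinarith
      omega
    have hB0 : (0 : ℝ) < (((d + 1) ^ 2 / 4 : ℕ) : ℝ) := by exact_mod_cast hB
    have hB1 : (((d + 1) ^ 2 / 4 : ℕ) : ℝ) ≤ ((d : ℝ) + 1) ^ 2 / 4 := by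
      have := @Nat.cast_div_le ℝ _ _ _ ((d + 1) ^ 2) 4
      push_cast at this
      exact this
    have hB2 : (((d + 1) ^ 2 / 4 : ℕ) : ℝ) ≤ (d : ℝ) ^ 2 := by nlinarith
    have h6 : (2 : ℝ) ^ d = 2 * 2 ^ (d - 1) := by
      rw [← pow_succ']; congr 1; omega
    have h7 : (0 : ℝ) < 2 ^ (d - 1) * d := by positivity
    rw [div_lt_div_iff₀ h7 hB0]
    calc C * (d : ℝ) ^ 2 * (((d + 1) ^ 2 / 4 : ℕ) : ℝ) ≤ K * (d : ℝ) ^ 2 * (d : ℝ) ^ 2 := by gcongr
      _ = ((d : ℝ) ^ 3 * K) * d := by ring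
      _ < 1 * (2 ^ (d - 1) * d) := by
        have h8 : (d : ℝ) ^ 3 * K < 2 ^ (d - 1) := by
          rw [h6] at h1
          have : (0 : ℝ) < (d : ℝ) ^ 3 * K := by positivity
          nlinarith
        nlinarith

end Pool.Agent.Lib.MP_53850c_co.BW
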