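import Pool.Agent.Lib.MP_53850c_co.BW.Side
import Pool.Agent.Lib.MP_53850c_co.BW.Fibre0

section
/-!
# Thresholds: a homogeneous sequence of positions and a set `V` of frequent gap values which is
closed under `u, v ↦ u a v`, `u b v`
-/
set_option autoImplicit false

namespace Pool.Agent.Lib.MP_53850c_co.BW

open Finset

/-- the thresholds `δ_0 = 1/c`, `δ_(j+1) = ε δ_j² / (2c)` -/
noncomputable def del (ε : ℝ) (c : ℕ) : ℕ → ℝ
  | 0 => 1 / c
  | j + 1 => ε * del ε c j ^ 2 / (2 * c)

lemma del_pos {ε : ℝ} (hε : 0 < ε) {c : ℕ} (hc : 0 < c) (j : ℕ) : 0 < del ε c j := by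
  have hc' : (0 : ℝ) < c := by exact_mod_cast hc
  induction j with
  | zero => rw [del]; positivity
  | succ j ih => rw [del]; positivity

lemma del_le_one {ε : ℝ} (hε : 0 < ε) (hε1 : ε ≤ 1) {c : ℕ} (hc : 0 < c) (j : ℕ) :
    del ε c j ≤ 1 := by
  have hc' : (1 : ℝ) ≤ c := by exact_mod_cast hc
  induction j with
  | zero => rw [del, div_le_one (by linarith)]; exact hc'
  | succ j ih =>
    rw [del, div_le_one (by linarith)]
    have h0 := del_pos hε hc j
    have h1 : del ε c j ^ 2 ≤ 1 := pow_le_one₀ h0.le ih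
    nlinarith

lemma del_succ_le_sq {ε : ℝ} (hε1 : ε ≤ 1) {c : ℕ} (hc : 0 < c) (j : ℕ) :
    2 * del ε c (j + 1) ≤ del ε c j ^ 2 := by
  have hc' : (1 : ℝ) ≤ c := by exact_mod_cast hc
  rw [del]
  have h1 : 0 ≤ del ε c j ^ 2 := sq_nonneg _
  rw [mul_div_assoc', div_le_iff₀ (by linarith)]
  have h2 : ε * del ε c j ^ 2 ≤ 1 * del ε c j ^ 2 := mul_le_mul_of_nonneg_right hε1 h1
  have h3 : 1 * del ε c j ^ 2 ≤ c * del ε c j ^ 2 := mul_le_mul_of_nonneg_right hc' h1
  linarith

lemma del_succ_le {ε : ℝ} (hε : 0 < ε) (hε1 : ε ≤ 1) {c : ℕ} (hc : 0 < c) (j : ℕ) :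
    del ε c (j + 1) ≤ del ε c j := by
  have h1 := del_succ_le_sq hε1 hc j
  have h2 := del_pos hε hc j
  have h3 := del_le_one hε hε1 hc j
  have h4 := del_pos hε hc (j + 1)
  nlinarith

lemma del_antitone {ε : ℝ} (hε : 0 < ε) (hε1 : ε ≤ 1) {c : ℕ} (hc : 0 < c) :
    Antitone (del ε c) := antitone_nat_of_succ_le (del_succ_le hε hε1 hc)

lemma card_mul_del_succ {ε : ℝ} (hε : 0 < ε) (hε1 : ε ≤ 1) {c : ℕ} (hc : 0 < c) (j : ℕ) :
    c * del ε c (j + 1) ≤ ε / 2 * del ε c j := by
  have hc' : (1 : ℝ) ≤ c := by exact_mod_cast hc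
  have h2 := del_pos hε hc j
  have h3 := del_le_one hε hε1 hc j
  have e : c * del ε c (j + 1) = ε / 2 * del ε c j ^ 2 := by
    rw [del]; field_simp
  rw [e]
  have : del ε c j ^ 2 ≤ del ε c j := by nlinarith
  have h5 : 0 ≤ ε / 2 := by linarith
  exact mul_le_mul_of_nonneg_left this h5

/-- an increasing chain of nonempty subsets of a set with `c` elements has `V_j = V_(j+1)` for some
`j < c` -/
lemma exists_stable {M : Type*} [Fintype M] [DecidableEq M] (V : ℕ → Finset M) (hV : Monotone V)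
    (h0 : (V 0).Nonempty) : ∃ j < Fintype.card M, V j = V (j + 1) := by
  by_contra hcon
  push Not at hcon
  have h1 : ∀ j ≤ Fintype.card M, j + 1 ≤ (V j).card := by
    intro j
    induction j with
    | zero => intro _; exact card_pos.mpr h0
    | succ j ih =>
      intro hj
      have h2 := ih (by omega)
      have h3 : (V j).card < (V (j + 1)).card := by
        refine card_lt_card (Finset.ssubset_iff_subset_ne.mpr ⟨hV (Nat.le_succ j), hcon j (by omega)⟩)
      omega
  have h4 := h1 _ le_rfl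
  have h5 := card_le_univ (V (Fintype.card M))
  omega

/-- THRESHOLDS. `τ i j v` is the probability that the coordinates strictly between `i` and `j` have
the value `v`. -/
theorem thresholds (M : Type*) [Monoid M] [Fintype M] [DecidableEq M] (ι : Type*) [Finite ι] {ε : ℝ}
    (hε : 0 < ε) (hε1 : ε ≤ 1) :
    ∃ δ₀ : ℝ, 0 < δ₀ ∧ ∀ m : ℕ, 3 ≤ m → ∃ N : ℕ, ∀ S : Finset ℕ, N ≤ S.card →
      ∀ (col : ℕ → ι) (A : ℕ → Bool → M) (τ : ℕ → ℕ → M → ℝ),
        (∀ i ∈ S, ∀ j ∈ S, i < j → ∀ v, 0 ≤ τ i j v) →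
        (∀ i ∈ S, ∀ j ∈ S, i < j → ∑ v, τ i j v = 1) →
        (∀ i ∈ S, ∀ j ∈ S, ∀ k ∈ S, i < j → j < k → ∀ u v,
          ∀ c, τ i j u * τ j k v ≤ 2 * τ i k (u * A j c * v)) →
        ∃ (h : Fin m → ℕ) (a : Bool → M) (V : Finset M) (δ : ℝ), StrictMono h ∧ (∀ i, h i ∈ S) ∧
          (∀ i j, col (h i) = col (h j)) ∧ (∀ i, A (h i) = a) ∧
          δ₀ ≤ δ ∧ δ ≤ 1 ∧ V.Nonempty ∧
          (∀ u ∈ V, ∀ v ∈ V, ∀ c, u * a c * v ∈ V) ∧
          ∀ i j, i < j → (∀ v ∈ V, δ ≤ τ (h i) (h j) v) ∧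
            ∑ v ∈ univ.filter (fun v => v ∉ V), τ (h i) (h j) v ≤ ε / 2 * δ := by
  classical
  set c := Fintype.card M with hc
  have hc0 : 0 < c := Fintype.card_pos_iff.mpr ⟨1⟩
  refine ⟨del ε c c, del_pos hε hc0 c, fun m hm => ?_⟩
  obtain ⟨N, hN⟩ := ramsey_col (Fin (c + 1) → Finset M) (ι × (Bool → M)) m
  refine ⟨N, fun S hS col A τ h0 h1 h2 => ?_⟩
  obtain ⟨h, hmono, hmem, hcol, hpair⟩ := hN S hS (fun i => (col i, A i))
    (fun s t j => univ.filter (fun v => del ε c j ≤ τ s t v))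
  have hcol1 : ∀ i j, col (h i) = col (h j) := fun i j => congrArg Prod.fst (hcol i j)
  have hcolA : ∀ i j, A (h i) = A (h j) := fun i j => congrArg Prod.snd (hcol i j)
  let i0 : Fin m := ⟨0, by omega⟩
  let i1 : Fin m := ⟨1, by omega⟩
  let i2 : Fin m := ⟨2, by omega⟩
  have h01 : i0 < i1 := by simp [i0, i1, Fin.lt_def]
  have h12 : i1 < i2 := by simp [i1, i2, Fin.lt_def]
  have h02 : i0 < i2 := h01.trans h12
  -- the sets at all thresholds
  let W : ℕ → Finset M := fun j => univ.filter (fun v => del ε c j ≤ τ (h i0) (h i1) v)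
  have hW : ∀ j ≤ c, ∀ s t, s < t → ∀ v, v ∈ W j ↔ del ε c j ≤ τ (h s) (h t) v := by
    intro j hj s t hst v
    have h3 := congrFun (hpair i0 i1 s t h01 hst) ⟨j, by omega⟩
    simp only [W]
    simp only at h3
    rw [h3]
    simp
  have hmonoW : Monotone W := by
    intro j k hjk v hv
    simp only [W, mem_filter, mem_univ, true_and] at hv ⊢
    exact (del_antitone hε hε1 hc0 hjk).trans hv
  have hne : (W 0).Nonempty := by
    by_contra hcon
    rw [not_nonempty_iff_eq_empty] at hcon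
    have h3 : ∀ v, τ (h i0) (h i1) v < 1 / c := by
      intro v
      by_contra h4
      push Not at h4
      have h5 : v ∈ W 0 := by
        simp only [W, mem_filter, mem_univ, true_and, del]
        exact h4
      rw [hcon] at h5
      exact absurd h5 (notMem_empty v)
    have h4 := h1 (h i0) (hmem _) (h i1) (hmem _) (hmono h01)
    have h5 : ∑ v : M, τ (h i0) (h i1) v < ∑ _v : M, (1 / c : ℝ) :=
      sum_lt_sum_of_nonempty ⟨1, mem_univ _⟩ (fun v _ => h3 v)
    rw [h4, sum_const, card_univ, nsmul_eq_mul, ← hc] at h5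
    have h6 : (c : ℝ) * (1 / c) = 1 := by
      have : (c : ℝ) ≠ 0 := by exact_mod_cast hc0.ne'
      field_simp
    linarith
  obtain ⟨j, hj, hjW⟩ := exists_stable W hmonoW hne
  rw [← hc] at hj
  refine ⟨h, A (h i0), W j, del ε c j, hmono, hmem, hcol1, fun i => hcolA i i0,
    del_antitone hε hε1 hc0 hj.le, del_le_one hε hε1 hc0 j,
    hne.mono (hmonoW (Nat.zero_le j)), ?_, ?_⟩
  · intro u hu v hv x
    have hu' := (hW j hj.le i0 i1 h01 u).mp hu
    have hv' := (hW j hj.le i1 i2 h12 v).mp hv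
    have h3 := h2 (h i0) (hmem _) (h i1) (hmem _) (h i2) (hmem _) (hmono h01) (hmono h12) u v x
    rw [hcolA i1 i0] at h3
    have hd := del_pos hε hc0 j
    have h5 : del ε c j ^ 2 ≤ τ (h i0) (h i1) u * τ (h i1) (h i2) v := by
      rw [pow_two]
      exact mul_le_mul hu' hv' hd.le (hd.le.trans hu')
    have h6 := del_succ_le_sq hε1 hc0 j
    rw [hjW, hW (j + 1) (by omega) i0 i2 h02]
    linarith
  · intro s t hst
    refine ⟨fun v hv => (hW j hj.le s t hst v).mp hv, ?_⟩
    have h3 : ∀ v ∈ univ.filter (fun v => v ∉ W j), τ (h s) (h t) v ≤ del ε c (j + 1) := by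
      intro v hv
      rw [mem_filter] at hv
      have h4 := hv.2
      rw [hjW, hW (j + 1) (by omega) s t hst] at h4
      exact (not_le.mp h4).le
    have h4 := sum_le_card_nsmul _ _ _ h3
    refine h4.trans ?_
    rw [nsmul_eq_mul]
    have h5 : (((univ.filter (fun v => v ∉ W j)).card : ℕ) : ℝ) ≤ c := by
      rw [hc]; exact_mod_cast card_le_univ _
    have h6 := mul_le_mul_of_nonneg_right h5 (del_pos hε hc0 (j + 1)).le
    exact h6.trans (card_mul_del_succ hε hε1 hc0 j)

section tau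

variable {M : Type} [Monoid M]

namespace Thr

lemma E_mono (α : ℕ → Bool → M) (l : ℕ) : ∀ (i : ℕ) {f g : M → ℝ}, (∀ v, f v ≤ g v) →
    E α i l f ≤ E α i l g := by
  induction l with
  | zero => intro i f g h; exact h 1
  | succ l ih =>
    intro i f g h
    simp only [E]
    have h1 := ih (i + 1) (f := fun v => f (α i false * v)) (g := fun v => g (α i false * v))
      (fun v => h _)
    have h2 := ih (i + 1) (f := fun v => f (α i true * v)) (g := fun v => g (α i true * v))
      (fun v => h _)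
    linarith

lemma E_mul_const (α : ℕ → Bool → M) (r : ℝ) (l : ℕ) : ∀ (i : ℕ) (f : M → ℝ),
    E α i l (fun v => f v * r) = E α i l f * r := by
  induction l with
  | zero => intro i f; rfl
  | succ l ih =>
    intro i f
    simp only [E]
    rw [ih (i + 1) (fun v => f (α i false * v)), ih (i + 1) (fun v => f (α i true * v))]
    ring

lemma E_const (α : ℕ → Bool → M) (r : ℝ) (l : ℕ) : ∀ i : ℕ, E α i l (fun _ => r) = r := by
  induction l with
  | zero => intro i; rfl
  | succ l ih =>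
    intro i
    simp only [E]
    rw [ih]
    ring

lemma E_sum {ι : Type*} (α : ℕ → Bool → M) (s : Finset ι) (l : ℕ) : ∀ (i : ℕ) (f : ι → M → ℝ),
    E α i l (fun v => ∑ x ∈ s, f x v) = ∑ x ∈ s, E α i l (f x) := by
  induction l with
  | zero => intro i f; rfl
  | succ l ih =>
    intro i f
    simp only [E]
    rw [ih (i + 1) (fun x v => f x (α i false * v)), ih (i + 1) (fun x v => f x (α i true * v)),
      ← sum_add_distrib, sum_div]

lemma E_split (α : ℕ → Bool → M) (k l : ℕ) : ∀ (i : ℕ) (f : M → ℝ),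
    E α i (l + k) f = E α i l (fun u => E α (i + l) k (fun v => f (u * v))) := by
  induction l with
  | zero => intro i f; simp [E]
  | succ l ih =>
    intro i f
    rw [show l + 1 + k = (l + k) + 1 by ring]
    simp only [E]
    rw [ih (i + 1) (fun v => f (α i false * v)), ih (i + 1) (fun v => f (α i true * v))]
    simp only [mul_assoc, show i + 1 + l = i + (l + 1) by ring]

lemma E_nonneg (α : ℕ → Bool → M) (i l : ℕ) {f : M → ℝ} (h : ∀ v, 0 ≤ f v) : 0 ≤ E α i l f := by
  have := E_mono α l i (f := fun _ => 0) (g := f) h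
  rwa [E_const] at this

lemma tau_nonneg (α : ℕ → Bool → M) (i l : ℕ) (v : M) : 0 ≤ tau α i l v := by
  refine E_nonneg α i l (fun u => ?_)
  split_ifs <;> norm_num

lemma sum_tau [Fintype M] (α : ℕ → Bool → M) (i l : ℕ) : ∑ v, tau α i l v = 1 := by
  classical
  unfold tau
  rw [← E_sum]
  have : (fun u : M => ∑ x : M, if u = x then (1 : ℝ) else 0) = fun _ => 1 := by
    funext u
    simp
  rw [this, E_const]

lemma tau_mul_le (α : ℕ → Bool → M) (i l k : ℕ) (u v : M) (c : Bool) :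
    tau α i l u * tau α (i + l + 1) k v ≤ 2 * tau α i (l + (k + 1)) (u * α (i + l) c * v) := by
  classical
  set r := tau α (i + l + 1) k v with hr
  have hr0 : 0 ≤ r := tau_nonneg _ _ _ _
  have h1 : tau α i l u * (r / 2) ≤ tau α i (l + (k + 1)) (u * α (i + l) c * v) := by
    conv_rhs => rw [tau, E_split]
    conv_lhs => rw [tau, ← E_mul_const]
    refine E_mono α l i (fun u' => ?_)
    have h0 : ∀ b : Bool, 0 ≤ E α (i + l + 1) k
        (fun v' => if u' * (α (i + l) b * v') = u * α (i + l) c * v then (1 : ℝ) else 0) := by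
      intro b
      refine E_nonneg _ _ _ (fun x => ?_)
      split_ifs <;> norm_num
    have hf := h0 false
    have ht := h0 true
    simp only [E]
    split_ifs with huu
    · subst huu
      have h2 : r ≤ E α (i + l + 1) k
          (fun v' => if u' * (α (i + l) c * v') = u' * α (i + l) c * v then (1 : ℝ) else 0) := by
        rw [hr, tau]
        refine E_mono α k _ (fun v' => ?_)
        split_ifs with h3 h4 h4
        · exact le_rfl
        · exact absurd (by rw [h3, mul_assoc]) h4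
        · norm_num
        · exact le_rfl
      cases c
      · linarith
      · linarith
    · linarith
  linarith

end Thr

end tau

theorem specThr : SpecThr := by
  classical
  intro M _ _ ε hε hε1
  obtain ⟨δ₀, hδ₀, hm⟩ := thresholds M M hε hε1
  refine ⟨δ₀, hδ₀, fun m => ?_⟩
  obtain ⟨N, hN⟩ := hm (m + 3) (by omega)
  refine ⟨N, fun α κ S hS => ?_⟩
  obtain ⟨h, A, V, δ, hmono, hmem, hcol, hA, hδ, hδ1, hV, hcl, hlow⟩ := hN S hS κ α
    (fun i j v => tau α (i + 1) (j - i - 1) v)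
    (fun i _ j _ _ v => Thr.tau_nonneg _ _ _ _)
    (fun i _ j _ _ => Thr.sum_tau _ _ _)
    (by
      intro i _ j _ k _ hij hjk u v c
      have h1 := Thr.tau_mul_le α (i + 1) (j - i - 1) (k - j - 1) u v c
      have e1 : i + 1 + (j - i - 1) = j := by omega
      have e2 : j - i - 1 + (k - j - 1 + 1) = k - i - 1 := by omega
      rw [e1, e2] at h1
      exact h1)
  obtain ⟨h', he⟩ : ∃ h' : ℕ → ℕ, ∀ s (hs : s < m + 3), h' s = h ⟨s, hs⟩ :=
    ⟨fun s => if hs : s < m + 3 then h ⟨s, hs⟩ else 0, fun s hs => dif_pos hs⟩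
  refine ⟨h', A, κ (h ⟨0, by omega⟩), (V : Set M), δ, hδ, fun s hs => ?_, ?_⟩
  · rw [he s (by omega)]; exact hmem _
  · have hlt : ∀ s t (hs : s < m + 3) (ht : t < m + 3), s < t → (⟨s, hs⟩ : Fin (m + 3)) < ⟨t, ht⟩ :=
      fun s t hs ht hst => by simpa [Fin.lt_def] using hst
    refine ⟨fun s t hst ht => ?_, fun s hs => ?_, fun s hs => ?_, by simpa using hV,
      fun u hu v hv c => ?_, fun s t hst ht v hv => ?_, fun s t hst ht => ?_⟩
    · rw [he s (by omega), he t (by omega)]
      exact hmono (hlt _ _ _ _ hst)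
    · rw [he s (by omega)]; exact hA _
    · rw [he s (by omega)]; exact hcol _ _
    · exact hcl u (by simpa using hu) v (by simpa using hv) c
    · rw [he s (by omega), he t (by omega)]
      exact (hlow _ _ (hlt _ _ _ _ hst)).1 v (by simpa using hv)
    · rw [he s (by omega), he t (by omega)]
      have h2 := (hlow _ _ (hlt s t (by omega) (by omega) hst)).2
      have h3 : ε / 2 * δ ≤ ε * δ := by nlinarith
      refine le_trans (le_of_eq ?_) (h2.trans h3)
      refine sum_congr ?_ (fun _ _ => rfl)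
      ext v
      simp

end Pool.Agent.Lib.MP_53850c_co.BW
end

section
/-!
# TOP: all but a bounded number of directions have density at least `1 / B d - ε`
-/
namespace Pool.Agent.Lib.MP_53850c_co.BW

open Finset

namespace TopAux

variable {M : Type} [Monoid M] {α : ℕ → Bool → M}

lemma pre_congr (z a a' : ℕ → M) (j : ℕ) (h : ∀ i < j, a i = a' i) : pre z a j = pre z a' j := by
  induction j with
  | zero => rfl
  | succ j ih => rw [pre, pre, ih fun i hi => h i (by omega), h j (by omega)]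

lemma suf_congr (z a a' : ℕ → M) (k j : ℕ) (h : ∀ i, j ≤ i → i < j + k → a i = a' i) :
    suf z a j k = suf z a' j k := by
  induction k generalizing j with
  | zero => rfl
  | succ k ih =>
    rw [suf, suf, ih (j + 1) fun i hi hi' => h i (by omega) (by omega), h j le_rfl (by omega)]

lemma seg_cast {i l l' : ℕ} {v : M} (h : v ∈ Seg α i l) (e : l = l') : v ∈ Seg α i l' := e ▸ h

/-- the fibre inequality for the cubes with stars at `h a, ..., h (a + d - 1)` -/
lemma fibre_at [Fintype M] {κ : ℕ → M} {h : ℕ → ℕ} {m : ℕ} {A : Bool → M} {C : M}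
    {V : Set M} {δ ρ : ℝ} (hH : Hom α κ h m A C V δ ρ) (hδ : 0 < δ) {ψ : M → Prop} {d n : ℕ}
    (hd : 1 ≤ d) (hCov : Cov α κ ψ d n) (hn : ∀ s < m, h s < n) {G : Set M} (hGV : G ⊆ V)
    (hFib : ∀ (F : M → M → Prop) (d : ℕ) (U W P Q : M), 1 ≤ d →
      (∃ c, ∃ v ∈ V, P = A c * v) → (∃ v ∈ V, ∃ c, Q = v * A c) →
      (∀ k z : ℕ → M, (∀ i, k i ∈ G) → z 0 = U * k 0 * P →
        (∀ i, i + 1 < d → z (i + 1) = Q * k (i + 1) * P) →
        z d = Q * k d * W → ∃ j < d, ∃ b : ℕ → Bool,
          F (pre z (fun i => A (b i)) j) (suf z (fun i => A (b i)) (j + 1) (d - 1 - j))) →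
      G.ncard ^ 2 ≤ B d * {p : M × M | p.1 ∈ G ∧ p.2 ∈ G ∧ F (U * p.1 * P) (Q * p.2 * W)}.ncard)
    {a t b : ℕ} (ht : t + 1 < a) (hab : a + d ≤ b) (hbm : b + 1 < m) {U W v v' : M}
    (hU : U ∈ Seg α 0 (h t + 1)) (hW : W ∈ Seg α (h (b + 1)) (n - h (b + 1))) (hv : v ∈ V)
    (hv' : v' ∈ V) (c c' : Bool) :
    G.ncard ^ 2 ≤ B d * {p : M × M | p.1 ∈ G ∧ p.2 ∈ G ∧
      ψ (U * p.1 * (A c * v) * C * (v' * A c' * p.2 * W))}.ncard := by
  have hseg : ∀ s t, s < t → t < m → ∀ u ∈ V, u ∈ Seg α (h s + 1) (h t - h s - 1) :=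
    fun s t hst htm u hu => Side.mem_seg_of_tau (hδ.trans_le (hH.low s t hst htm u hu))
  have hlet : ∀ s < m, ∀ c, A c ∈ Seg α (h s) 1 := by
    intro s hs c
    have := Side.seg_letter (α := α) (h s) c
    rwa [hH.letter s hs] at this
  refine hFib (fun x y => ψ (x * C * y)) d U W (A c * v) (v' * A c') hd ⟨c, v, hv, rfl⟩
    ⟨v', hv', c', rfl⟩ ?_
  intro k z hk hz0 hzi hzd
  obtain ⟨j, hj, bb, hψ⟩ := hCov (fun i => h (a + i))
    (fun i hi => hH.mono _ _ (by omega) (by omega)) (hn _ (by omega)) z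
    (by
      show z 0 ∈ Seg α 0 (h (a + 0))
      rw [hz0, add_zero]
      have m1 := hH.mono t (t + 1) (Nat.lt_succ_self t) (by omega)
      have m2 := hH.mono (t + 1) a ht (by omega)
      have h1 := Side.seg_mul hU (v := k 0) (k := h (t + 1) - h t - 1)
        (by rw [zero_add]; exact hseg t (t + 1) (Nat.lt_succ_self t) (by omega) _ (hGV (hk 0)))
      have h2 := Side.seg_mul h1 (v := A c) (k := 1) (by
        have := hlet (t + 1) (by omega) c
        rwa [show h (t + 1) = 0 + (h t + 1 + (h (t + 1) - h t - 1)) by omega] at this)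
      have h3 := Side.seg_mul h2 (v := v) (k := h a - h (t + 1) - 1) (by
        have := hseg (t + 1) a ht (by omega) v hv
        rwa [show h (t + 1) + 1 = 0 + (h t + 1 + (h (t + 1) - h t - 1) + 1) by omega] at this)
      rw [← mul_assoc]
      exact seg_cast h3 (by omega))
    (fun i hi => by
      show z (i + 1) ∈ Seg α (h (a + i) + 1) (h (a + (i + 1)) - h (a + i) - 1)
      refine hseg (a + i) (a + (i + 1)) (by omega) (by omega) _ ?_
      rw [hzi i hi]
      have h1 := hH.closed v' hv' (k (i + 1)) (hGV (hk _)) c'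
      have h2 := hH.closed _ h1 v hv c
      rw [← mul_assoc]
      exact h2)
    (by
      show z d ∈ Seg α (h (a + (d - 1)) + 1) (n - h (a + (d - 1)) - 1)
      rw [hzd]
      have m1 := hH.mono (a + (d - 1)) b (by omega) (by omega)
      have m2 := hH.mono b (b + 1) (Nat.lt_succ_self b) hbm
      have m3 := hn _ hbm
      have h1 := Side.seg_mul (hseg (a + (d - 1)) b (by omega) (by omega) v' hv')
        (v := A c') (k := 1) (by
        have := hlet b (by omega) c'
        rwa [show h b = h (a + (d - 1)) + 1 + (h b - h (a + (d - 1)) - 1) by omega] at this)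
      have h2 := Side.seg_mul h1 (v := k d) (k := h (b + 1) - h b - 1) (by
        have := hseg b (b + 1) (Nat.lt_succ_self b) hbm _ (hGV (hk d))
        rwa [show h b + 1 = h (a + (d - 1)) + 1 + (h b - h (a + (d - 1)) - 1 + 1) by omega] at this)
      have h3 := Side.seg_mul h2 (v := W) (k := n - h (b + 1)) (by
        have e : h (b + 1) = h (a + (d - 1)) + 1 +
          (h b - h (a + (d - 1)) - 1 + 1 + (h (b + 1) - h b - 1)) := by omega
        rw [← e]
        exact hW)
      exact seg_cast h3 (by omega))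
  refine ⟨j, hj, bb, ?_⟩
  have e1 := pre_congr z (fun i => α (h (a + i)) (bb i)) (fun i => A (bb i)) j (fun i hi => by
    rw [hH.letter (a + i) (by omega)])
  have e2 := suf_congr z (fun i => α (h (a + i)) (bb i)) (fun i => A (bb i)) (d - 1 - j) (j + 1)
    (fun i hi hi' => by
      rw [hH.letter (a + i) (by omega)])
  have e3 : κ (h (a + j)) = C := hH.star (a + j) (by omega)
  rw [e1, e2, e3] at hψ
  exact hψ

end TopAux

open TopAux in
open Classical in
theorem specTop_of (hF : SpecFibre) : SpecTop := by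
  intro M _ hfin d ε hd hε
  have hft : Fintype M := Fintype.ofFinite M
  set ε' : ℝ := min ε 1 / 6 with hε'
  have h0 : 0 < ε' := by
    have : 0 < min ε 1 := lt_min hε one_pos
    positivity
  have h1 : ε' ≤ 1 / 6 := by
    have : min ε 1 ≤ 1 := min_le_right _ _
    rw [hε']; linarith
  have h2 : 6 * ε' ≤ ε := by
    have : min ε 1 ≤ ε := min_le_left _ _
    rw [hε']; linarith
  obtain ⟨δ₀, hδ₀, hThr⟩ := specThr M ε' h0 (by linarith)
  obtain ⟨a1, hL⟩ := specLeft ε' δ₀ h0 (by linarith) hδ₀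
  obtain ⟨a2, hR⟩ := specRight ε' δ₀ d h0 (by linarith) hδ₀
  set a := a1 + 1 with ha
  obtain ⟨N, hN⟩ := hThr (a + a2 + d + 5)
  refine ⟨N, fun α κ ψ n hCov S hS => ?_⟩
  by_contra hcon
  push Not at hcon
  obtain ⟨h, A, C, V, δ, hδ, hmem, hH⟩ := hN α κ S hcon
  have hn : ∀ s < a + a2 + d + 5, h s < n := fun s hs => (hS _ (hmem s hs)).1
  obtain ⟨G, hG, hGV, hFib⟩ := hF M A V hH.ne hH.closed
  have hBpos : (1 : ℝ) ≤ B d := by
    have : 1 ≤ B d := by
      unfold B
      have : 4 ≤ (d + 1) ^ 2 := by nlinarith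
      omega
    exact_mod_cast this
  have hB0 : (0 : ℝ) < B d := by linarith
  have hGn : (0 : ℝ) ≤ G.ncard := Nat.cast_nonneg _
  set ind : M → ℝ := fun x => if ψ x then 1 else 0 with hind
  have hind0 : ∀ x, 0 ≤ ind x := fun x => by
    simp only [hind]
    split_ifs <;> norm_num
  -- the right side
  have hright : ∀ t, t + 1 < a → ∀ U ∈ Seg α 0 (h t + 1), ∀ c, ∀ v ∈ V,
      (1 - 3 * ε') * ((G.ncard : ℝ) / B d) ≤ E α (h a + 1) (n - h a - 1)
        (fun Y => ∑ g ∈ univ.filter (fun g => g ∈ G), ind (U * g * (A c * v) * C * Y)) := by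
    intro t ht U hU c v hv
    refine hR M α κ h (a + a2 + d + 5) A C V δ G _ ((G.ncard : ℝ) / B d) a n hδ hH hn hG hGV
      (fun Y => sum_nonneg fun g _ => hind0 _) (div_nonneg hGn hB0.le) (by omega) ?_
    intro b hab hbm W hW c' v' hv'
    have key := fibre_at hH (hδ₀.trans_le hδ) hd hCov hn hGV hFib ht hab hbm hU hW hv hv' c c'
    have hcount : (({p : M × M | p.1 ∈ G ∧ p.2 ∈ G ∧
        ψ (U * p.1 * (A c * v) * C * (v' * A c' * p.2 * W))}.ncard : ℕ) : ℝ) =
        ∑ g' ∈ univ.filter (fun g => g ∈ G), ∑ g ∈ univ.filter (fun g => g ∈ G),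
          ind (U * g * (A c * v) * C * (v' * A c' * g' * W)) := by
      have e : {p : M × M | p.1 ∈ G ∧ p.2 ∈ G ∧
          ψ (U * p.1 * (A c * v) * C * (v' * A c' * p.2 * W))} =
          ((((univ.filter (fun g => g ∈ G)) ×ˢ (univ.filter (fun g => g ∈ G))).filter
            (fun p : M × M => ψ (U * p.1 * (A c * v) * C * (v' * A c' * p.2 * W))) :
              Finset (M × M)) : Set (M × M)) := by
        ext p
        simp [and_assoc]
      rw [e, Set.ncard_coe_finset, card_filter, sum_product_right]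
      push_cast
      rfl
    rw [← hcount]
    have key' : (G.ncard : ℝ) ^ 2 ≤ B d * (({p : M × M | p.1 ∈ G ∧ p.2 ∈ G ∧
        ψ (U * p.1 * (A c * v) * C * (v' * A c' * p.2 * W))}.ncard : ℕ) : ℝ) := by
      exact_mod_cast key
    rw [← mul_div_assoc, div_le_iff₀ hB0]
    calc (G.ncard : ℝ) * G.ncard = (G.ncard : ℝ) ^ 2 := by ring
      _ ≤ _ := key'
      _ = _ := by ring
  -- the left side
  have hleft := hL M α κ h (a + a2 + d + 5) A C V δ G
    (fun X => E α (h a + 1) (n - h a - 1) (fun Y => ind (X * C * Y))) ((1 - 3 * ε') / B d) a hδ hH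
    hG hGV (fun X => Side.E_nonneg fun Y => hind0 _)
    (div_nonneg (by linarith) hB0.le) (by omega) (by omega) (by
      intro t ht U hU c v hv
      have h3 := hright t ht U hU c v hv
      rw [Side.E_sum] at h3
      calc (G.ncard : ℝ) * ((1 - 3 * ε') / B d) = (1 - 3 * ε') * ((G.ncard : ℝ) / B d) := by ring
        _ ≤ _ := h3)
  have hdens : dens α κ ψ n (h a) =
      E α 0 (h a) (fun X => E α (h a + 1) (n - h a - 1) (fun Y => ind (X * C * Y))) := by
    unfold dens
    rw [hH.star a (by omega)]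
  have hbad := (hS _ (hmem a (by omega))).2
  rw [hdens] at hbad
  have h4 : 1 / (B d : ℝ) - ε ≤ (1 - 3 * ε') * ((1 - 3 * ε') / B d) := by
    have h5 : (1 - 3 * ε') * ((1 - 3 * ε') / B d) = (1 - 3 * ε') ^ 2 * (1 / B d) := by ring
    rw [h5]
    have h6 : (0 : ℝ) ≤ 1 / B d := by positivity
    have h7 : 1 / (B d : ℝ) ≤ 1 := by rw [div_le_one hB0]; exact hBpos
    have h8 : 1 - ε ≤ (1 - 3 * ε') ^ 2 := by nlinarith
    have h9 : (1 - ε) * (1 / (B d : ℝ)) ≤ (1 - 3 * ε') ^ 2 * (1 / B d) :=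
      mul_le_mul_of_nonneg_right h8 h6
    nlinarith
  linarith

theorem specTop : SpecTop := specTop_of specFibre

end Pool.Agent.Lib.MP_53850c_co.BW
end
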