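import Pool.Agent.Lib.MP_53850c_co.BW.Side

/-!
# SpecTop0: vertices meeting all `d`-faces, recognised by a program of bounded width
-/

namespace Pool.Agent.Lib.MP_53850c_co.BW

open Finset

namespace Top0

variable {M : Type} [Monoid M] [Fintype M] {α : ℕ → Bool → M} {κ : ℕ → M} {h : ℕ → ℕ} {m : ℕ}
  {A : Bool → M} {C : M} {V : Set M} {δ ρ : ℝ}

lemma mem_gap (hH : Hom α κ h m A C V δ ρ) (hδ : 0 < δ) {s t : ℕ} (hst : s < t) (ht : t < m) {v : M}
    (hv : v ∈ V) : v ∈ Seg α (h s + 1) (h t - h s - 1) :=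
  Side.mem_seg_of_tau (hδ.trans_le (hH.low s t hst ht v hv))

/-- prefix -/
lemma mem_prefix (hH : Hom α κ h m A C V δ ρ) (hδ : 0 < δ) {t a : ℕ} (hta : t + 1 < a) (ham : a < m)
    {U k v : M} (hU : U ∈ Seg α 0 (h t + 1)) (hk : k ∈ V) (hv : v ∈ V) (c : Bool) :
    U * k * (A c * v) ∈ Seg α 0 (h a) := by
  have h1 := hH.mono t (t + 1) (Nat.lt_succ_self t) (by omega)
  have h2 := hH.mono (t + 1) a hta ham
  have hk' := mem_gap hH hδ (Nat.lt_succ_self t) (by omega) hk
  have hv' := mem_gap hH hδ hta ham hv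
  have hc : A c ∈ Seg α (h (t + 1)) 1 := by
    rw [← hH.letter (t + 1) (by omega)]
    exact Side.seg_letter _ _
  have e1 : U * k ∈ Seg α 0 (h t + 1 + (h (t + 1) - h t - 1)) :=
    Side.seg_mul hU (by rw [zero_add]; exact hk')
  have e2 : h t + 1 + (h (t + 1) - h t - 1) = h (t + 1) := by omega
  rw [e2] at e1
  have e3 : A c * v ∈ Seg α (h (t + 1)) (1 + (h a - h (t + 1) - 1)) := Side.seg_mul hc hv'
  have e4 := Side.seg_mul e1 (by rw [zero_add]; exact e3)
  have e5 : h (t + 1) + (1 + (h a - h (t + 1) - 1)) = h a := by omega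
  rw [e5] at e4
  exact e4

/-- suffix -/
lemma mem_suffix (hH : Hom α κ h m A C V δ ρ) (hδ : 0 < δ) {s b n : ℕ} (hsb : s < b) (hb : b + 1 < m)
    (hn : h (b + 1) < n) {W k v : M} (hW : W ∈ Seg α (h (b + 1)) (n - h (b + 1))) (hk : k ∈ V)
    (hv : v ∈ V) (c : Bool) : v * A c * k * W ∈ Seg α (h s + 1) (n - h s - 1) := by
  have h1 := hH.mono s b hsb (by omega)
  have h2 := hH.mono b (b + 1) (Nat.lt_succ_self b) hb
  have hv' := mem_gap hH hδ hsb (by omega) hv
  have hk' := mem_gap hH hδ (Nat.lt_succ_self b) hb hk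
  have hc : A c ∈ Seg α (h b) 1 := by
    rw [← hH.letter b (by omega)]
    exact Side.seg_letter _ _
  have e0 : h s + 1 + (h b - h s - 1) = h b := by omega
  have e1 : v * A c ∈ Seg α (h s + 1) (h b - h s - 1 + 1) :=
    Side.seg_mul hv' (by rw [e0]; exact hc)
  have e2 : h s + 1 + (h b - h s - 1 + 1) = h b + 1 := by omega
  have e3 : v * A c * k ∈ Seg α (h s + 1) (h b - h s - 1 + 1 + (h (b + 1) - h b - 1)) :=
    Side.seg_mul e1 (by rw [e2]; exact hk')
  have e4 : h s + 1 + (h b - h s - 1 + 1 + (h (b + 1) - h b - 1)) = h (b + 1) := by omega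
  have e5 := Side.seg_mul e3 (by rw [e4]; exact hW)
  have e6 : h b - h s - 1 + 1 + (h (b + 1) - h b - 1) + (n - h (b + 1)) = n - h s - 1 := by omega
  rw [e6] at e5
  exact e5

end Top0

open Top0 in
/-- TOP for vertices -/
theorem specTop0 (hThr : SpecThr) (hFib : SpecFibre0) (hL : SpecLeft) (hR : SpecRight) : SpecTop0 := by
  classical
  intro M _ _ d ε hd hε
  have : Fintype M := Fintype.ofFinite M
  -- a small parameter
  obtain ⟨η, hη0, hη1, hηε⟩ : ∃ η : ℝ, 0 < η ∧ η ≤ 1 / 3 ∧ 6 * η ≤ ε :=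
    ⟨min (1 / 3) (ε / 6), by positivity, min_le_left _ _, by
      have := min_le_right (1 / 3) (ε / 6)
      linarith⟩
  obtain ⟨δ₀, hδ₀, hm⟩ := hThr M η hη0 (by linarith)
  obtain ⟨a₁, ha₁⟩ := hL η δ₀ hη0 (by linarith) hδ₀
  obtain ⟨a₂, ha₂⟩ := hR η δ₀ d hη0 (by linarith) hδ₀
  set a := a₁ with ha
  set m := a + a₂ + d + 1 with hmdef
  obtain ⟨N, hN⟩ := hm m
  refine ⟨N, fun n hn α ψ hCov => ?_⟩
  obtain ⟨h, A, C, V, δ, hδ, hS, hH⟩ := hN α (fun _ => 1) (range n) (by rwa [card_range])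
  have hδp : 0 < δ := hδ₀.trans_le hδ
  have hhn : ∀ s < m, h s < n := fun s hs => mem_range.mp (hS s hs)
  obtain ⟨G, hG, hGV, hfib⟩ := hFib M A V hH.ne hH.closed
  have ham : a < m := by omega
  -- the letter at `h a` is `c`
  have key : ∀ c : Bool, (1 - 3 * η) * ((1 - 3 * η) * (1 / ((d : ℝ) + 1))) ≤
      E α 0 (h a) (fun X => E α (h a + 1) (n - h a - 1)
        (fun Y => if ψ (X * A c * Y) then (1 : ℝ) else 0)) := by
    intro c
    refine ha₁ M α (fun _ => 1) h m A C V δ G _ _ a hδ hH hG hGV ?_ ?_ le_rfl ham ?_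
    · intro v
      exact Side.E_nonneg fun Y => by split_ifs <;> norm_num
    · have : 0 ≤ 1 - 3 * η := by linarith
      positivity
    · intro t hta U hU c₁ v₁ hv₁
      rw [← Side.E_sum]
      have h2 := ha₂ M α (fun _ => 1) h m A C V δ G
        (fun Y => ∑ g ∈ univ.filter (fun g => g ∈ G),
          if ψ (U * g * (A c₁ * v₁) * A c * Y) then (1 : ℝ) else 0)
        ((G.ncard : ℝ) * (1 / ((d : ℝ) + 1))) a n hδ hH hhn hG hGV
        (fun Y => sum_nonneg fun g _ => by split_ifs <;> norm_num) (by positivity) (by omega) ?_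
      · calc (G.ncard : ℝ) * ((1 - 3 * η) * (1 / ((d : ℝ) + 1)))
            = (1 - 3 * η) * ((G.ncard : ℝ) * (1 / ((d : ℝ) + 1))) := by ring
          _ ≤ _ := h2
      · intro b hab hbm W hW c₂ v₂ hv₂
        have hf := hfib ψ d U W (A c₁ * v₁) (v₂ * A c₂) c hd ⟨c₁, v₁, hv₁, rfl⟩ ⟨v₂, hv₂, c₂, rfl⟩
          (by
            intro k z hk hz0 hzi hzd
            have hletter : ∀ i, i < d → α (h (a + i)) = A := fun i hi => hH.letter _ (by omega)
            obtain ⟨b', hb'⟩ := hCov (fun i => h (a + i))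
              (fun i hi => hH.mono _ _ (by omega) (by omega)) (hhn _ (by omega)) z
              (by
                rw [hz0]
                exact mem_prefix hH hδp hta ham hU (hGV (hk 0)) hv₁ c₁)
              (by
                intro i hi
                rw [hzi i hi]
                have h5 : v₂ * A c₂ * k (i + 1) * (A c₁ * v₁) ∈ V := by
                  have h6 := hH.closed _ (hH.closed v₂ hv₂ _ (hGV (hk (i + 1))) c₂) _ hv₁ c₁
                  simp only [mul_assoc] at h6 ⊢
                  exact h6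
                exact mem_gap hH hδp (by omega) (by omega) h5)
              (by
                rw [hzd]
                exact mem_suffix hH hδp (by omega) hbm (hhn _ hbm) hW (hGV (hk d)) hv₂ c₂)
            refine ⟨b', ?_⟩
            have hpre : ∀ j, j ≤ d → pre z (fun i => α (h (a + i)) (b' i)) j
                = pre z (fun i => A (b' i)) j := by
              intro j
              induction j with
              | zero => intro _; rfl
              | succ j ih =>
                intro hj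
                rw [pre, pre, ih (by omega), hletter j (by omega)]
            rw [hpre d le_rfl] at hb'
            exact hb')
        have hsum : ∑ g' ∈ univ.filter (fun g => g ∈ G), ∑ g ∈ univ.filter (fun g => g ∈ G),
            (if ψ (U * g * (A c₁ * v₁) * A c * (v₂ * A c₂ * g' * W)) then (1 : ℝ) else 0)
            = {p : M × M | p.1 ∈ G ∧ p.2 ∈ G ∧
              ψ (U * p.1 * (A c₁ * v₁) * A c * (v₂ * A c₂ * p.2 * W))}.ncard := by
          have h7 : {p : M × M | p.1 ∈ G ∧ p.2 ∈ G ∧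
              ψ (U * p.1 * (A c₁ * v₁) * A c * (v₂ * A c₂ * p.2 * W))}
              = ((((univ.filter (fun g => g ∈ G)) ×ˢ (univ.filter (fun g => g ∈ G))).filter
                (fun p : M × M => ψ (U * p.1 * (A c₁ * v₁) * A c * (v₂ * A c₂ * p.2 * W))) :
                Finset (M × M)) : Set (M × M)) := by
            ext p
            simp only [Set.mem_ofPred_eq, coe_filter, mem_product, mem_filter, mem_univ, true_and]
            tauto
          rw [h7, Set.ncard_coe_finset, card_filter, sum_product_right]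
          push_cast
          rfl
        have hGc : 0 ≤ (G.ncard : ℝ) := Nat.cast_nonneg _
        have hfR : (G.ncard : ℝ) ^ 2 ≤ ((d : ℝ) + 1) * {p : M × M | p.1 ∈ G ∧ p.2 ∈ G ∧
              ψ (U * p.1 * (A c₁ * v₁) * A c * (v₂ * A c₂ * p.2 * W))}.ncard := by
          exact_mod_cast hf
        rw [hsum]
        have hd1 : (0 : ℝ) < (d : ℝ) + 1 := by positivity
        rw [← mul_assoc, mul_one_div, div_le_iff₀ hd1, ← sq, mul_comm]
        rw [mul_comm] at hfR
        linarith
  have hha := hhn a ham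
  have hn2 : n = h a + 1 + (n - h a - 1) := by omega
  have hsplit : E α 0 n (fun v => if ψ v then (1 : ℝ) else 0) = E α 0 (h a) (fun X => (1 / 2) *
      (E α (h a + 1) (n - h a - 1) (fun Y => if ψ (X * A false * Y) then (1 : ℝ) else 0) +
       E α (h a + 1) (n - h a - 1) (fun Y => if ψ (X * A true * Y) then (1 : ℝ) else 0))) := by
    have h1 : E α 0 n (fun v => if ψ v then (1 : ℝ) else 0)
        = E α 0 (h a + 1 + (n - h a - 1)) (fun v => if ψ v then (1 : ℝ) else 0) := by rw [← hn2]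
    rw [h1, Side.E_letter]
    simp only [zero_add, hH.letter a ham]
  rw [hsplit, Side.E_smul, Side.E_add]
  have k0 := key false
  have k1 := key true
  have hd1 : (0 : ℝ) < (d : ℝ) + 1 := by positivity
  have hd2 : 1 / ((d : ℝ) + 1) ≤ 1 := by
    rw [div_le_one hd1]
    have : (0 : ℝ) ≤ d := Nat.cast_nonneg _
    linarith
  have hd3 : 0 ≤ 1 / ((d : ℝ) + 1) := by positivity
  have hfin : 1 / ((d : ℝ) + 1) - ε ≤ (1 - 3 * η) * ((1 - 3 * η) * (1 / ((d : ℝ) + 1))) := by
    have h1 : 6 * η * (1 / ((d : ℝ) + 1)) ≤ 6 * η * 1 :=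
      mul_le_mul_of_nonneg_left hd2 (by positivity)
    have h2 : 0 ≤ 9 * η ^ 2 * (1 / ((d : ℝ) + 1)) := by positivity
    have h3 : (1 - 3 * η) * ((1 - 3 * η) * (1 / ((d : ℝ) + 1))) = 1 / ((d : ℝ) + 1)
        - 6 * η * (1 / ((d : ℝ) + 1)) + 9 * η ^ 2 * (1 / ((d : ℝ) + 1)) := by ring
    rw [h3]
    linarith
  linarith

end Pool.Agent.Lib.MP_53850c_co.BW
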